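import Mathlib

/-!
# Cyclic points of random self-maps of a finite set
-/

set_option autoImplicit false

open Finset Function

namespace Pool.Agent.Helper38.Dml

section updates

variable {X : Type*} [Fintype X] [DecidableEq X]

/-- Double counting: if `t f` is a point such that changing `f` at `t f` neither leaves `S` nor
changes `t`, then for every relation `R` not changed either,
`n * #{f ∈ S | R f (f (t f))} = ∑_{f ∈ S} #{y | R f y}`. -/
theorem update_count (S : Finset (X → X)) (t : (X → X) → X) (R : (X → X) → X → Prop)
    [∀ f y, Decidable (R f y)]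
    (hS : ∀ f ∈ S, ∀ y, update f (t f) y ∈ S)
    (ht : ∀ f ∈ S, ∀ y, t (update f (t f) y) = t f)
    (hR : ∀ f ∈ S, ∀ y z, R (update f (t f) y) z ↔ R f z) :
    Fintype.card X * (S.filter (fun f => R f (f (t f)))).card
      = ∑ f ∈ S, (univ.filter (fun y => R f y)).card := by
  classical
  rw [← Finset.card_univ, ← Finset.card_product, ← Finset.card_sigma]
  refine Finset.card_nbij' (fun p => (⟨update p.2 (t p.2) p.1, p.2 (t p.2)⟩ : (_ : X → X) × X))
    (fun p => (p.1 (t p.1), update p.1 (t p.1) p.2)) ?_ ?_ ?_ ?_
  · intro p hp
    simp only [coe_product, Set.mem_prod, mem_coe, mem_filter, mem_univ, true_and] at hp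
    simp only [coe_sigma, Set.mem_sigma_iff, mem_coe, mem_filter, mem_univ, true_and]
    exact ⟨hS _ hp.1 _, (hR _ hp.1 _ _).2 hp.2⟩
  · intro p hp
    simp only [coe_sigma, Set.mem_sigma_iff, mem_coe, mem_filter, mem_univ, true_and] at hp
    simp only [coe_product, Set.mem_prod, mem_coe, mem_filter, mem_univ, true_and]
    refine ⟨hS _ hp.1 _, ?_⟩
    rw [hR _ hp.1, ht _ hp.1, update_self]
    exact hp.2
  · intro p hp
    simp only [coe_product, Set.mem_prod, mem_coe, mem_filter, mem_univ, true_and] at hp
    simp only
    rw [ht _ hp.1, update_self, update_idem, update_eq_self]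
  · intro p hp
    simp only [coe_sigma, Set.mem_sigma_iff, mem_coe, mem_filter, mem_univ, true_and] at hp
    simp only
    rw [ht _ hp.1, update_self, update_idem, update_eq_self]

/-- functions for which `x, f x, …, f^[k] x` are pairwise distinct -/
def E (x : X) (k : ℕ) : Finset (X → X) :=
  univ.filter (fun f => ∀ i ≤ k, ∀ j ≤ k, f^[i] x = f^[j] x → i = j)

theorem mem_E (x : X) (k : ℕ) (f : X → X) :
    f ∈ E x k ↔ ∀ i ≤ k, ∀ j ≤ k, f^[i] x = f^[j] x → i = j := by
  simp [E]

theorem iterate_update (x : X) (k : ℕ) (f : X → X)
    (hf : ∀ i ≤ k, ∀ j ≤ k, f^[i] x = f^[j] x → i = j) (y : X) :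
    ∀ i ≤ k, (update f (f^[k] x) y)^[i] x = f^[i] x := by
  intro i
  induction i with
  | zero => intro _; rfl
  | succ i ih =>
    intro hi
    rw [iterate_succ_apply', ih (by omega), iterate_succ_apply', update_of_ne]
    intro h
    have := hf i (by omega) k le_rfl h
    omega

theorem E_hS (x : X) (k : ℕ) : ∀ f ∈ E x k, ∀ y, update f (f^[k] x) y ∈ E x k := by
  intro f hf y
  rw [mem_E] at hf ⊢
  intro i hi j hj h
  rw [iterate_update x k f hf y i hi, iterate_update x k f hf y j hj] at h
  exact hf i hi j hj h

theorem E_ht (x : X) (k : ℕ) : ∀ f ∈ E x k, ∀ y,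
    (update f (f^[k] x) y)^[k] x = f^[k] x := by
  intro f hf y
  rw [mem_E] at hf
  exact iterate_update x k f hf y k le_rfl

/-- number of functions for which `x` has period `k + 1` -/
theorem card_period (x : X) (k : ℕ) :
    Fintype.card X * ((E x k).filter (fun f => f^[k + 1] x = x)).card = (E x k).card := by
  have h := update_count (E x k) (fun f => f^[k] x) (fun _ y => y = x) (E_hS x k) (E_ht x k)
    (fun f _ y z => Iff.rfl)
  have h1 : ∀ f : X → X, f (f^[k] x) = f^[k + 1] x := fun f => (iterate_succ_apply' f k x).symm
  simp only [h1] at h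
  rw [h, Finset.sum_const, smul_eq_mul]
  have h2 : univ.filter (fun y => y = x) = {x} := by ext y; simp
  rw [h2, Finset.card_singleton, mul_one]

theorem card_E_succ (x : X) (k : ℕ) :
    Fintype.card X * (E x (k + 1)).card = (Fintype.card X - (k + 1)) * (E x k).card := by
  have h := update_count (E x k) (fun f => f^[k] x)
    (fun f y => y ∉ (Finset.range (k + 1)).image (fun i => f^[i] x)) (E_hS x k) (E_ht x k) ?_
  · have h1 : (E x k).filter (fun f => f (f^[k] x) ∉ (Finset.range (k + 1)).image
        (fun i => f^[i] x)) = E x (k + 1) := by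
      ext f
      rw [mem_filter, mem_E, mem_E]
      have hs : f (f^[k] x) = f^[k + 1] x := (iterate_succ_apply' f k x).symm
      constructor
      · rintro ⟨h2, h3⟩ i hi j hj hij
        rw [hs] at h3
        by_cases hi' : i = k + 1
        · by_cases hj' : j = k + 1
          · omega
          · exfalso
            apply h3
            rw [mem_image]
            exact ⟨j, by rw [mem_range]; omega, by rw [← hij, hi']⟩
        · by_cases hj' : j = k + 1
          · exfalso
            apply h3
            rw [mem_image]
            exact ⟨i, by rw [mem_range]; omega, by rw [hij, hj']⟩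
          · exact h2 i (by omega) j (by omega) hij
      · intro h2
        refine ⟨fun i hi j hj hij => h2 i (by omega) j (by omega) hij, ?_⟩
        rw [hs, mem_image]
        rintro ⟨i, hi, hi'⟩
        rw [mem_range] at hi
        have := h2 i (by omega) (k + 1) le_rfl hi'
        omega
    rw [h1] at h
    rw [h]
    rw [Finset.sum_const_nat (m := Fintype.card X - (k + 1)), mul_comm]
    intro f hf
    rw [mem_E] at hf
    rw [Finset.filter_not, Finset.card_sdiff_of_subset (Finset.filter_subset _ _), Finset.card_univ]
    congr 1
    have h4 : univ.filter (fun y => y ∈ (Finset.range (k + 1)).image (fun i => f^[i] x))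
        = (Finset.range (k + 1)).image (fun i => f^[i] x) := by
      ext y; simp
    rw [h4, Finset.card_image_of_injOn, Finset.card_range]
    intro i hi j hj hij
    simp only [coe_range, Set.mem_Iio] at hi hj
    exact hf i (by omega) j (by omega) hij
  · intro f hf y z
    rw [mem_E] at hf
    have : (Finset.range (k + 1)).image (fun i => (update f (f^[k] x) y)^[i] x)
        = (Finset.range (k + 1)).image (fun i => f^[i] x) := by
      apply Finset.image_congr
      intro i hi
      simp only [coe_range, Set.mem_Iio] at hi
      exact iterate_update x k f hf y i (by omega)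
    rw [this]

/-- a periodic point has some period `k + 1` with `f ∈ E x k` -/
theorem exists_mem_E_of_periodic (x : X) (f : X → X) (h : x ∈ periodicPts f) :
    ∃ k < Fintype.card X, f ∈ E x k ∧ f^[k + 1] x = x := by
  have hpos : 0 < minimalPeriod f x := minimalPeriod_pos_of_mem_periodicPts h
  refine ⟨minimalPeriod f x - 1, ?_, ?_, ?_⟩
  · -- the orbit injects into X
    have hinj : Set.InjOn (fun i => f^[i] x) (Finset.range (minimalPeriod f x) : Set ℕ) := by
      intro i hi j hj hij
      simp only [coe_range, Set.mem_Iio] at hi hj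
      exact (iterate_injOn_Iio_minimalPeriod (f := f) (x := x)) hi hj hij
    have := Finset.card_le_card (Finset.subset_univ ((Finset.range (minimalPeriod f x)).image
      (fun i => f^[i] x)))
    rw [Finset.card_image_of_injOn hinj, Finset.card_range, Finset.card_univ] at this
    omega
  · rw [mem_E]
    intro i hi j hj hij
    exact (iterate_injOn_Iio_minimalPeriod (f := f) (x := x)) (by simp; omega) (by simp; omega) hij
  · rw [Nat.sub_add_cancel hpos]
    exact iterate_minimalPeriod

/-- number of cyclic points -/
noncomputable def cyc (f : X → X) : ℕ := by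
  classical exact (univ.filter (fun x => x ∈ periodicPts f)).card

theorem sum_cyc_le (r : ℕ) (hr : 0 < r) :
    ((∑ f : X → X, cyc f : ℕ) : ℝ)
      ≤ (r + (Fintype.card X : ℝ) / r) * (Fintype.card (X → X) : ℝ) := by
  classical
  rcases isEmpty_or_nonempty X with hX | hX
  · have : ∀ f : X → X, cyc f = 0 := by
      intro f; rw [cyc]; simp
    simp only [this, Finset.sum_const_zero, Nat.cast_zero]
    positivity
  set n := Fintype.card X with hn
  have hn0 : 0 < n := Fintype.card_pos
  have hnR : (0 : ℝ) < n := by exact_mod_cast hn0
  set W : ℝ := (Fintype.card (X → X) : ℝ) with hW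
  have hW0 : 0 ≤ W := by positivity
  -- per point bound
  have key : ∀ x : X, ((univ.filter (fun f : X → X => x ∈ periodicPts f)).card : ℝ)
      ≤ ((r + (n : ℝ) / r) * W) / n := by
    intro x
    have h1 : univ.filter (fun f : X → X => x ∈ periodicPts f)
        ⊆ (Finset.range n).biUnion (fun k => (E x k).filter (fun f => f^[k + 1] x = x)) := by
      intro f hf
      rw [mem_filter] at hf
      obtain ⟨k, hk, h2, h3⟩ := exists_mem_E_of_periodic x f hf.2
      rw [mem_biUnion]
      exact ⟨k, by rw [mem_range]; exact hk, by rw [mem_filter]; exact ⟨h2, h3⟩⟩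
    have h2 : ((univ.filter (fun f : X → X => x ∈ periodicPts f)).card : ℝ)
        ≤ ∑ k ∈ Finset.range n, (((E x k).filter (fun f => f^[k + 1] x = x)).card : ℝ) := by
      exact_mod_cast (Finset.card_le_card h1).trans Finset.card_biUnion_le
    have h3 : ∀ k, (((E x k).filter (fun f => f^[k + 1] x = x)).card : ℝ) = ((E x k).card : ℝ) / n := by
      intro k
      rw [eq_div_iff hnR.ne', mul_comm]
      exact_mod_cast card_period x k
    simp only [h3] at h2
    rw [← Finset.sum_div] at h2
    refine h2.trans ?_
    apply div_le_div_of_nonneg_right _ hnR.le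
    -- bound the sum of the sizes
    have hle : ∀ k, ((E x k).card : ℝ) ≤ W := by
      intro k
      rw [hW]
      exact_mod_cast Finset.card_le_univ _
    have hrR : (0 : ℝ) < r := by exact_mod_cast hr
    have hstep : ∀ k, ((E x (k + 1)).card : ℝ) ≤ (1 - ((k + 1 : ℕ) : ℝ) / n) * (E x k).card
        ∨ n ≤ k := by
      intro k
      rcases le_or_gt n k with h | h
      · right; exact h
      · left
        have h4 := card_E_succ x k
        have h5 : ((n - (k + 1) : ℕ) : ℝ) = n - ((k + 1 : ℕ) : ℝ) := by
          rw [Nat.cast_sub (by omega)]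
        have h6 : (n : ℝ) * ((E x (k + 1)).card : ℝ) = (n - ((k + 1 : ℕ) : ℝ)) * (E x k).card := by
          rw [← h5]; exact_mod_cast h4
        have h7 : ((E x (k + 1)).card : ℝ) = (1 - ((k + 1 : ℕ) : ℝ) / n) * (E x k).card := by
          field_simp
          linarith
        exact h7.le
    -- geometric bound beyond r
    have hgeom : ∀ j, r + j ≤ n → ((E x (r + j)).card : ℝ) ≤ (1 - (r : ℝ) / n) ^ j * W := by
      intro j
      induction j with
      | zero => intro _; simpa using hle r
      | succ j ih =>
        intro hj
        have h8 := ih (by omega)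
        rcases hstep (r + j) with h9 | h9
        · rw [← add_assoc]
          have hr1 : (r : ℝ) / n ≤ 1 := by
            rw [div_le_one hnR]; exact_mod_cast (by omega : r ≤ n)
          have h10 : (1 - ((r + j + 1 : ℕ) : ℝ) / n) ≤ 1 - (r : ℝ) / n := by
            have : (r : ℝ) / n ≤ ((r + j + 1 : ℕ) : ℝ) / n := by
              apply div_le_div_of_nonneg_right _ hnR.le
              exact_mod_cast (by omega : r ≤ r + j + 1)
            linarith
          calc ((E x (r + j + 1)).card : ℝ) ≤ (1 - ((r + j + 1 : ℕ) : ℝ) / n) * (E x (r + j)).card := h9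
            _ ≤ (1 - (r : ℝ) / n) * (E x (r + j)).card :=
                mul_le_mul_of_nonneg_right h10 (by positivity)
            _ ≤ (1 - (r : ℝ) / n) * ((1 - (r : ℝ) / n) ^ j * W) :=
                mul_le_mul_of_nonneg_left h8 (by linarith)
            _ = (1 - (r : ℝ) / n) ^ (j + 1) * W := by ring
        · omega
    rcases le_or_gt n r with hnr | hnr
    · calc ∑ k ∈ Finset.range n, ((E x k).card : ℝ) ≤ ∑ k ∈ Finset.range n, W :=
            Finset.sum_le_sum (fun k _ => hle k)
        _ = n * W := by rw [Finset.sum_const, Finset.card_range, nsmul_eq_mul]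
        _ ≤ (r + (n : ℝ) / r) * W := by
            apply mul_le_mul_of_nonneg_right _ hW0
            have : (n : ℝ) ≤ r := by exact_mod_cast hnr
            have : 0 ≤ (n : ℝ) / r := by positivity
            linarith
    · have hsplit : Finset.range n = Finset.range r ∪ (Finset.range (n - r)).map (addLeftEmbedding r) := by
        ext k
        simp only [mem_union, mem_map, mem_range, addLeftEmbedding_apply]
        constructor
        · intro hk
          rcases lt_or_ge k r with h | h
          · left; exact h
          · right; exact ⟨k - r, by omega, by omega⟩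
        · rintro (h | ⟨j, hj, rfl⟩)
          · omega
          · omega
      have hdisj : Disjoint (Finset.range r) ((Finset.range (n - r)).map (addLeftEmbedding r)) := by
        rw [Finset.disjoint_left]
        intro k hk hk'
        simp only [mem_map, mem_range, addLeftEmbedding_apply] at hk hk'
        obtain ⟨j, _, rfl⟩ := hk'
        omega
      rw [hsplit, Finset.sum_union hdisj, Finset.sum_map, add_mul]
      apply add_le_add
      · calc ∑ k ∈ Finset.range r, ((E x k).card : ℝ) ≤ ∑ k ∈ Finset.range r, W :=
            Finset.sum_le_sum (fun k _ => hle k)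
          _ = r * W := by rw [Finset.sum_const, Finset.card_range, nsmul_eq_mul]
      · have hq0 : 0 ≤ 1 - (r : ℝ) / n := by
          have : (r : ℝ) / n ≤ 1 := by
            rw [div_le_one hnR]; exact_mod_cast hnr.le
          linarith
        have hq1 : 1 - (r : ℝ) / n < 1 := by
          have : 0 < (r : ℝ) / n := by positivity
          linarith
        calc ∑ j ∈ Finset.range (n - r), ((E x (addLeftEmbedding r j)).card : ℝ)
            ≤ ∑ j ∈ Finset.range (n - r), (1 - (r : ℝ) / n) ^ j * W := by
              apply Finset.sum_le_sum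
              intro j hj
              rw [mem_range] at hj
              exact hgeom j (by omega)
          _ = (∑ j ∈ Finset.range (n - r), (1 - (r : ℝ) / n) ^ j) * W := by rw [Finset.sum_mul]
          _ ≤ ((n : ℝ) / r) * W := by
              apply mul_le_mul_of_nonneg_right _ hW0
              have hsum : ∑ j ∈ Finset.range (n - r), (1 - (r : ℝ) / n) ^ j
                  ≤ ∑' j : ℕ, (1 - (r : ℝ) / n) ^ j :=
                (summable_geometric_of_lt_one hq0 hq1).sum_le_tsum _
                  (fun j _ => pow_nonneg hq0 j)
              rw [tsum_geometric_of_lt_one hq0 hq1] at hsum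
              have : (1 - (1 - (r : ℝ) / n))⁻¹ = (n : ℝ) / r := by
                rw [sub_sub_cancel, inv_div]
              rw [this] at hsum
              exact hsum
  -- sum over points
  have hswap : ((∑ f : X → X, cyc f : ℕ) : ℝ)
      = ∑ x : X, ((univ.filter (fun f : X → X => x ∈ periodicPts f)).card : ℝ) := by
    have : (∑ f : X → X, cyc f) = ∑ x : X, (univ.filter (fun f : X → X => x ∈ periodicPts f)).card := by
      simp only [cyc, Finset.card_filter]
      rw [Finset.sum_comm]
    rw [this]; push_cast; rfl
  rw [hswap]
  calc ∑ x : X, ((univ.filter (fun f : X → X => x ∈ periodicPts f)).card : ℝ)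
      ≤ ∑ x : X, ((r + (n : ℝ) / r) * W) / n := Finset.sum_le_sum (fun x _ => key x)
    _ = (r + (n : ℝ) / r) * W := by
      rw [Finset.sum_const, Finset.card_univ, nsmul_eq_mul, ← hn]
      field_simp

/-- at least half of the self-maps have at most `K` cyclic points -/
theorem half_le (r K : ℕ) (hr : 0 < r) (hK : 2 * (r + (Fintype.card X : ℝ) / r) ≤ K) :
    (Fintype.card (X → X) : ℝ) / 2 ≤ ((univ.filter (fun f : X → X => cyc f ≤ K)).card : ℝ) := by
  classical
  have h := sum_cyc_le (X := X) r hr
  have hW0 : (0 : ℝ) ≤ (Fintype.card (X → X) : ℝ) := by positivity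
  set A := univ.filter (fun f : X → X => cyc f ≤ K) with hA
  set B := univ.filter (fun f : X → X => ¬ cyc f ≤ K) with hB
  have hAB : (A.card : ℝ) + B.card = (Fintype.card (X → X) : ℝ) := by
    rw [← Finset.card_univ (α := X → X)]
    exact_mod_cast Finset.card_filter_add_card_filter_not (s := (univ : Finset (X → X))) (fun f => cyc f ≤ K)
  have hBK : ((K : ℝ) + 1) * B.card ≤ ((∑ f : X → X, cyc f : ℕ) : ℝ) := by
    push_cast
    calc ((K : ℝ) + 1) * B.card = ∑ f ∈ B, ((K : ℝ) + 1) := by
          rw [Finset.sum_const, nsmul_eq_mul, mul_comm]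
      _ ≤ ∑ f ∈ B, (cyc f : ℝ) := by
          apply Finset.sum_le_sum
          intro f hf
          rw [hB, mem_filter] at hf
          have : K + 1 ≤ cyc f := by omega
          exact_mod_cast this
      _ ≤ ∑ f : X → X, (cyc f : ℝ) :=
          Finset.sum_le_sum_of_subset_of_nonneg (subset_univ _) (fun _ _ _ => by positivity)
  have hK0 : (0 : ℝ) ≤ K := by positivity
  have h1 : ((K : ℝ) + 1) * B.card ≤ (K / 2) * (Fintype.card (X → X) : ℝ) := by
    refine hBK.trans (h.trans ?_)
    apply mul_le_mul_of_nonneg_right _ hW0
    linarith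
  have h2 : (B.card : ℝ) ≤ (Fintype.card (X → X) : ℝ) / 2 := by
    by_contra hcon
    push Not at hcon
    have : ((K : ℝ) + 1) * ((Fintype.card (X → X) : ℝ) / 2) < ((K : ℝ) + 1) * B.card :=
      mul_lt_mul_of_pos_left hcon (by linarith)
    nlinarith
  linarith

end updates

end Pool.Agent.Helper38.Dml
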