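import Mathlib
import Pool.Agent.Helper38.Dml.RandomMap

/-!
# Counting matrices sending a projective point to a given one; the product measure
-/

set_option autoImplicit false

open Finset Function
open scoped LinearAlgebra.Projectivization

namespace Pool.Agent.Helper38.Dml

/-- Fibres of a surjective additive map between finite groups have the same size. -/
theorem card_filter_comp {G H : Type*} [AddGroup G] [AddGroup H] [Fintype G] [Fintype H]
    [DecidableEq H] (f : G →+ H) (hf : Function.Surjective f) (Q : H → Prop) [DecidablePred Q] :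
    (univ.filter (fun g => Q (f g))).card * Fintype.card H
      = (univ.filter (fun h => Q h)).card * Fintype.card G := by
  classical
  have hfib : ∀ h : H, (univ.filter (fun g => f g = h)).card = (univ.filter (fun g => f g = 0)).card :=
    fun h => AddMonoidHom.card_fiber_eq_of_mem_range f (hf h) (hf 0)
  have h1 : ∀ P : H → Prop, [DecidablePred P] → (univ.filter (fun g => P (f g))).card
      = (univ.filter (fun h => P h)).card * (univ.filter (fun g => f g = 0)).card := by
    intro P _
    rw [Finset.card_eq_sum_card_fiberwise (f := f) (t := univ.filter (fun h => P h))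
      (by intro g hg; simpa using hg)]
    rw [Finset.sum_const_nat (m := (univ.filter (fun g => f g = 0)).card)]
    intro h hh
    rw [← hfib h]
    congr 1
    ext g
    simp only [mem_filter, mem_univ, true_and] at hh ⊢
    constructor
    · rintro ⟨_, h2⟩; exact h2
    · intro h2; exact ⟨by rw [h2]; exact hh, h2⟩
  have h2 := h1 (fun _ => True)
  simp only [Finset.filter_true, Finset.card_univ] at h2
  rw [h1 Q, h2]
  ring

section mat

variable {k : Type*} [Field k] [Fintype k] [DecidableEq k] {m : ℕ}

/-- the matrix `A` sends the projective point `x` to the projective point `y` -/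
def Hits (A : Matrix (Fin m) (Fin m) k) (x y : ℙ k (Fin m → k)) : Prop :=
  ∃ h : A.mulVec x.rep ≠ 0, Projectivization.mk k (A.mulVec x.rep) h = y

omit [Fintype k] [DecidableEq k] in
theorem Hits.unique {A : Matrix (Fin m) (Fin m) k} {x y y' : ℙ k (Fin m → k)}
    (h : Hits A x y) (h' : Hits A x y') : y = y' := by
  obtain ⟨_, rfl⟩ := h
  obtain ⟨_, rfl⟩ := h'
  rfl

omit [Fintype k] in
theorem Hits.smul {A : Matrix (Fin m) (Fin m) k} {x y : ℙ k (Fin m → k)}
    (h : Hits A x y) (g : Matrix.SpecialLinearGroup (Fin m) k) :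
    Hits ((g : Matrix (Fin m) (Fin m) k) * A) x (g • y) := by
  obtain ⟨h1, rfl⟩ := h
  have h2 : ((g : Matrix (Fin m) (Fin m) k) * A).mulVec x.rep = g • (A.mulVec x.rep) := by
    rw [← Matrix.mulVec_mulVec]; rfl
  refine ⟨?_, ?_⟩
  · rw [h2]
    exact (smul_ne_zero_iff_ne g).mpr h1
  · rw [Projectivization.smul_mk]
    congr 1

open Classical in
/-- The number of matrices in an `SL`-stable set sending `x` to `y` does not depend on `y`. -/
theorem card_hits_eq (S : Set (Matrix (Fin m) (Fin m) k))
    (hS : ∀ A ∈ S, ∀ g : Matrix.SpecialLinearGroup (Fin m) k,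
      (g : Matrix (Fin m) (Fin m) k) * A ∈ S) (x y y' : ℙ k (Fin m → k)) :
    (univ.filter (fun A : Matrix (Fin m) (Fin m) k => A ∈ S ∧ Hits A x y)).card
      = (univ.filter (fun A : Matrix (Fin m) (Fin m) k => A ∈ S ∧ Hits A x y')).card := by
  have htr : MulAction.IsPretransitive (Matrix.SpecialLinearGroup (Fin m) k) (ℙ k (Fin m → k)) :=
    MulAction.isPretransitive_of_is_two_pretransitive
  obtain ⟨g, hg⟩ := MulAction.exists_smul_eq (Matrix.SpecialLinearGroup (Fin m) k) y y'
  refine Finset.card_nbij' (fun A => (g : Matrix (Fin m) (Fin m) k) * A)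
    (fun A => ((g⁻¹ : Matrix.SpecialLinearGroup (Fin m) k) : Matrix (Fin m) (Fin m) k) * A)
    ?_ ?_ ?_ ?_
  · intro A hA
    simp only [coe_filter, mem_univ, true_and, Set.mem_ofPred_eq] at hA ⊢
    refine ⟨hS A hA.1 g, ?_⟩
    rw [← hg]
    exact hA.2.smul g
  · intro A hA
    simp only [coe_filter, mem_univ, true_and, Set.mem_ofPred_eq] at hA ⊢
    refine ⟨hS A hA.1 g⁻¹, ?_⟩
    have := hA.2.smul g⁻¹
    rw [← hg, inv_smul_smul] at this
    exact this
  · intro A _
    simp only
    rw [← Matrix.mul_assoc, ← Matrix.SpecialLinearGroup.coe_mul, inv_mul_cancel,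
      Matrix.SpecialLinearGroup.coe_one, Matrix.one_mul]
  · intro A _
    simp only
    rw [← Matrix.mul_assoc, ← Matrix.SpecialLinearGroup.coe_mul, mul_inv_cancel,
      Matrix.SpecialLinearGroup.coe_one, Matrix.one_mul]

open Classical in
theorem card_hits_mul [Fintype (ℙ k (Fin m → k))] (S : Set (Matrix (Fin m) (Fin m) k))
    (hS : ∀ A ∈ S, ∀ g : Matrix.SpecialLinearGroup (Fin m) k,
      (g : Matrix (Fin m) (Fin m) k) * A ∈ S) (x y : ℙ k (Fin m → k)) :
    Fintype.card (ℙ k (Fin m → k))
        * (univ.filter (fun A : Matrix (Fin m) (Fin m) k => A ∈ S ∧ Hits A x y)).card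
      = (univ.filter (fun A : Matrix (Fin m) (Fin m) k => A ∈ S ∧ A.mulVec x.rep ≠ 0)).card := by
  have h1 : univ.filter (fun A : Matrix (Fin m) (Fin m) k => A ∈ S ∧ A.mulVec x.rep ≠ 0)
      = (univ : Finset (ℙ k (Fin m → k))).biUnion (fun z =>
        univ.filter (fun A : Matrix (Fin m) (Fin m) k => A ∈ S ∧ Hits A x z)) := by
    ext A
    simp only [mem_filter, mem_univ, true_and, mem_biUnion]
    constructor
    · rintro ⟨h2, h3⟩
      exact ⟨_, h2, h3, rfl⟩
    · rintro ⟨z, h2, h3, _⟩
      exact ⟨h2, h3⟩
  rw [h1, Finset.card_biUnion]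
  · rw [Finset.sum_const_nat (m := (univ.filter (fun A : Matrix (Fin m) (Fin m) k =>
      A ∈ S ∧ Hits A x y)).card) (fun z _ => card_hits_eq S hS x z y), Finset.card_univ]
  · intro z _ z' _ hne
    change Disjoint (univ.filter (fun A : Matrix (Fin m) (Fin m) k => A ∈ S ∧ Hits A x z))
      (univ.filter (fun A : Matrix (Fin m) (Fin m) k => A ∈ S ∧ Hits A x z'))
    rw [Finset.disjoint_left]
    intro A hA hA'
    simp only [mem_filter, mem_univ, true_and] at hA hA'
    exact hne (hA.2.unique hA'.2)

/-- number of matrices not killing a given nonzero vector -/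
theorem card_mulVec_ne_zero {v : Fin m → k} (hv : v ≠ 0) :
    (univ.filter (fun A : Matrix (Fin m) (Fin m) k => A.mulVec v ≠ 0)).card * Fintype.card k ^ m
      = (Fintype.card k ^ m - 1) * Fintype.card k ^ (m * m) := by
  classical
  let f : Matrix (Fin m) (Fin m) k →+ (Fin m → k) :=
    { toFun := fun A => A.mulVec v
      map_zero' := by simp
      map_add' := fun A B => Matrix.add_mulVec A B v }
  have hf : Function.Surjective f := by
    obtain ⟨j, hj⟩ : ∃ j, v j ≠ 0 := by
      by_contra h; push Not at h; exact hv (funext h)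
    intro w
    refine ⟨Matrix.of (fun i l => if l = j then w i * (v j)⁻¹ else 0), ?_⟩
    change Matrix.mulVec _ v = w
    funext i
    simp [Matrix.mulVec, dotProduct, hj]
  have h := card_filter_comp f hf (fun w => w ≠ 0)
  have h1 : Fintype.card (Fin m → k) = Fintype.card k ^ m := by simp
  have h2 : Fintype.card (Matrix (Fin m) (Fin m) k) = Fintype.card k ^ (m * m) := by
    rw [Fintype.card_congr (Matrix.of (m := Fin m) (n := Fin m) (α := k)).symm]
    simp [pow_mul]
  have h3 : (univ.filter (fun w : Fin m → k => w ≠ 0)).card = Fintype.card k ^ m - 1 := by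
    rw [Finset.filter_ne' univ (0 : Fin m → k), Finset.card_erase_of_mem (mem_univ _),
      Finset.card_univ, h1]
  rw [h1, h2, h3] at h
  exact h

theorem card_det_ne_zero :
    (univ.filter (fun A : Matrix (Fin m) (Fin m) k => A.det ≠ 0)).card
      = ∏ i : Fin m, (Fintype.card k ^ m - Fintype.card k ^ (i : ℕ)) := by
  classical
  rw [← Matrix.card_GL_field, ← Fintype.card_subtype, Nat.card_eq_fintype_card]
  refine Fintype.card_congr ?_
  exact
    { toFun := fun A => Matrix.GeneralLinearGroup.mkOfDetNeZero A.1 A.2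
      invFun := fun g => ⟨g.1, by
        have := (Matrix.isUnit_iff_isUnit_det _).1 g.isUnit
        exact this.ne_zero⟩
      left_inv := fun A => rfl
      right_inv := fun g => Units.ext rfl }

end mat

end Pool.Agent.Helper38.Dml
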