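import Mathlib
import Pool.Agent.Helper38.Dml.MatCount

/-!
# Random families of matrices indexed by the points of projective space
-/

set_option autoImplicit false

open Finset Function
open scoped LinearAlgebra.Projectivization

namespace Pool.Agent.Helper38.Dml

section product

variable {k : Type*} [Field k] [Fintype k] [DecidableEq k] {m : ℕ}

open Classical in
/-- The self-map of projective space defined by a family of matrices (one for each point);
it takes a junk value at points killed by their matrix. -/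
noncomputable def phi (A : ℙ k (Fin m → k) → Matrix (Fin m) (Fin m) k) (x : ℙ k (Fin m → k)) :
    ℙ k (Fin m → k) :=
  if h : (A x).mulVec x.rep ≠ 0 then Projectivization.mk k ((A x).mulVec x.rep) h else x

/-- The good event: no point is killed and the matrices at the periodic points are invertible. -/
def Ev (A : ℙ k (Fin m → k) → Matrix (Fin m) (Fin m) k) : Prop :=
  ∀ x, (A x).mulVec x.rep ≠ 0 ∧ (x ∈ periodicPts (phi A) → (A x).det ≠ 0)

variable [Fintype (ℙ k (Fin m → k))]

open Classical in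
theorem card_hits_real (x y : ℙ k (Fin m → k)) :
    ((univ.filter (fun A : Matrix (Fin m) (Fin m) k => Hits A x y)).card : ℝ)
      = ((Fintype.card k : ℝ) ^ m - 1) * (Fintype.card k : ℝ) ^ (m * m) / (Fintype.card k : ℝ) ^ m
        / (Fintype.card (ℙ k (Fin m → k)) : ℝ) := by
  have h1 := card_hits_mul (k := k) (m := m) Set.univ (fun _ _ _ => Set.mem_univ _) x y
  have h2 := card_mulVec_ne_zero (k := k) (m := m) (v := x.rep) x.rep_nonzero
  simp only [Set.mem_univ, true_and] at h1
  have hn : (0 : ℝ) < (Fintype.card (ℙ k (Fin m → k)) : ℝ) := by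
    exact_mod_cast Fintype.card_pos_iff.2 ⟨x⟩
  have hq : (0 : ℝ) < (Fintype.card k : ℝ) := by exact_mod_cast Fintype.card_pos
  have h3 : 1 ≤ Fintype.card k ^ m := Nat.one_le_pow _ _ Fintype.card_pos
  rw [eq_div_iff hn.ne', eq_div_iff (by positivity)]
  have h4 : ((Fintype.card k ^ m - 1 : ℕ) : ℝ) = (Fintype.card k : ℝ) ^ m - 1 := by
    rw [Nat.cast_sub h3]; push_cast; rfl
  rw [← h4]
  have h5 : ((univ.filter (fun A : Matrix (Fin m) (Fin m) k => Hits A x y)).card
      * Fintype.card (ℙ k (Fin m → k))) * Fintype.card k ^ m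
      = (Fintype.card k ^ m - 1) * Fintype.card k ^ (m * m) := by
    rw [← h2, ← h1]; ring
  exact_mod_cast h5

open Classical in
theorem card_hits_det_real (x y : ℙ k (Fin m → k)) :
    ((univ.filter (fun A : Matrix (Fin m) (Fin m) k => A.det ≠ 0 ∧ Hits A x y)).card : ℝ)
      = ((∏ i : Fin m, (Fintype.card k ^ m - Fintype.card k ^ (i : ℕ)) : ℕ) : ℝ)
        / (Fintype.card (ℙ k (Fin m → k)) : ℝ) := by
  have h1 := card_hits_mul (k := k) (m := m) {A | A.det ≠ 0}
    (fun A hA g => by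
      simp only [Set.mem_ofPred_eq, Matrix.det_mul, Matrix.SpecialLinearGroup.det_coe, one_mul] at hA ⊢
      exact hA) x y
  have h2 := card_det_ne_zero (k := k) (m := m)
  have h3 : ∀ A : Matrix (Fin m) (Fin m) k, A.det ≠ 0 → A.mulVec x.rep ≠ 0 := by
    intro A h h0
    exact x.rep_nonzero (Matrix.eq_zero_of_mulVec_eq_zero h h0)
  have hn : (0 : ℝ) < (Fintype.card (ℙ k (Fin m → k)) : ℝ) := by
    exact_mod_cast Fintype.card_pos_iff.2 ⟨x⟩
  have h4 : Fintype.card (ℙ k (Fin m → k))
      * (univ.filter (fun A : Matrix (Fin m) (Fin m) k => A.det ≠ 0 ∧ Hits A x y)).card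
      = ∏ i : Fin m, (Fintype.card k ^ m - Fintype.card k ^ (i : ℕ)) := by
    rw [← h2]
    calc _ = _ := by congr!
      _ = _ := h1
      _ = _ := by
        congr 1
        ext A
        simp only [mem_filter, mem_univ, true_and, Set.mem_ofPred_eq]
        exact ⟨fun h => h.1, fun h => ⟨h, h3 A h⟩⟩
  rw [eq_div_iff hn.ne', mul_comm]
  exact_mod_cast h4

/-- the probability that a matrix not killing a vector is invertible -/
noncomputable def sProb (q m : ℕ) : ℝ :=
  ((∏ i : Fin m, (q ^ m - q ^ (i : ℕ)) : ℕ) : ℝ) * (q : ℝ) ^ m / (((q : ℝ) ^ m - 1) * (q : ℝ) ^ (m * m))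

open Classical in
theorem card_Ev_ge_of (hm : 0 < m) (K : ℕ) (β : ℝ)
    (hβ : β * (Fintype.card (ℙ k (Fin m → k) → ℙ k (Fin m → k)) : ℝ)
      ≤ ((univ.filter (fun f : ℙ k (Fin m → k) → ℙ k (Fin m → k) => cyc f ≤ K)).card : ℝ)) :
    β * (1 - 1 / (Fintype.card k : ℝ) ^ m) ^ (Fintype.card (ℙ k (Fin m → k)))
      * (min 1 (sProb (Fintype.card k) m)) ^ K
      * (Fintype.card (ℙ k (Fin m → k) → Matrix (Fin m) (Fin m) k) : ℝ)
      ≤ ((univ.filter (fun A : ℙ k (Fin m → k) → Matrix (Fin m) (Fin m) k => Ev A)).card : ℝ) := by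
  set q := Fintype.card k with hq
  set n := Fintype.card (ℙ k (Fin m → k)) with hn
  have hq0 : (0 : ℝ) < q := by rw [hq]; exact_mod_cast Fintype.card_pos
  have hq1 : (1 : ℝ) < q := by rw [hq]; exact_mod_cast Fintype.one_lt_card
  have hqm : (1 : ℝ) < (q : ℝ) ^ m := one_lt_pow₀ hq1 hm.ne'
  set t : ℝ := ((q : ℝ) ^ m - 1) * (q : ℝ) ^ (m * m) / (q : ℝ) ^ m / (n : ℝ) with ht
  set g : ℝ := ((∏ i : Fin m, (q ^ m - q ^ (i : ℕ)) : ℕ) : ℝ) / (n : ℝ) with hg
  set s := sProb q m with hs
  have hX : Nonempty (ℙ k (Fin m → k)) := by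
    refine ⟨Projectivization.mk k (fun _ => 1) ?_⟩
    intro h
    have := congrFun h ⟨0, hm⟩
    simp at this
  have hn0 : (0 : ℝ) < n := by rw [hn]; exact_mod_cast Fintype.card_pos
  have ht0 : 0 < t := by
    rw [ht]
    have : (0 : ℝ) < (q : ℝ) ^ m - 1 := by linarith
    positivity
  have hg0 : 0 ≤ g := by rw [hg]; positivity
  have hgs : g = s * t := by
    rw [hg, hs, ht, sProb]
    have : (0 : ℝ) < (q : ℝ) ^ m - 1 := by linarith
    field_simp
  have hs0 : 0 ≤ s := by
    rw [hs, sProb]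
    have : (0 : ℝ) < (q : ℝ) ^ m - 1 := by linarith
    positivity
  -- the boxes
  let B : (ℙ k (Fin m → k) → ℙ k (Fin m → k)) → ℙ k (Fin m → k) →
      Finset (Matrix (Fin m) (Fin m) k) := fun f x =>
    if x ∈ periodicPts f then univ.filter (fun A : Matrix (Fin m) (Fin m) k => A.det ≠ 0 ∧ Hits A x (f x))
    else univ.filter (fun A : Matrix (Fin m) (Fin m) k => Hits A x (f x))
  have hBhits : ∀ f x A, A ∈ B f x → Hits A x (f x) := by
    intro f x A hA
    simp only [B] at hA
    split_ifs at hA with h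
    · exact (mem_filter.1 hA).2.2
    · exact (mem_filter.1 hA).2
  have hBcard : ∀ f x, ((B f x).card : ℝ) = if x ∈ periodicPts f then g else t := by
    intro f x
    simp only [B]
    split_ifs with h
    · exact card_hits_det_real x (f x)
    · exact card_hits_real x (f x)
  have hphi : ∀ f A, (∀ x, A x ∈ B f x) → phi A = f := by
    intro f A hA
    funext x
    obtain ⟨h1, h2⟩ := hBhits f x (A x) (hA x)
    rw [phi, dif_pos h1, h2]
  have hsub : (univ.filter (fun f : ℙ k (Fin m → k) → ℙ k (Fin m → k) => cyc f ≤ K)).biUnion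
      (fun f => Fintype.piFinset (B f))
      ⊆ univ.filter (fun A : ℙ k (Fin m → k) → Matrix (Fin m) (Fin m) k => Ev A) := by
    intro A hA
    rw [mem_biUnion] at hA
    obtain ⟨f, _, hA⟩ := hA
    rw [Fintype.mem_piFinset] at hA
    rw [mem_filter]
    refine ⟨mem_univ _, fun x => ⟨(hBhits f x (A x) (hA x)).1, fun hx => ?_⟩⟩
    rw [hphi f A hA] at hx
    have := hA x
    simp only [B, if_pos hx] at this
    exact (mem_filter.1 this).2.1
  have hle := Finset.card_le_card hsub
  rw [Finset.card_biUnion] at hle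
  swap
  · intro f _ f' _ hne
    change Disjoint (Fintype.piFinset (B f)) (Fintype.piFinset (B f'))
    rw [Finset.disjoint_left]
    intro A hA hA'
    rw [Fintype.mem_piFinset] at hA hA'
    exact hne ((hphi f A hA).symm.trans (hphi f' A hA'))
  have hle' : ∑ f ∈ univ.filter (fun f : ℙ k (Fin m → k) → ℙ k (Fin m → k) => cyc f ≤ K),
      ((Fintype.piFinset (B f)).card : ℝ)
      ≤ ((univ.filter (fun A : ℙ k (Fin m → k) → Matrix (Fin m) (Fin m) k => Ev A)).card : ℝ) := by
    exact_mod_cast hle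
  refine le_trans ?_ hle'
  have hterm : ∀ f ∈ univ.filter (fun f : ℙ k (Fin m → k) → ℙ k (Fin m → k) => cyc f ≤ K),
      t ^ n * (min 1 s) ^ K ≤ ((Fintype.piFinset (B f)).card : ℝ) := by
    intro f hf
    rw [mem_filter] at hf
    rw [Fintype.card_piFinset]
    push_cast
    simp only [hBcard]
    rw [Finset.prod_ite, Finset.prod_const, Finset.prod_const]
    have h1 : (univ.filter (fun x => x ∈ periodicPts f)).card = cyc f := rfl
    have h2 : (univ.filter (fun x => x ∈ periodicPts f)).card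
        + (univ.filter (fun x => ¬ x ∈ periodicPts f)).card = n := by
      rw [Finset.card_filter_add_card_filter_not, Finset.card_univ]
    rw [h1] at h2 ⊢
    set c' := (univ.filter (fun x => ¬ x ∈ periodicPts f)).card
    rw [hgs, mul_pow, mul_assoc, ← pow_add, h2, mul_comm]
    apply mul_le_mul_of_nonneg_right _ (by positivity)
    calc (min 1 s) ^ K ≤ (min 1 s) ^ (cyc f) :=
          pow_le_pow_of_le_one (le_min zero_le_one hs0) (min_le_left _ _) hf.2
      _ ≤ s ^ (cyc f) := pow_le_pow_left₀ (le_min zero_le_one hs0) (min_le_right _ _) _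
  refine le_trans ?_ (Finset.sum_le_sum hterm)
  rw [Finset.sum_const, nsmul_eq_mul]
  have hhalf := hβ
  have hcardX : (Fintype.card (ℙ k (Fin m → k) → ℙ k (Fin m → k)) : ℝ) = (n : ℝ) ^ n := by
    rw [Fintype.card_fun]; push_cast; rfl
  have hcardM : (Fintype.card (ℙ k (Fin m → k) → Matrix (Fin m) (Fin m) k) : ℝ)
      = ((q : ℝ) ^ (m * m)) ^ n := by
    rw [Fintype.card_fun]
    have : Fintype.card (Matrix (Fin m) (Fin m) k) = q ^ (m * m) := by
      rw [Fintype.card_congr (Matrix.of (m := Fin m) (n := Fin m) (α := k)).symm]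
      simp [pow_mul, hq]
    rw [this]; push_cast; rfl
  rw [hcardX] at hhalf
  rw [hcardM]
  have hmin0 : 0 ≤ (min 1 s) ^ K := pow_nonneg (le_min zero_le_one hs0) _
  calc β * (1 - 1 / (q : ℝ) ^ m) ^ n * (min 1 s) ^ K * ((q : ℝ) ^ (m * m)) ^ n
      = (β * (n : ℝ) ^ n) * (t ^ n * (min 1 s) ^ K) := by
        have : t * n = (1 - 1 / (q : ℝ) ^ m) * (q : ℝ) ^ (m * m) := by
          rw [ht]; field_simp
        have h2 : t ^ n * (n : ℝ) ^ n = (1 - 1 / (q : ℝ) ^ m) ^ n * ((q : ℝ) ^ (m * m)) ^ n := by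
          rw [← mul_pow, this, mul_pow]
        calc β * (1 - 1 / (q : ℝ) ^ m) ^ n * (min 1 s) ^ K * ((q : ℝ) ^ (m * m)) ^ n
            = β * ((1 - 1 / (q : ℝ) ^ m) ^ n * ((q : ℝ) ^ (m * m)) ^ n) * (min 1 s) ^ K := by ring
          _ = β * (t ^ n * (n : ℝ) ^ n) * (min 1 s) ^ K := by rw [h2]
          _ = _ := by ring
    _ ≤ ((univ.filter (fun f : ℙ k (Fin m → k) → ℙ k (Fin m → k) => cyc f ≤ K)).card : ℝ)
        * (t ^ n * (min 1 s) ^ K) := by
        apply mul_le_mul_of_nonneg_right hhalf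
        positivity

open Classical in
theorem card_Ev_ge (hm : 0 < m) (r K : ℕ) (hr : 0 < r)
    (hK : 2 * (r + (Fintype.card (ℙ k (Fin m → k)) : ℝ) / r) ≤ K) :
    (1 / 2 : ℝ) * (1 - 1 / (Fintype.card k : ℝ) ^ m) ^ (Fintype.card (ℙ k (Fin m → k)))
      * (min 1 (sProb (Fintype.card k) m)) ^ K
      * (Fintype.card (ℙ k (Fin m → k) → Matrix (Fin m) (Fin m) k) : ℝ)
      ≤ ((univ.filter (fun A : ℙ k (Fin m → k) → Matrix (Fin m) (Fin m) k => Ev A)).card : ℝ) := by
  apply card_Ev_ge_of hm K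
  have h := half_le (X := ℙ k (Fin m → k)) r K hr hK
  linarith

end product

end Pool.Agent.Helper38.Dml
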