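import Mathlib
import Pool.Agent.Helper38.Dml.Product

/-!
# The probability of the good event in the plane is bounded below
-/

set_option autoImplicit false

open Finset Function
open scoped LinearAlgebra.Projectivization

namespace Pool.Agent.Helper38.Dml

theorem sProb_three (q : ℕ) (hq : 2 ≤ q) :
    sProb q 3 = (1 - 1 / (q : ℝ) ^ 2) * (1 - 1 / (q : ℝ)) := by
  have hq0 : (0 : ℝ) < q := by exact_mod_cast (by omega : 0 < q)
  have hq1 : (1 : ℝ) < q := by exact_mod_cast hq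
  have hq3 : (0 : ℝ) < (q : ℝ) ^ 3 - 1 := by
    have : (1 : ℝ) < (q : ℝ) ^ 3 := one_lt_pow₀ hq1 (by norm_num)
    linarith
  rw [sProb]
  have h1 : ((∏ i : Fin 3, (q ^ 3 - q ^ (i : ℕ)) : ℕ) : ℝ)
      = ((q : ℝ) ^ 3 - 1) * ((q : ℝ) ^ 3 - q) * ((q : ℝ) ^ 3 - (q : ℝ) ^ 2) := by
    rw [Fin.prod_univ_three]
    have a0 : q ^ ((0 : Fin 3) : ℕ) ≤ q ^ 3 := Nat.pow_le_pow_right (by omega) (by simp)
    have a1 : q ^ ((1 : Fin 3) : ℕ) ≤ q ^ 3 := Nat.pow_le_pow_right (by omega) (by simp)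
    have a2 : q ^ ((2 : Fin 3) : ℕ) ≤ q ^ 3 := Nat.pow_le_pow_right (by omega) (by simp)
    rw [Nat.cast_mul, Nat.cast_mul, Nat.cast_sub a0, Nat.cast_sub a1, Nat.cast_sub a2]
    simp
  rw [h1]
  field_simp
  try ring

theorem const_bound (q : ℕ) (hq : 2 ≤ q) :
    Real.exp (-24) / 16 ≤ (1 / 2 : ℝ) * (1 - 1 / (q : ℝ) ^ 3) ^ (q ^ 2 + q + 1)
      * (min 1 (sProb q 3)) ^ (4 * q + 4) := by
  have hq1 : (1 : ℝ) < q := by exact_mod_cast hq
  have hq2 : (2 : ℝ) ≤ q := by exact_mod_cast hq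
  have hq0 : (0 : ℝ) < q := by linarith
  -- first factor
  have h1 : (1 / 8 : ℝ) ≤ (1 - 1 / (q : ℝ) ^ 3) ^ (q ^ 2 + q + 1) := by
    have hb := one_add_mul_le_pow (a := -(1 / (q : ℝ) ^ 3)) (by
      have : 1 / (q : ℝ) ^ 3 ≤ 1 := by
        rw [div_le_one (by positivity)]
        exact one_le_pow₀ hq1.le
      linarith) (q ^ 2 + q + 1)
    rw [← sub_eq_add_neg] at hb
    refine le_trans ?_ hb
    push_cast
    have h2 : ((q : ℝ) ^ 2 + q + 1) * (1 / (q : ℝ) ^ 3) ≤ 7 / 8 := by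
      rw [mul_one_div, div_le_iff₀ (by positivity)]
      nlinarith [sq_nonneg ((q : ℝ) - 2), mul_nonneg (mul_nonneg hq0.le hq0.le) (by linarith : (0 : ℝ) ≤ q - 2),
        mul_nonneg hq0.le (by linarith : (0 : ℝ) ≤ q - 2)]
    linarith
  -- second factor
  have hs := sProb_three q hq
  set u : ℝ := 1 - 1 / (q : ℝ) with hu
  have hu0 : 0 < u := by
    rw [hu]
    have : 1 / (q : ℝ) < 1 := by rw [div_lt_one hq0]; exact hq1
    linarith
  have hu1 : u ≤ 1 := by
    rw [hu]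
    have : 0 < 1 / (q : ℝ) := by positivity
    linarith
  have hus : u ^ 2 ≤ sProb q 3 := by
    rw [hs, sq]
    apply mul_le_mul_of_nonneg_right _ hu0.le
    rw [hu]
    have : 1 / (q : ℝ) ^ 2 ≤ 1 / (q : ℝ) := by
      apply one_div_le_one_div_of_le hq0
      nlinarith
    linarith
  have hmin : u ^ 2 ≤ min 1 (sProb q 3) := le_min (pow_le_one₀ hu0.le hu1) hus
  have hexp : Real.exp (-(1 / ((q : ℝ) - 1))) ≤ u := by
    have h3 := Real.add_one_le_exp (1 / ((q : ℝ) - 1))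
    have h4 : u = (1 / ((q : ℝ) - 1) + 1)⁻¹ := by
      rw [hu]
      have h41 : (q : ℝ) - 1 ≠ 0 := by linarith
      have h42 : 1 / ((q : ℝ) - 1) + 1 = q / (q - 1) := by
        rw [eq_div_iff h41, add_mul, div_mul_cancel₀ _ h41]
        ring
      rw [h42, inv_div, sub_div, div_self hq0.ne']
    rw [h4, Real.exp_neg]
    apply inv_anti₀ _ h3
    have : 0 < 1 / ((q : ℝ) - 1) := by
      apply div_pos one_pos; linarith
    linarith
  have h5 : Real.exp (-24) ≤ (min 1 (sProb q 3)) ^ (4 * q + 4) := by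
    calc Real.exp (-24) ≤ Real.exp ((2 * (4 * q + 4) : ℕ) * (-(1 / ((q : ℝ) - 1)))) := by
          apply Real.exp_le_exp.2
          have h6 : ((2 * (4 * q + 4) : ℕ) : ℝ) * (1 / ((q : ℝ) - 1)) ≤ 24 := by
            push_cast
            rw [mul_one_div, div_le_iff₀ (by linarith)]
            linarith
          linarith
      _ = (Real.exp (-(1 / ((q : ℝ) - 1)))) ^ (2 * (4 * q + 4)) := by
          rw [← Real.exp_nat_mul]
      _ ≤ u ^ (2 * (4 * q + 4)) := pow_le_pow_left₀ (Real.exp_pos _).le hexp _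
      _ = (u ^ 2) ^ (4 * q + 4) := by rw [pow_mul]
      _ ≤ _ := pow_le_pow_left₀ (by positivity) hmin _
  calc Real.exp (-24) / 16 = (1 / 2) * (1 / 8) * Real.exp (-24) := by ring
    _ ≤ (1 / 2 : ℝ) * (1 - 1 / (q : ℝ) ^ 3) ^ (q ^ 2 + q + 1)
      * (min 1 (sProb q 3)) ^ (4 * q + 4) := by
        apply mul_le_mul _ h5 (Real.exp_pos _).le
        · have : (0 : ℝ) ≤ (1 - 1 / (q : ℝ) ^ 3) ^ (q ^ 2 + q + 1) := by linarith
          positivity
        · apply mul_le_mul_of_nonneg_left h1 (by norm_num)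

open Classical in
/-- **The good event has probability bounded below by an absolute constant in the plane.** -/
theorem card_Ev_plane {k : Type*} [Field k] [Fintype k]
    [Fintype (ℙ k (Fin 3 → k))] :
    Real.exp (-24) / 16 * (Fintype.card (ℙ k (Fin 3 → k) → Matrix (Fin 3) (Fin 3) k) : ℝ)
      ≤ ((univ.filter (fun A : ℙ k (Fin 3 → k) → Matrix (Fin 3) (Fin 3) k => Ev A)).card : ℝ) := by
  have hq : 2 ≤ Fintype.card k := Fintype.one_lt_card
  set q := Fintype.card k with hqdef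
  have hn : Fintype.card (ℙ k (Fin 3 → k)) = q ^ 2 + q + 1 := by
    have h := Projectivization.card_of_finrank k (Fin 3 → k) (n := 3) (by simp)
    rw [Nat.card_eq_fintype_card, Nat.card_eq_fintype_card, ← hqdef] at h
    rw [h]
    simp [Finset.sum_range_succ]
    ring
  have hq0 : (0 : ℝ) < q := by exact_mod_cast (by omega : 0 < q)
  have h := card_Ev_ge (k := k) (m := 3) (by norm_num) (q + 1) (4 * q + 4) (by omega) (by
    rw [hn]
    push_cast
    have : ((q : ℝ) ^ 2 + q + 1) / (q + 1) ≤ q + 1 := by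
      rw [div_le_iff₀ (by positivity)]
      nlinarith
    linarith)
  rw [hn, ← hqdef] at h
  refine le_trans ?_ (h.trans (le_of_eq ?_))
  · apply mul_le_mul_of_nonneg_right (const_bound q hq) (by positivity)
  · congr!

end Pool.Agent.Helper38.Dml
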