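import Mathlib

/-!
# Forms of degree `d` in `m` variables, parametrised by their coefficients
-/

set_option autoImplicit false

open Finset MvPolynomial

namespace Pool.Agent.Helper38.Dml

/-- exponents of the monomials of degree `d` in `m` variables -/
abbrev Mon (m d : ℕ) := {e // e ∈ Finset.finsuppAntidiag (Finset.univ : Finset (Fin m)) d}

/-- the form of degree `d` with coefficients `c` -/
noncomputable def frm {R : Type*} [CommSemiring R] {m d : ℕ} (c : Mon m d → R) :
    MvPolynomial (Fin m) R := ∑ e, MvPolynomial.monomial e.1 (c e)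

variable {R : Type*} [CommSemiring R] {m d : ℕ}

theorem frm_isHomogeneous (c : Mon m d → R) : (frm c).IsHomogeneous d := by
  apply IsHomogeneous.sum
  intro e _
  apply isHomogeneous_monomial
  have := (mem_finsuppAntidiag.1 e.2).1
  rw [Finsupp.degree_eq_sum]
  exact this

theorem coeff_frm (c : Mon m d → R) (e : Mon m d) : coeff e.1 (frm c) = c e := by
  classical
  rw [frm, coeff_sum, Finset.sum_eq_single e]
  · simp
  · intro b _ hb
    rw [coeff_monomial, if_neg]
    intro h; exact hb (Subtype.ext h)
  · simp

theorem coeff_frm_of_not_mem (c : Mon m d → R) (e : Fin m →₀ ℕ)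
    (he : e ∉ Finset.finsuppAntidiag (Finset.univ : Finset (Fin m)) d) : coeff e (frm c) = 0 := by
  classical
  rw [frm, coeff_sum]
  apply Finset.sum_eq_zero
  intro b _
  rw [coeff_monomial, if_neg]
  intro h; exact he (h ▸ b.2)

/-- every form is given by its coefficients -/
theorem frm_coeff {F : MvPolynomial (Fin m) R} (hF : F.IsHomogeneous d) :
    frm (fun e : Mon m d => coeff e.1 F) = F := by
  ext e
  by_cases he : e ∈ Finset.finsuppAntidiag (Finset.univ : Finset (Fin m)) d
  · exact coeff_frm (fun e : Mon m d => coeff e.1 F) ⟨e, he⟩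
  · rw [coeff_frm_of_not_mem _ _ he]
    symm
    apply hF.coeff_eq_zero
    intro h
    apply he
    rw [mem_finsuppAntidiag]
    refine ⟨?_, Finset.subset_univ _⟩
    rw [← h, Finsupp.degree_eq_sum]

theorem frm_injective : Function.Injective (frm : (Mon m d → R) → MvPolynomial (Fin m) R) := by
  intro c c' h
  funext e
  rw [← coeff_frm c e, ← coeff_frm c' e, h]

theorem frm_add (c c' : Mon m d → R) : frm (c + c') = frm c + frm c' := by
  simp only [frm, Pi.add_apply, map_add, Finset.sum_add_distrib]

theorem map_frm {S : Type*} [CommSemiring S] (f : R →+* S) (c : Mon m d → R) :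
    MvPolynomial.map f (frm c) = frm (fun e => f (c e)) := by
  simp only [frm, map_sum, map_monomial]

end Pool.Agent.Helper38.Dml
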