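import Mathlib
import Pool.Agent.Helper38.Dml.Const
import Pool.Agent.Helper38.Dml.Forms

/-!
# From the good event to a condition on the forms
-/

set_option autoImplicit false

open Finset Function MvPolynomial
open scoped LinearAlgebra.Projectivization

namespace Pool.Agent.Helper38.Dml

section homog

variable {R : Type*} [CommRing R] {m : ℕ}

theorem eval_smul_of_homog {P : MvPolynomial (Fin m) R} {d : ℕ} (hP : P.IsHomogeneous d) (c : R)
    (y : Fin m → R) : eval (c • y) P = c ^ d * eval y P := by
  rw [eval_eq', eval_eq', Finset.mul_sum]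
  refine Finset.sum_congr rfl fun e he => ?_
  have h1 : ∑ i, e i = d := by
    have := hP (mem_support_iff.1 he)
    rw [Finsupp.weight_apply, Finsupp.sum_fintype _ _ (by simp)] at this
    simpa using this
  have h2 : ∏ i, (c • y) i ^ e i = c ^ d * ∏ i, y i ^ e i := by
    simp only [Pi.smul_apply, smul_eq_mul, mul_pow, Finset.prod_mul_distrib,
      Finset.prod_pow_eq_pow_sum, h1]
  rw [h2]
  ring

/-- the polynomial map given by a family of polynomials -/
noncomputable def pmap (f : Fin m → MvPolynomial (Fin m) R) (y : Fin m → R) : Fin m → R :=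
  fun i => eval y (f i)

/-- its Jacobian matrix -/
noncomputable def pjac (f : Fin m → MvPolynomial (Fin m) R) (y : Fin m → R) :
    Matrix (Fin m) (Fin m) R := Matrix.of fun i j => eval y (pderiv j (f i))

theorem pmap_smul {f : Fin m → MvPolynomial (Fin m) R} {d : ℕ} (hf : ∀ i, (f i).IsHomogeneous d)
    (c : R) (y : Fin m → R) : pmap f (c • y) = c ^ d • pmap f y := by
  funext i
  simp only [pmap, Pi.smul_apply, smul_eq_mul]
  exact eval_smul_of_homog (hf i) c y

theorem pjac_smul {f : Fin m → MvPolynomial (Fin m) R} {d : ℕ} (hf : ∀ i, (f i).IsHomogeneous d)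
    (c : R) (y : Fin m → R) : pjac f (c • y) = c ^ (d - 1) • pjac f y := by
  ext i j
  simp only [pjac, Matrix.of_apply, Matrix.smul_apply, smul_eq_mul]
  exact eval_smul_of_homog (hf i).pderiv c y

theorem pjac_mulVec {f : Fin m → MvPolynomial (Fin m) R} {d : ℕ} (hf : ∀ i, (f i).IsHomogeneous d)
    (y : Fin m → R) : (pjac f y).mulVec y = (d : R) • pmap f y := by
  funext i
  have h := congrArg (MvPolynomial.eval y) (hf i).sum_X_mul_pderiv
  simp only [map_sum, map_mul, eval_X, nsmul_eq_mul, map_natCast] at h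
  simp only [pjac, Matrix.mulVec, dotProduct, Matrix.of_apply, Pi.smul_apply, smul_eq_mul, pmap]
  rw [← h]
  exact Finset.sum_congr rfl fun j _ => mul_comm _ _

end homog

section field

variable {k : Type*} [Field k] [DecidableEq k] {m : ℕ}

/-- the family of Jacobian matrices at the representatives of the points of projective space -/
noncomputable def jfam (f : Fin m → MvPolynomial (Fin m) k) (x : ℙ k (Fin m → k)) :
    Matrix (Fin m) (Fin m) k := pjac f x.rep

/-- `f` has no nontrivial zero over `k` and its Jacobian is invertible at all its nonzero periodic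
points. -/
def Good (f : Fin m → MvPolynomial (Fin m) k) : Prop :=
  (∀ x, x ≠ 0 → pmap f x ≠ 0) ∧
    (∀ x, x ≠ 0 → x ∈ periodicPts (pmap f) → (pjac f x).det ≠ 0)

theorem good_of_Ev {f : Fin m → MvPolynomial (Fin m) k} {d : ℕ} (hf : ∀ i, (f i).IsHomogeneous d)
    (h : Ev (jfam f)) : Good f := by
  have hrep : ∀ x : Fin m → k, ∀ hx : x ≠ 0, ∃ c : k, c ≠ 0 ∧
      c • (Projectivization.mk k x hx).rep = x := by
    intro x hx
    have h1 : Projectivization.mk k x hx
        = Projectivization.mk k (Projectivization.mk k x hx).rep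
          (Projectivization.rep_nonzero _) := by
      rw [Projectivization.mk_rep]
    obtain ⟨c, hc⟩ := (Projectivization.mk_eq_mk_iff' k _ _ hx _).1 h1
    refine ⟨c, ?_, hc⟩
    rintro rfl
    apply hx
    rw [← hc, zero_smul]
  have hnz : ∀ x, x ≠ 0 → pmap f x ≠ 0 := by
    intro x hx h0
    obtain ⟨c, hc, hcx⟩ := hrep x hx
    have h1 := (h (Projectivization.mk k x hx)).1
    apply h1
    rw [jfam, pjac_mulVec hf]
    have h2 : pmap f x = c ^ d • pmap f (Projectivization.mk k x hx).rep := by
      rw [← pmap_smul hf, hcx]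
    rw [h0] at h2
    have h3 := (smul_eq_zero.1 h2.symm).resolve_left (pow_ne_zero _ hc)
    rw [h3, smul_zero]
  refine ⟨hnz, ?_⟩
  have hphi : ∀ x, ∀ hx : x ≠ 0, phi (jfam f) (Projectivization.mk k x hx)
      = Projectivization.mk k (pmap f x) (hnz x hx) := by
    intro x hx
    obtain ⟨c, hc, hcx⟩ := hrep x hx
    have h1 := (h (Projectivization.mk k x hx)).1
    rw [phi, dif_pos h1, Projectivization.mk_eq_mk_iff']
    have h2 : pmap f x = c ^ d • pmap f (Projectivization.mk k x hx).rep := by
      rw [← pmap_smul hf, hcx]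
    refine ⟨(d : k) * (c ^ d)⁻¹, ?_⟩
    rw [jfam, pjac_mulVec hf, h2, smul_smul, mul_assoc, inv_mul_cancel₀ (pow_ne_zero _ hc), mul_one]
  intro x hx hper
  obtain ⟨n, hn, hper⟩ := hper
  have hit : ∀ n, ∃ hy : (pmap f)^[n] x ≠ 0, (phi (jfam f))^[n] (Projectivization.mk k x hx)
      = Projectivization.mk k ((pmap f)^[n] x) hy := by
    intro n
    induction n with
    | zero => exact ⟨hx, rfl⟩
    | succ n ih =>
      obtain ⟨hy, ih⟩ := ih
      refine ⟨?_, ?_⟩
      · rw [iterate_succ_apply']
        exact hnz _ hy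
      · rw [iterate_succ_apply', ih, hphi _ hy]
        congr 1
        rw [iterate_succ_apply']
  have hper2 : Projectivization.mk k x hx ∈ periodicPts (phi (jfam f)) := by
    refine ⟨n, hn, ?_⟩
    obtain ⟨hy, h1⟩ := hit n
    change (phi (jfam f))^[n] _ = _
    rw [h1]
    congr 1
  have hdet := (h _).2 hper2
  obtain ⟨c, hc, hcx⟩ := hrep x hx
  rw [← hcx, pjac_smul hf, Matrix.det_smul]
  exact mul_ne_zero (pow_ne_zero _ (pow_ne_zero _ hc)) hdet

end field

section count

variable {k : Type*} [Field k] [Fintype k]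

open Classical in
/-- A positive proportion of the triples of forms is good. -/
theorem card_good_ge [Fintype (ℙ k (Fin 3 → k))] {d e : ℕ} (A : MvPolynomial (Fin 3) k)
    (hA : A.IsHomogeneous e)
    (hsurj : ∀ lam : ℙ k (Fin 3 → k) → Fin 3 → k, ∃ c : Mon 3 d → k,
      ∀ x j, eval x.rep (pderiv j (A * frm c)) = lam x j) :
    Real.exp (-24) / 16 * (Fintype.card (Fin 3 → Mon 3 d → k) : ℝ)
      ≤ ((univ.filter (fun c : Fin 3 → Mon 3 d → k => Good (fun i => A * frm (c i)))).card : ℝ) := by
  let J : (Fin 3 → Mon 3 d → k) →+ (ℙ k (Fin 3 → k) → Matrix (Fin 3) (Fin 3) k) :=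
    { toFun := fun c => jfam (fun i => A * frm (c i))
      map_zero' := by
        funext x
        ext i j
        simp [jfam, pjac, frm]
      map_add' := fun c c' => by
        funext x
        ext i j
        simp only [jfam, pjac, Pi.add_apply, Matrix.add_apply, Matrix.of_apply, frm_add, mul_add,
          map_add] }
  have hJ : Surjective J := by
    intro M
    choose c hc using fun i => hsurj (fun x j => M x i j)
    refine ⟨c, ?_⟩
    funext x
    ext i j
    exact hc i x j
  have h1 := card_filter_comp J hJ (fun M => Ev M)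
  have h2 := card_Ev_plane (k := k)
  have hpos : (0 : ℝ) < (Fintype.card (ℙ k (Fin 3 → k) → Matrix (Fin 3) (Fin 3) k) : ℝ) := by
    exact_mod_cast Fintype.card_pos
  have h3 : ((univ.filter (fun c => Ev (J c))).card : ℝ)
      ≤ ((univ.filter (fun c : Fin 3 → Mon 3 d → k =>
        Good (fun i => A * frm (c i)))).card : ℝ) := by
    have : (univ.filter (fun c => Ev (J c))).card ≤ (univ.filter (fun c : Fin 3 → Mon 3 d → k =>
        Good (fun i => A * frm (c i)))).card := by
      apply Finset.card_le_card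
      intro c hc
      simp only [mem_filter, mem_univ, true_and] at hc ⊢
      exact good_of_Ev (d := e + d) (fun i => hA.mul (frm_isHomogeneous _)) hc
    exact_mod_cast this
  refine le_trans ?_ h3
  have h4 : ((univ.filter (fun c => Ev (J c))).card : ℝ)
      * (Fintype.card (ℙ k (Fin 3 → k) → Matrix (Fin 3) (Fin 3) k) : ℝ)
      = ((univ.filter (fun M : ℙ k (Fin 3 → k) → Matrix (Fin 3) (Fin 3) k => Ev M)).card : ℝ)
        * (Fintype.card (Fin 3 → Mon 3 d → k) : ℝ) := by
    exact_mod_cast h1
  have h5 : Real.exp (-24) / 16 * (Fintype.card (Fin 3 → Mon 3 d → k) : ℝ)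
      * (Fintype.card (ℙ k (Fin 3 → k) → Matrix (Fin 3) (Fin 3) k) : ℝ)
      ≤ ((univ.filter (fun c => Ev (J c))).card : ℝ)
      * (Fintype.card (ℙ k (Fin 3 → k) → Matrix (Fin 3) (Fin 3) k) : ℝ) := by
    rw [h4]
    calc _ = Real.exp (-24) / 16
          * (Fintype.card (ℙ k (Fin 3 → k) → Matrix (Fin 3) (Fin 3) k) : ℝ)
          * (Fintype.card (Fin 3 → Mon 3 d → k) : ℝ) := by ring
      _ ≤ _ := mul_le_mul_of_nonneg_right h2 (by positivity)
  exact le_of_mul_le_mul_right h5 hpos

end count

end Pool.Agent.Helper38.Dml
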