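import Mathlib
import Pool.Agent.Helper38.Dml.Arith

/-!
# Dynamical Mordell-Lang for a single orbit which is good modulo a prime
-/

set_option autoImplicit false

open Finset Function MvPolynomial Pool.Agent.Helper37

namespace Pool.Agent.Helper38.Dml

/-- the orbit of `y₀` under `f` avoids zero and the Jacobian is invertible at its periodic points -/
def GoodAt {k : Type*} [Field k] {m : ℕ} (f : Fin m → MvPolynomial (Fin m) k) (y₀ : Fin m → k) :
    Prop :=
  ∀ n, (pmap f)^[n] y₀ ≠ 0 ∧
    ((pmap f)^[n] y₀ ∈ periodicPts (pmap f) → (pjac f ((pmap f)^[n] y₀)).det ≠ 0)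

/-- The return set of every family of forms along the orbit of `a` is a finite union of
progressions. -/
def DMLat {L : Type*} [Field L] {m : ℕ} (F : Fin m → MvPolynomial (Fin m) ℤ) (a : Fin m → L) :
    Prop :=
  ∀ S : Set (MvPolynomial (Fin m) L), (∀ g ∈ S, ∃ e : ℕ, g.IsHomogeneous e) →
    ∃ T : Finset (ℕ × ℕ),
      {n : ℕ | ∀ g ∈ S, MvPolynomial.eval ((fun (x : Fin m → L) (i : Fin m) =>
          MvPolynomial.eval x (MvPolynomial.map (Int.castRingHom L) (F i)))^[n] a) g = 0}
        = {n : ℕ | ∃ q ∈ T, ∃ m : ℕ, n = q.1 * m + q.2}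

theorem dml_dvr_goodAt {m d : ℕ} (p : ℕ) (hp : p.Prime)
    {R : Type*} [CommRing R] [IsDomain R] [CharZero R] [IsDiscreteValuationRing R]
    (hpR : (p : R) ∈ IsLocalRing.maximalIdeal R)
    [Finite (IsLocalRing.ResidueField R)]
    {E : Type*} [Field E] [Finite E]
    (φ : R →+* E) (hφ : ∀ r, φ r ≠ 0 → IsUnit r)
    (F : Fin m → MvPolynomial (Fin m) ℤ) (hF : ∀ i, (F i).IsHomogeneous d)
    (A : MvPolynomial (Fin m) ℤ) (b : Fin m → R)
    (hG : GoodAt (fun i => MvPolynomial.map (Int.castRingHom E) (A * F i)) (fun i => φ (b i)))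
    {L : Type*} [Field L] [Algebra R L] (hRL : Function.Injective (algebraMap R L))
    (c : L) (hc : c ≠ 0) : DMLat F (fun i => c * algebraMap R L (b i)) := by
  classical
  intro S hS
  set g : Fin m → MvPolynomial (Fin m) E :=
    fun i => MvPolynomial.map (Int.castRingHom E) (A * F i) with hg
  set GR : Fin m → MvPolynomial (Fin m) R :=
    fun i => MvPolynomial.map (Int.castRingHom R) (A * F i) with hGR
  -- reduction
  have hred : ∀ x : Fin m → R, (fun i => φ (step GR x i)) = pmap g (fun i => φ (x i)) := by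
    intro x
    funext i
    simp only [step, pmap, hGR, hg]
    rw [MvPolynomial.aeval_eq_eval]
    exact map_eval_int φ x _
  set x : ℕ → Fin m → R := fun n => (step GR)^[n] b with hx
  have hxs : ∀ n, x (n + 1) = step GR (x n) := by
    intro n
    simp only [hx, iterate_succ_apply']
  set y : ℕ → Fin m → E := fun n i => φ (x n i) with hy
  have hys : ∀ n, y (n + 1) = pmap g (y n) := by
    intro n
    simp only [hy, hxs]
    exact hred (x n)
  have hyit : ∀ n, y n = (pmap g)^[n] (fun i => φ (b i)) := by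
    intro n
    induction n with
    | zero => rfl
    | succ n ih => rw [hys, ih, iterate_succ_apply']
  have hyn : ∀ n, y n ≠ 0 := by
    intro n
    rw [hyit]
    exact (hG n).1
  obtain ⟨n₁, hn₁⟩ := exists_iterate_mem_periodicPts (pmap g) (fun i => φ (b i))
  -- unit Jacobians
  have hjac : ∀ n, IsUnit (jac GR ((step GR)^[n] (x n₁))).det := by
    intro n
    have h1 : (step GR)^[n] (x n₁) = x (n + n₁) := by
      simp only [hx, ← iterate_add_apply]
    rw [h1]
    apply hφ
    rw [RingHom.map_det]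
    have h2 : φ.mapMatrix (jac GR (x (n + n₁))) = pjac g (y (n + n₁)) := by
      ext i j
      rw [RingHom.mapMatrix_apply, Matrix.map_apply]
      simp only [jac, pjac, Matrix.of_apply, hGR, hg]
      rw [pderiv_map, pderiv_map]
      exact map_eval_int φ _ _
    rw [h2, hyit]
    exact (hG _).2 (hn₁ _ (by omega))
  obtain ⟨T, hT⟩ := returnSet_progressions p hp hpR hRL GR (x n₁) hjac S
  -- comparison of the two orbits
  set X : ℕ → Fin m → L := fun n => (fun (x : Fin m → L) (i : Fin m) =>
          MvPolynomial.eval x (MvPolynomial.map (Int.castRingHom L) (F i)))^[n]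
            (fun i => c * algebraMap R L (b i)) with hX
  have hXs : ∀ n, X (n + 1) = fun i =>
      MvPolynomial.eval (X n) (MvPolynomial.map (Int.castRingHom L) (F i)) := by
    intro n
    simp only [hX, iterate_succ_apply']
  have hunitA : ∀ n, algebraMap R L
      (MvPolynomial.eval (x n) (MvPolynomial.map (Int.castRingHom R) A)) ≠ 0 := by
    intro n h0
    have h1 : MvPolynomial.eval (x n) (MvPolynomial.map (Int.castRingHom R) A) = 0 :=
      hRL (by rw [h0, map_zero])
    apply hyn (n + 1)
    rw [hys]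
    funext i
    simp only [pmap, hg, map_mul, Pi.zero_apply]
    have h2 := map_eval_int φ (x n) A
    rw [h1, map_zero] at h2
    change MvPolynomial.eval (y n) _ * _ = 0
    rw [← h2, zero_mul]
  have hprop : ∀ n, ∃ s : L, s ≠ 0 ∧ (fun i => algebraMap R L (x n i)) = s • X n := by
    intro n
    induction n with
    | zero =>
      refine ⟨c⁻¹, inv_ne_zero hc, ?_⟩
      funext i
      simp only [hX, hx, iterate_zero, id, Pi.smul_apply, smul_eq_mul]
      rw [inv_mul_cancel_left₀ hc]
    | succ n ih =>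
      obtain ⟨s, hs, ih⟩ := ih
      refine ⟨algebraMap R L
        (MvPolynomial.eval (x n) (MvPolynomial.map (Int.castRingHom R) A)) * s ^ d,
        mul_ne_zero (hunitA n) (pow_ne_zero _ hs), ?_⟩
      funext i
      rw [hxs, hXs]
      simp only [step, hGR, Pi.smul_apply, smul_eq_mul]
      rw [MvPolynomial.aeval_eq_eval]
      change algebraMap R L (MvPolynomial.eval (x n) _) = _
      rw [map_mul, map_mul, map_mul, mul_assoc]
      congr 1
      rw [map_eval_int (algebraMap R L), ih, eval_smul_of_homog ((hF i).map _)]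
  have hiff : ∀ n, (∀ g ∈ S, MvPolynomial.eval (X n) g = 0)
      ↔ (∀ g ∈ S, MvPolynomial.eval (fun i => algebraMap R L (x n i)) g = 0) := by
    intro n
    obtain ⟨s, hs, h⟩ := hprop n
    rw [h]
    constructor
    · intro h1 g hg
      obtain ⟨e, he⟩ := hS g hg
      rw [eval_smul_of_homog he, h1 g hg, mul_zero]
    · intro h1 g hg
      obtain ⟨e, he⟩ := hS g hg
      have h2 := h1 g hg
      rw [eval_smul_of_homog he] at h2
      exact (mul_eq_zero.1 h2).resolve_left (pow_ne_zero _ hs)
  refine ⟨((Finset.range n₁).filter (fun n => ∀ g ∈ S, MvPolynomial.eval (X n) g = 0)).image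
    (fun n => (0, n)) ∪ T.image (fun q => (q.1, q.2 + n₁)), ?_⟩
  have hT' : ∀ n, (∀ g ∈ S, MvPolynomial.eval (X (n + n₁)) g = 0)
      ↔ ∃ q ∈ T, ∃ m : ℕ, n = q.1 * m + q.2 := by
    intro n
    have h1 := Set.ext_iff.1 hT n
    simp only [Set.mem_ofPred_eq] at h1
    rw [← h1, hiff]
    have h2 : (step GR)^[n] (x n₁) = x (n + n₁) := by
      simp only [hx, ← iterate_add_apply]
    rw [h2]
  ext n
  simp only [Set.mem_ofPred_eq, Finset.mem_union, Finset.mem_image, Finset.mem_filter,
    Finset.mem_range]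
  constructor
  · intro h
    by_cases hn : n < n₁
    · exact ⟨(0, n), Or.inl ⟨n, ⟨hn, h⟩, rfl⟩, 0, by simp⟩
    · obtain ⟨l, rfl⟩ := Nat.exists_eq_add_of_le' (not_lt.1 hn)
      obtain ⟨q, hq, j, hj⟩ := (hT' l).1 h
      exact ⟨(q.1, q.2 + n₁), Or.inr ⟨q, hq, rfl⟩, j, by simp only; omega⟩
  · rintro ⟨q, (⟨l, ⟨_, hl⟩, rfl⟩ | ⟨q', hq', rfl⟩), j, hj⟩
    · simp only [zero_mul, zero_add] at hj
      rw [hj]
      exact hl
    · simp only at hj
      have h1 := (hT' (q'.1 * j + q'.2)).2 ⟨q', hq', j, rfl⟩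
      rw [hj, ← add_assoc]
      exact h1

/-- a nonzero tuple over the fraction field of a discrete valuation ring is proportional to a
tuple with a unit entry -/
theorem exists_primitive {m : ℕ} {R : Type*} [CommRing R] [IsDomain R] [IsDiscreteValuationRing R]
    {K : Type*} [Field K] [Algebra R K] [IsFractionRing R K] (a : Fin m → K) (ha : a ≠ 0) :
    ∃ (b : Fin m → R) (c : K), c ≠ 0 ∧ (∃ i, IsUnit (b i)) ∧
      ∀ i, a i = c * algebraMap R K (b i) := by
  classical
  obtain ⟨t, ht⟩ := IsLocalization.exist_integer_multiples_of_finite (nonZeroDivisors R) a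
  choose a' ha' using ht
  have ht0 : algebraMap R K (t : R) ≠ 0 := by
    intro h
    exact nonZeroDivisors.coe_ne_zero t
      (IsFractionRing.injective R K (by rw [h, map_zero]))
  have hav : ∀ i, algebraMap R K (a' i) = algebraMap R K (t : R) * a i := by
    intro i
    rw [ha' i, Algebra.smul_def]
  have ha'0 : a' ≠ 0 := by
    rintro rfl
    apply ha
    funext i
    have h1 := hav i
    simp only [Pi.zero_apply, map_zero] at h1
    exact (mul_eq_zero.1 h1.symm).resolve_left ht0
  obtain ⟨i₀, hi₀, hdvd⟩ := exists_dvd_all a' ha'0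
  choose b hb using hdvd
  have hb1 : b i₀ = 1 := by
    have h1 := hb i₀
    apply mul_left_cancel₀ hi₀
    rw [← h1, mul_one]
  refine ⟨b, (algebraMap R K (t : R))⁻¹ * algebraMap R K (a' i₀), ?_, ⟨i₀, by rw [hb1]; exact isUnit_one⟩,
    ?_⟩
  · apply mul_ne_zero (inv_ne_zero ht0)
    intro h
    exact hi₀ (IsFractionRing.injective R K (by rw [h, map_zero]))
  · intro i
    rw [mul_assoc, ← map_mul, ← hb i, hav i, inv_mul_cancel_left₀ ht0]

/-- reduction of a point over a field embedded in `ℚ_p` -/
theorem exists_reduction {m : ℕ} (p : ℕ) [Fact p.Prime] {K L : Type*} [Field K] [Field L]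
    [Algebra K L] (ι : K →+* ℚ_[p]) (a : Fin m → K) (ha : a ≠ 0) :
    ∃ y₀ : Fin m → ZMod p, y₀ ≠ 0 ∧
      ∀ (d : ℕ) (F : Fin m → MvPolynomial (Fin m) ℤ) (_ : ∀ i, (F i).IsHomogeneous d)
        (A : MvPolynomial (Fin m) ℤ),
        GoodAt (fun i => MvPolynomial.map (Int.castRingHom (ZMod p)) (A * F i)) y₀ →
          DMLat F (fun i => algebraMap K L (a i)) := by
  classical
  let R := padicRing p ι
  have hfin : Finite (IsLocalRing.ResidueField R) := Nat.finite_of_card_ne_zero (by
    rw [card_residueField_padicRing]; exact (Fact.out : p.Prime).ne_zero)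
  let _ : Algebra R L := ((algebraMap K L).comp (algebraMap R K)).toAlgebra
  have hRL : Function.Injective (algebraMap R L) :=
    (algebraMap K L).injective.comp (IsFractionRing.injective R K)
  obtain ⟨b, c, hc, ⟨i₀, hi₀⟩, hab⟩ := exists_primitive (R := R) a ha
  let φ : R →+* ZMod p := (PadicInt.toZMod).comp (padicRingHom p ι)
  have hφ : ∀ r, φ r ≠ 0 ↔ IsUnit r := by
    intro r
    rw [isUnit_padicRing_iff]
    have h1 : φ r = 0 ↔ padicRingHom p ι r ∈ IsLocalRing.maximalIdeal ℤ_[p] := by
      rw [← PadicInt.ker_toZMod, RingHom.mem_ker]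
      rfl
    rw [Ne, h1, IsLocalRing.mem_maximalIdeal, mem_nonunits_iff, not_not, PadicInt.isUnit_iff]
    rfl
  refine ⟨fun i => φ (b i), ?_, ?_⟩
  · intro h
    exact (hφ _).2 hi₀ (congrFun h i₀)
  · intro d F hF A hG
    have h1 := dml_dvr_goodAt p Fact.out (p_mem_maximalIdeal p ι) φ (fun r => (hφ r).1) F hF A b hG
      hRL (algebraMap K L c) (by
        intro h
        exact hc ((map_eq_zero _).1 h))
    have h2 : (fun i => algebraMap K L (a i))
        = fun i => algebraMap K L c * algebraMap R L (b i) := by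
      funext i
      rw [hab i, map_mul]
      rfl
    rw [h2]
    exact h1

end Pool.Agent.Helper38.Dml
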