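import Mathlib
import Pool.Agent.Helper37.DvrExt
import Pool.Agent.Helper37.DvrPadic
import Pool.Agent.Helper38.Dml.ArithAt

/-!
# Reduction of points of bounded degree
-/

set_option autoImplicit false

open Module

namespace Pool.Agent.Helper38.Dml

open Pool.Agent.Helper37

/-- Let `R₀` be a discrete valuation ring of characteristic zero with fraction field `K₀` and `p`
elements in its residue field and let `K` be a finite extension of `K₀`; some discrete valuation
ring of `K` above `R₀` has residue field of cardinality `p ^ e` with `e` at most the degree. -/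
theorem exists_dvr_le (p : ℕ) [Fact p.Prime] {R₀ K₀ : Type*} {K : Type} [CommRing R₀] [IsDomain R₀]
    [CharZero R₀] [IsDiscreteValuationRing R₀]
    (hp : (p : R₀) ∈ IsLocalRing.maximalIdeal R₀)
    (hcard : Nat.card (IsLocalRing.ResidueField R₀) = p)
    [Field K₀] [Field K] [Algebra R₀ K₀] [IsFractionRing R₀ K₀] [Algebra K₀ K]
    [FiniteDimensional K₀ K] :
    ∃ (R : Type) (_ : CommRing R) (_ : IsDomain R) (_ : CharZero R)
      (_ : IsDiscreteValuationRing R) (_ : Algebra R K),
      IsFractionRing R K ∧ (p : R) ∈ IsLocalRing.maximalIdeal R ∧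
      ∃ e : ℕ, Nat.card (IsLocalRing.ResidueField R) = p ^ e ∧ 0 < e ∧ e ≤ finrank K₀ K := by
  classical
  have : CharZero K₀ := charZero_of_injective_algebraMap (IsFractionRing.injective R₀ K₀)
  let _ : Algebra R₀ K := ((algebraMap K₀ K).comp (algebraMap R₀ K₀)).toAlgebra
  have : IsScalarTower R₀ K₀ K := IsScalarTower.of_algebraMap_eq (fun _ => rfl)
  let S := integralClosure R₀ K
  have hDed : IsDedekindDomain S := integralClosure.isDedekindDomain R₀ K₀ K
  have hFrac : IsFractionRing S K := IsIntegralClosure.isFractionRing_of_finite_extension R₀ K₀ K S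
  have hFin : Module.Finite R₀ S := IsIntegralClosure.finite R₀ K₀ K S
  have : IsTorsionFree R₀ K := by
    have hinj : Function.Injective (algebraMap R₀ K) :=
      (algebraMap K₀ K).injective.comp (IsFractionRing.injective R₀ K₀)
    exact Module.IsTorsionFree.of_smul_eq_zero (by
      intro r x hrx
      rw [Algebra.smul_def] at hrx
      rcases mul_eq_zero.1 hrx with h | h
      · left; exact hinj (by rw [h, map_zero])
      · right; exact h)
  have hFree : Module.Free R₀ S := IsIntegralClosure.module_free R₀ K₀ K S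
  have hrank : finrank R₀ S = finrank K₀ K := IsIntegralClosure.rank R₀ K₀ K S
  let P := IsLocalRing.maximalIdeal R₀
  have : _root_.Finite (P.primesOver S) := Algebra.QuasiFinite.finite_primesOver P
  let _ := Fintype.ofFinite (P.primesOver S)
  have hsum := Ideal.sum_ramification_inertia_eq_finrank P S
  have hpos : 0 < finrank K₀ K := finrank_pos
  obtain ⟨q, _, hq⟩ : ∃ q : P.primesOver S, q ∈ Finset.univ ∧
      q.1.ramificationIdx R₀ * q.1.inertiaDeg R₀ ≠ 0 := by
    apply Finset.exists_ne_zero_of_sum_ne_zero
    rw [hsum, hrank]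
    exact hpos.ne'
  have hqle : q.1.inertiaDeg R₀ ≤ finrank K₀ K := by
    rw [← hrank, ← hsum]
    calc q.1.inertiaDeg R₀ ≤ q.1.ramificationIdx R₀ * q.1.inertiaDeg R₀ :=
          Nat.le_mul_of_pos_left _ (Nat.pos_of_ne_zero (left_ne_zero_of_mul hq))
      _ ≤ _ := Finset.single_le_sum
          (f := fun q : P.primesOver S => q.1.ramificationIdx R₀ * q.1.inertiaDeg R₀)
          (fun _ _ => Nat.zero_le _) (Finset.mem_univ q)
  have hqpos : 0 < q.1.inertiaDeg R₀ := Nat.pos_of_ne_zero (right_ne_zero_of_mul hq)
  have hqmax : q.1.IsMaximal := inferInstance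
  have hqlies : q.1.LiesOver P := q.2.2
  have hq0 : q.1 ≠ ⊥ := by
    intro h
    have h1 : P = ⊥ := by
      have := hqlies.over
      rw [this, h]
      exact Ideal.under_bot _ _
    exact IsDiscreteValuationRing.not_a_field R₀ h1
  let R := Localization.AtPrime q.1
  have hDVR : IsDiscreteValuationRing R :=
    IsLocalization.AtPrime.isDiscreteValuationRing_of_dedekind_domain S hq0 R
  let _ : Algebra R K := IsLocalization.localizationAlgebraOfSubmonoidLe R K q.1.primeCompl
    (nonZeroDivisors S) q.1.primeCompl_le_nonZeroDivisors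
  have : IsScalarTower S R K := IsLocalization.localization_isScalarTower_of_submonoid_le R K
    q.1.primeCompl (nonZeroDivisors S) q.1.primeCompl_le_nonZeroDivisors
  have hFR : IsFractionRing R K :=
    IsFractionRing.isFractionRing_of_isDomain_of_isLocalization q.1.primeCompl R K
  have hS0 : CharZero S := charZero_of_injective_algebraMap (R := R₀)
    (FaithfulSMul.algebraMap_injective R₀ S)
  have hchar : CharZero R := charZero_of_injective_algebraMap (R := S)
    (IsLocalization.injective R q.1.primeCompl_le_nonZeroDivisors)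
  refine ⟨R, inferInstance, inferInstance, hchar, hDVR, inferInstance, hFR, ?_, ?_⟩
  · have h1 : algebraMap R₀ S (p : R₀) ∈ q.1 := by
      have h0 : P = Ideal.under R₀ q.1 := hqlies.over
      have h1 : (p : R₀) ∈ Ideal.under R₀ q.1 := by rw [← h0]; exact hp
      exact h1
    have h2 : algebraMap S R (p : S) ∈ IsLocalRing.maximalIdeal R := by
      rw [← Ideal.mem_under, IsLocalization.AtPrime.under_maximalIdeal R q.1]
      simpa using h1
    simpa using h2
  · refine ⟨q.1.inertiaDeg R₀, ?_, hqpos, hqle⟩
    have h1 : Nat.card (IsLocalRing.ResidueField R) = Nat.card (S ⧸ q.1) :=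
      Nat.card_congr (IsLocalization.AtPrime.equivQuotMaximalIdeal q.1 R).symm.toEquiv
    have h2 : Nat.card (R₀ ⧸ P) = p := hcard
    rw [h1, natCard_quotient_eq_pow P q.1, h2]

/-- reduction of a point of bounded degree over a field embedded in `ℚ_p` -/
theorem exists_reduction_ext {m : ℕ} (p : ℕ) [Fact p.Prime] {E : Type} [Field E] [Finite E]
    [Algebra (ZMod p) E] {K₀ : Type*} {K L : Type} [Field K₀] [Field K] [Field L]
    [Algebra K₀ K] [FiniteDimensional K₀ K]
    [Algebra K L] (ι : K₀ →+* ℚ_[p])
    (hE : ∀ e : ℕ, 0 < e → e ≤ finrank K₀ K → e ∣ finrank (ZMod p) E)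
    (a : Fin m → K) (ha : a ≠ 0) :
    ∃ y₀ : Fin m → E, y₀ ≠ 0 ∧
      ∀ (d : ℕ) (F : Fin m → MvPolynomial (Fin m) ℤ) (_ : ∀ i, (F i).IsHomogeneous d)
        (A : MvPolynomial (Fin m) ℤ),
        GoodAt (fun i => MvPolynomial.map (Int.castRingHom E) (A * F i)) y₀ →
          DMLat F (fun i => algebraMap K L (a i)) := by
  classical
  obtain ⟨R, _, _, _, _, _, hFrac, hpR, e, hcard, he0, hele⟩ := exists_dvr_le p
    (R₀ := padicRing p ι) (K₀ := K₀) (K := K) (p_mem_maximalIdeal p ι)
    (card_residueField_padicRing p ι)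
  have hfin : Finite (IsLocalRing.ResidueField R) := Nat.finite_of_card_ne_zero (by
    rw [hcard]; exact pow_ne_zero _ (Fact.out : p.Prime).ne_zero)
  have hpk : (p : IsLocalRing.ResidueField R) = 0 := by
    have := (IsLocalRing.residue_eq_zero_iff (p : R)).2 hpR
    simpa using this
  have hcp : CharP (IsLocalRing.ResidueField R) p := charP_of_natCast_eq_zero p Fact.out _ hpk
  let _ : Algebra (ZMod p) (IsLocalRing.ResidueField R) := ZMod.algebra _ p
  have hfr : finrank (ZMod p) (IsLocalRing.ResidueField R) = e := by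
    have h1 := Module.natCard_eq_pow_finrank (K := ZMod p) (V := IsLocalRing.ResidueField R)
    rw [hcard, Nat.card_zmod] at h1
    exact (Nat.pow_right_injective (Fact.out : p.Prime).two_le h1).symm
  obtain ⟨ψ⟩ := FiniteField.nonempty_algHom_of_finrank_dvd (F := ZMod p)
    (K := IsLocalRing.ResidueField R) (L := E) (by rw [hfr]; exact hE e he0 hele)
  let φ : R →+* E := (ψ : IsLocalRing.ResidueField R →+* E).comp (IsLocalRing.residue R)
  have hφ : ∀ r, φ r ≠ 0 ↔ IsUnit r := by
    intro r
    have h1 : φ r = 0 ↔ IsLocalRing.residue R r = 0 := map_eq_zero (ψ : IsLocalRing.ResidueField R →+* E)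
    rw [Ne, h1]
    exact IsLocalRing.residue_ne_zero_iff_isUnit r
  let _ : Algebra R L := ((algebraMap K L).comp (algebraMap R K)).toAlgebra
  have hRL : Function.Injective (algebraMap R L) :=
    (algebraMap K L).injective.comp (IsFractionRing.injective R K)
  obtain ⟨b, c, hc, ⟨i₀, hi₀⟩, hab⟩ := exists_primitive (R := R) a ha
  refine ⟨fun i => φ (b i), ?_, ?_⟩
  · intro h
    exact (hφ _).2 hi₀ (congrFun h i₀)
  · intro d F hF A hG
    have h1 := dml_dvr_goodAt p Fact.out hpR φ (fun r => (hφ r).1) F hF A b hG
      hRL (algebraMap K L c) (by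
        intro h
        exact hc ((map_eq_zero _).1 h))
    have h2 : (fun i => algebraMap K L (a i))
        = fun i => algebraMap K L c * algebraMap R L (b i) := by
      funext i
      rw [hab i, map_mul]
      rfl
    rw [h2]
    exact h1

end Pool.Agent.Helper38.Dml
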