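import Mathlib
import Pool.Agent.Helper37.DvrPadic

/-!
# Extending embeddings into `ℚ_p` to purely transcendental extensions
-/

set_option autoImplicit false

open Cardinal

namespace Pool.Agent.Helper38.Dml

/-- `ℚ_p` contains arbitrarily large finite algebraically independent families over a countable
subfield -/
theorem exists_algebraicIndependent_of_countable (p : ℕ) [hp : Fact p.Prime] (K : Type) [Field K]
    [Countable K] [Algebra K ℚ_[p]] (r : ℕ) :
    ∃ s : Fin r → ℚ_[p], AlgebraicIndependent K s := by
  obtain ⟨B, hB⟩ := exists_isTranscendenceBasis K ℚ_[p]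
  have hinf : B.Infinite := by
    intro hfin
    have halg := hB.isAlgebraic
    have hcount : #(Algebra.adjoin K (Set.range ((↑) : B → ℚ_[p]))) ≤ ℵ₀ := by
      rw [Algebra.adjoin_range_eq_range_aeval K (fun x : B => (x : ℚ_[p]))]
      have h1 : #(MvPolynomial B K) ≤ ℵ₀ := by
        refine (MvPolynomial.cardinalMk_le_max (σ := B) (R := K)).trans ?_
        have : Countable B := hfin.countable.to_subtype
        simp
      exact (mk_range_le (f := fun P : MvPolynomial B K =>
        MvPolynomial.aeval (R := K) (fun x : B => (x : ℚ_[p])) P)).trans h1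
    have h3 := Algebra.IsAlgebraic.cardinalMk_le_max
      (Algebra.adjoin K (Set.range ((↑) : B → ℚ_[p]))) ℚ_[p]
    have h4 : #ℚ_[p] ≤ ℵ₀ := h3.trans (max_le hcount le_rfl)
    have h5 := continuum_le_cardinal_of_nontriviallyNormedField ℚ_[p]
    exact absurd (h5.trans h4) (not_le.2 aleph0_lt_continuum)
  have : Infinite B := hinf.to_subtype
  let e : Fin r ↪ B := (Fin.valEmbedding.trans (Infinite.natEmbedding B))
  exact ⟨fun i => (e i : ℚ_[p]), hB.1.comp e e.injective⟩

/-- finitely generated fields of characteristic zero are countable -/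
theorem countable_of_fg (K : IntermediateField ℚ ℂ) (hK : K.FG) : Countable K := by
  obtain ⟨S, rfl⟩ := hK
  have h1 := IntermediateField.cardinalMk_adjoin_le ℚ (S : Set ℂ)
  rw [← mk_le_aleph0_iff]
  refine h1.trans ?_
  simp

/-- extending an embedding into `ℚ_p` to a purely transcendental extension -/
theorem exists_embedding_adjoin (K : IntermediateField ℚ ℂ) (hK : K.FG) (p : ℕ) [Fact p.Prime]
    (ι : K →+* ℚ_[p]) (r : ℕ) (t : Fin r → ℂ) (ht : AlgebraicIndependent K t) :
    Nonempty (IntermediateField.adjoin K (Set.range t) →+* ℚ_[p]) := by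
  have hc := countable_of_fg K hK
  let _ : Algebra K ℚ_[p] := ι.toAlgebra
  obtain ⟨s, hs⟩ := exists_algebraicIndependent_of_countable p K r
  exact Pool.Agent.Helper37.exists_ringHom_adjoin t s ht hs

end Pool.Agent.Helper38.Dml
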