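import Mathlib
import Pool.Agent.Helper37.DvrPadic

/-!
# Embeddings of finitely generated fields into fields of `p`-adic numbers
-/

set_option autoImplicit false

open Polynomial

namespace Pool.Agent.Helper38.Dml

/-- a nonconstant integral polynomial has zeros modulo arbitrarily large primes -/
theorem exists_prime_root (g : ℤ[X]) (hg : 0 < g.natDegree) (N : ℕ) :
    ∃ p, N < p ∧ p.Prime ∧ ∃ n : ℤ, (p : ℤ) ∣ g.eval n := by
  by_cases hc : g.eval 0 = 0
  · obtain ⟨p, hp, hpp⟩ := Nat.exists_infinite_primes (N + 1)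
    exact ⟨p, by omega, hpp, 0, by rw [hc]; exact dvd_zero _⟩
  set c := g.eval 0 with hcdef
  have hne : ∀ b : ℤ, g - C b ≠ 0 := by
    intro b h
    rw [sub_eq_zero] at h
    rw [h] at hg
    simp at hg
  have hfin : {z : ℤ | (g - C c).eval z = 0 ∨ (g - C (-c)).eval z = 0}.Finite := by
    have h1 : {z : ℤ | (g - C c).IsRoot z}.Finite := Polynomial.finite_setOfPred_isRoot (hne c)
    have h2 : {z : ℤ | (g - C (-c)).IsRoot z}.Finite := Polynomial.finite_setOfPred_isRoot (hne (-c))
    exact h1.union h2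
  have hM : ((N.factorial : ℕ) : ℤ) ≠ 0 := by exact_mod_cast N.factorial_ne_zero
  have hinf : (Set.range (fun y : ℤ => c * N.factorial * y)).Infinite := by
    apply Set.infinite_range_of_injective
    intro y y' h
    exact mul_left_cancel₀ (mul_ne_zero hc hM) h
  obtain ⟨z, ⟨y, rfl⟩, hz⟩ := hinf.exists_notMem_finite hfin
  simp only [Set.mem_ofPred_eq, eval_sub, eval_C, not_or] at hz
  obtain ⟨t, ht⟩ := Polynomial.sub_dvd_eval_sub (c * N.factorial * y) 0 g
  rw [sub_zero, ← hcdef] at ht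
  have h1 : g.eval (c * N.factorial * y) = c * (1 + N.factorial * y * t) := by linarith
  have h2 : (1 + N.factorial * y * t : ℤ).natAbs ≠ 1 := by
    intro h
    rcases Int.natAbs_eq_iff.1 h with h3 | h3
    · apply hz.1
      rw [h1, h3]; simp
    · apply hz.2
      rw [h1, h3]; simp
  obtain ⟨p, hp, hpd⟩ := Nat.exists_prime_and_dvd h2
  refine ⟨p, ?_, hp, c * N.factorial * y, ?_⟩
  · by_contra hle
    have h4 : p ∣ N.factorial := (Nat.Prime.dvd_factorial hp).2 (not_lt.1 hle)
    have h5 : (p : ℤ) ∣ 1 + N.factorial * y * t := Int.natCast_dvd.2 hpd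
    have h6 : (p : ℤ) ∣ N.factorial * y * t :=
      ((Int.natCast_dvd_natCast.2 h4).mul_right y).mul_right t
    have h7 : (p : ℤ) ∣ 1 := (Int.dvd_add_left h6).1 h5
    have h8 : p ∣ 1 := by exact_mod_cast h7
    exact hp.one_lt.ne' (Nat.dvd_one.1 h8)
  · rw [h1]
    exact (Int.natCast_dvd.2 hpd).mul_left c

/-- algebraic independence is stable under affine changes of the variables -/
theorem algebraicIndependent_affine {σ A : Type*} [CommRing A] [Algebra ℚ A] {x : σ → A}
    (hx : AlgebraicIndependent ℚ x) (a b : σ → ℚ) (hb : ∀ i, b i ≠ 0) :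
    AlgebraicIndependent ℚ (fun i => algebraMap ℚ A (a i) + algebraMap ℚ A (b i) * x i) := by
  rw [algebraicIndependent_iff_injective_aeval] at hx ⊢
  let f : MvPolynomial σ ℚ →ₐ[ℚ] MvPolynomial σ ℚ :=
    MvPolynomial.aeval (fun i => MvPolynomial.C (a i) + MvPolynomial.C (b i) * MvPolynomial.X i)
  let f' : MvPolynomial σ ℚ →ₐ[ℚ] MvPolynomial σ ℚ :=
    MvPolynomial.aeval (fun i => MvPolynomial.C (b i)⁻¹ * (MvPolynomial.X i - MvPolynomial.C (a i)))
  have h1 : MvPolynomial.aeval (fun i => algebraMap ℚ A (a i) + algebraMap ℚ A (b i) * x i)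
      = (MvPolynomial.aeval x).comp f := by
    apply MvPolynomial.algHom_ext
    intro i
    simp only [f, AlgHom.comp_apply, MvPolynomial.aeval_X, map_add, map_mul, MvPolynomial.aeval_C]
  have h2 : f'.comp f = AlgHom.id ℚ _ := by
    apply MvPolynomial.algHom_ext
    intro i
    simp only [f, f', AlgHom.comp_apply, MvPolynomial.aeval_X, map_add, map_mul,
      MvPolynomial.aeval_C, AlgHom.id_apply]
    change MvPolynomial.C (a i) + MvPolynomial.C (b i) * (MvPolynomial.C (b i)⁻¹
      * (MvPolynomial.X i - MvPolynomial.C (a i))) = MvPolynomial.X i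
    rw [← mul_assoc, ← map_mul, mul_inv_cancel₀ (hb i), map_one]
    ring
  have h3 : Function.Injective f := by
    apply Function.LeftInverse.injective (g := f')
    intro P
    exact congrArg (fun F : MvPolynomial σ ℚ →ₐ[ℚ] MvPolynomial σ ℚ => F P) h2
  rw [h1]
  exact hx.comp h3

/-- algebraically independent `p`-adic integers congruent to given integers modulo `p` -/
theorem exists_algebraicIndependent_near (p : ℕ) [hp : Fact p.Prime] (r : ℕ) (τ : Fin r → ℤ) :
    ∃ s : Fin r → ℤ_[p], AlgebraicIndependent ℤ (fun i => (s i : ℚ_[p])) ∧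
      ∀ i, PadicInt.toZMod (s i) = (τ i : ZMod p) := by
  obtain ⟨x, hx⟩ := Pool.Agent.Helper37.exists_algebraicIndependent_padic p r
  have hn : ∃ n : ℕ, ∀ i, ‖(p : ℚ_[p]) ^ n * x i‖ ≤ 1 := by
    have h1 : ∀ i, ∃ n : ℕ, ∀ n', n ≤ n' → ‖(p : ℚ_[p]) ^ n' * x i‖ ≤ 1 := by
      intro i
      have hp1 : ((p : ℝ)⁻¹) < 1 := inv_lt_one_of_one_lt₀ (by exact_mod_cast hp.out.one_lt)
      obtain ⟨n, hn⟩ := exists_pow_lt_of_lt_one (y := (p : ℝ)⁻¹) (x := (‖x i‖ + 1)⁻¹)
        (by positivity) hp1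
      refine ⟨n, fun n' hn' => ?_⟩
      rw [norm_mul, norm_pow, Padic.norm_p]
      have h2 : ((p : ℝ)⁻¹) ^ n' ≤ (‖x i‖ + 1)⁻¹ :=
        (pow_le_pow_of_le_one (by positivity) hp1.le hn').trans hn.le
      calc ((p : ℝ)⁻¹) ^ n' * ‖x i‖ ≤ (‖x i‖ + 1)⁻¹ * ‖x i‖ :=
            mul_le_mul_of_nonneg_right h2 (norm_nonneg _)
        _ ≤ 1 := by
            rw [inv_mul_le_iff₀ (by positivity)]
            linarith [norm_nonneg (x i)]
    choose n hn using h1
    refine ⟨∑ i, n i, fun i => hn i _ (Finset.single_le_sum (fun _ _ => Nat.zero_le _)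
      (Finset.mem_univ i))⟩
  obtain ⟨n, hn⟩ := hn
  let w : Fin r → ℤ_[p] := fun i => ⟨(p : ℚ_[p]) ^ n * x i, hn i⟩
  refine ⟨fun i => (τ i : ℤ_[p]) + p * w i, ?_, ?_⟩
  · have h1 := algebraicIndependent_affine hx (fun i => (τ i : ℚ)) (fun _ => (p : ℚ) ^ (n + 1))
      (fun i => pow_ne_zero _ (by exact_mod_cast hp.out.ne_zero))
    have h2 := h1.restrictScalars (R := ℤ) (by
      intro a b h
      exact_mod_cast h)
    convert h2 using 2 with i
    have h3 : ((p * w i : ℤ_[p]) : ℚ_[p]) = p * (p ^ n * x i) := by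
      rw [PadicInt.coe_mul, PadicInt.coe_natCast]
    rw [PadicInt.coe_add, h3, PadicInt.coe_intCast]
    simp only [map_pow, map_intCast, map_natCast]
    ring
  · intro i
    simp

/-- Zeros in `ℚ_p` of a polynomial in one variable over a polynomial ring, specialised at
algebraically independent elements, for all large primes `p` modulo which a suitable integral
polynomial has a zero. -/
theorem exists_padic_root_all (r : ℕ) (g U V : Polynomial (MvPolynomial (Fin r) ℤ))
    (E : MvPolynomial (Fin r) ℤ) (hE : E ≠ 0) (h : U * g + V * derivative g = C E)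
    (hg : 0 < g.natDegree) :
    ∃ g₀ : ℤ[X], 0 < g₀.natDegree ∧ ∃ M : ℕ, ∀ p : ℕ, M < p → ∀ hp : p.Prime,
      (∃ n : ℤ, (p : ℤ) ∣ g₀.eval n) → haveI := Fact.mk hp;
      ∃ s : Fin r → ℚ_[p], AlgebraicIndependent ℤ s ∧
        ∃ z : ℚ_[p], g.eval₂ (MvPolynomial.aeval s : MvPolynomial (Fin r) ℤ →ₐ[ℤ] ℚ_[p]).toRingHom z
          = 0 := by
  have hg0 : g ≠ 0 := by
    rintro rfl
    simp at hg
  have hDE : g.leadingCoeff * E ≠ 0 := mul_ne_zero (leadingCoeff_ne_zero.2 hg0) hE
  have hτ : ∃ τ : Fin r → ℤ, MvPolynomial.eval τ (g.leadingCoeff * E) ≠ 0 := by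
    by_contra hcon
    push Not at hcon
    exact hDE (MvPolynomial.funext (fun τ => by rw [hcon τ, map_zero]))
  obtain ⟨τ, hτ⟩ := hτ
  rw [map_mul] at hτ
  have hD : MvPolynomial.eval τ g.leadingCoeff ≠ 0 := left_ne_zero_of_mul hτ
  have hEτ : MvPolynomial.eval τ E ≠ 0 := right_ne_zero_of_mul hτ
  have hdeg : 0 < (g.map (MvPolynomial.eval τ)).natDegree := by
    rwa [Polynomial.natDegree_map_of_leadingCoeff_ne_zero _ hD]
  refine ⟨g.map (MvPolynomial.eval τ), hdeg, (MvPolynomial.eval τ E).natAbs, ?_⟩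
  rintro p hpN hp ⟨n, hn⟩
  have := Fact.mk hp
  obtain ⟨s, hs, hsτ⟩ := exists_algebraicIndependent_near p r τ
  refine ⟨fun i => (s i : ℚ_[p]), hs, ?_⟩
  set θ : MvPolynomial (Fin r) ℤ →+* ℤ_[p] := MvPolynomial.eval₂Hom (Int.castRingHom ℤ_[p]) s
    with hθ
  have hθmod : (PadicInt.toZMod (p := p)).comp θ = (Int.castRingHom (ZMod p)).comp
      (MvPolynomial.eval τ) := by
    apply MvPolynomial.ringHom_ext
    · intro c
      simp [hθ]
    · intro i
      simp [hθ, hsτ i]
  set G : ℤ_[p][X] := g.map θ with hG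
  have hmod : ∀ q : Polynomial (MvPolynomial (Fin r) ℤ), PadicInt.toZMod ((q.map θ).eval (n : ℤ_[p]))
      = (((q.map (MvPolynomial.eval τ)).eval n : ℤ) : ZMod p) := by
    intro q
    rw [eval_map, eval_map, hom_eval₂, hθmod]
    have h1 := hom_eval₂ q (MvPolynomial.eval τ) (Int.castRingHom (ZMod p)) n
    simp only [eq_intCast] at h1
    rw [h1, map_intCast]
  have h1 : PadicInt.toZMod (G.eval (n : ℤ_[p])) = 0 := by
    rw [hG, hmod, ZMod.intCast_zmod_eq_zero_iff_dvd]
    exact hn
  have h2 : PadicInt.toZMod ((derivative G).eval (n : ℤ_[p])) ≠ 0 := by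
    intro h0
    have h3 := congrArg (fun q : Polynomial (MvPolynomial (Fin r) ℤ) =>
      PadicInt.toZMod ((q.map θ).eval (n : ℤ_[p]))) h
    simp only [Polynomial.map_add, Polynomial.map_mul, eval_add, eval_mul, map_add, map_mul] at h3
    rw [← hG, h1, ← derivative_map, ← hG, h0, mul_zero, mul_zero, add_zero] at h3
    rw [hmod, Polynomial.map_C, eval_C] at h3
    have h4 : (p : ℤ) ∣ MvPolynomial.eval τ E := (ZMod.intCast_zmod_eq_zero_iff_dvd _ _).1 h3.symm
    have h5 : p ∣ (MvPolynomial.eval τ E).natAbs := Int.natCast_dvd.1 h4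
    have h6 := Nat.le_of_dvd (Int.natAbs_pos.2 hEτ) h5
    omega
  have hnorm : ∀ x : ℤ_[p], PadicInt.toZMod x = 0 ↔ ‖x‖ < 1 := by
    intro x
    rw [← RingHom.mem_ker, PadicInt.ker_toZMod, IsLocalRing.mem_maximalIdeal, PadicInt.mem_nonunits]
  have h3 : ‖(derivative G).eval (n : ℤ_[p])‖ = 1 := by
    have := mt (hnorm _).2 h2
    exact le_antisymm (PadicInt.norm_le_one _) (not_lt.1 this)
  obtain ⟨z, hz, _⟩ := hensels_lemma (F := G) (a := (n : ℤ_[p])) (by
    rw [coe_aeval_eq_eval, h3, one_pow]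
    exact (hnorm _).1 h1)
  rw [coe_aeval_eq_eval] at hz
  refine ⟨(z : ℚ_[p]), ?_⟩
  have h4 : (MvPolynomial.aeval (fun i => (s i : ℚ_[p])) :
      MvPolynomial (Fin r) ℤ →ₐ[ℤ] ℚ_[p]).toRingHom = (PadicInt.Coe.ringHom (p := p)).comp θ := by
    apply MvPolynomial.ringHom_ext
    · intro c
      simp [hθ]
    · intro i
      have h5 : (PadicInt.Coe.ringHom (p := p)) (s i) = (s i : ℚ_[p]) := rfl
      simp [hθ, h5]
  rw [h4]
  have h5 := hom_eval₂ g θ (PadicInt.Coe.ringHom (p := p)) z
  change _ = g.eval₂ _ (z : ℚ_[p]) at h5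
  rw [← h5, ← eval_map, ← hG, hz, map_zero]

theorem exists_padic_root (r : ℕ) (g U V : Polynomial (MvPolynomial (Fin r) ℤ))
    (E : MvPolynomial (Fin r) ℤ) (hE : E ≠ 0) (h : U * g + V * derivative g = C E)
    (hg : 0 < g.natDegree) (N : ℕ) :
    ∃ p, N < p ∧ ∃ hp : p.Prime, haveI := Fact.mk hp;
      ∃ s : Fin r → ℚ_[p], AlgebraicIndependent ℤ s ∧
        ∃ z : ℚ_[p], g.eval₂ (MvPolynomial.aeval s : MvPolynomial (Fin r) ℤ →ₐ[ℤ] ℚ_[p]).toRingHom z
          = 0 := by
  obtain ⟨g₀, hg₀, M, hM⟩ := exists_padic_root_all r g U V E hE h hg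
  obtain ⟨p, hpN, hp, hn⟩ := exists_prime_root g₀ hg₀ (N + M)
  exact ⟨p, by omega, hp, hM p (by omega) hp hn⟩

theorem exists_clear {P Q : Type*} [CommRing P] [IsDomain P] [Field Q] [Algebra P Q]
    [IsFractionRing P Q] (f : Q[X]) (hf : f.Separable) (hdeg : 0 < f.natDegree) :
    ∃ (g U V : P[X]) (E b : P), b ≠ 0 ∧ E ≠ 0 ∧ U * g + V * derivative g = C E ∧
      0 < g.natDegree ∧ g.map (algebraMap P Q) = C (algebraMap P Q b) * f := by
  obtain ⟨u, v, huv⟩ := hf
  obtain ⟨b, hb, hg⟩ := IsLocalization.integerNormalization_spec (nonZeroDivisors P) f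
  obtain ⟨b₁, hb₁, hu⟩ := IsLocalization.integerNormalization_spec (nonZeroDivisors P) u
  obtain ⟨b₂, hb₂, hv⟩ := IsLocalization.integerNormalization_spec (nonZeroDivisors P) v
  set g := IsLocalization.integerNormalization (nonZeroDivisors P) f
  set U := IsLocalization.integerNormalization (nonZeroDivisors P) u
  set V := IsLocalization.integerNormalization (nonZeroDivisors P) v
  have hPQ : Function.Injective (algebraMap P Q) := IsFractionRing.injective P Q
  have hb0 : b ≠ 0 := nonZeroDivisors.ne_zero hb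
  have hE : b * b₁ * b₂ ≠ 0 := mul_ne_zero (mul_ne_zero hb0 (nonZeroDivisors.ne_zero hb₁))
    (nonZeroDivisors.ne_zero hb₂)
  have hsm : ∀ (c : P) (q : Q[X]), c • q = C (algebraMap P Q c) * q := by
    intro c q
    ext n
    rw [coeff_smul, coeff_C_mul, Algebra.smul_def]
  have hbQ : algebraMap P Q b ≠ 0 := by
    intro h
    exact hb0 (hPQ (by rw [h, map_zero]))
  refine ⟨g, C b₂ * U, C b₁ * V, b * b₁ * b₂, b, hb0, hE, ?_, ?_, ?_⟩
  · apply Polynomial.map_injective _ hPQ
    simp only [Polynomial.map_add, Polynomial.map_mul, Polynomial.map_C, ← derivative_map, hg, hu,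
      hv]
    rw [hsm, hsm, hsm, derivative_C_mul, map_mul, C_mul, map_mul, C_mul]
    calc _ = C (algebraMap P Q b) * C (algebraMap P Q b₁) * C (algebraMap P Q b₂)
          * (u * f + v * derivative f) := by ring
      _ = _ := by rw [huv, mul_one]
  · have h1 : (g.map (algebraMap P Q)).natDegree = g.natDegree :=
      Polynomial.natDegree_map_eq_of_injective hPQ g
    rw [← h1, hg, hsm, Polynomial.natDegree_C_mul hbQ]
    exact hdeg
  · rw [hg, hsm]

theorem embed_aux {P Q K L : Type*} [CommRing P] [IsDomain P] [Field Q] [Algebra P Q]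
    [IsFractionRing P Q] [Field K] [Algebra Q K] [Field L] (pb : PowerBasis Q K) (θ : P →+* L)
    (hθ : Function.Injective θ) (z : L) (b : P) (hb : b ≠ 0) (g : P[X])
    (hg : g.map (algebraMap P Q) = C (algebraMap P Q b) * minpoly Q pb.gen)
    (hz : g.eval₂ θ z = 0) : Nonempty (K →+* L) := by
  have hτ : (IsFractionRing.lift (K := Q) hθ).comp (algebraMap P Q) = θ := by
    apply RingHom.ext
    intro c
    exact IsFractionRing.lift_algebraMap hθ c
  generalize (IsFractionRing.lift (K := Q) hθ) = τ at hτ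
  let _ : Algebra Q L := τ.toAlgebra
  have hz2 : aeval z (minpoly Q pb.gen) = 0 := by
    have h1 : (g.map (algebraMap P Q)).eval₂ τ z = 0 := by
      rw [eval₂_map, hτ]
      exact hz
    rw [hg, eval₂_mul, eval₂_C] at h1
    rcases mul_eq_zero.1 h1 with h2 | h2
    · exact absurd (IsFractionRing.injective P Q (((map_eq_zero τ).1 h2).trans (map_zero _).symm)) hb
    · exact h2
  exact ⟨(pb.lift z hz2).toRingHom⟩

/-- A finitely generated field of characteristic zero embeds into `ℚ_p` for all large primes `p`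
modulo which a suitable integral polynomial has a zero. -/
theorem exists_embedding_all {K : Type*} [Field K] [Algebra ℚ K]
    (hK : (⊤ : IntermediateField ℚ K).FG) :
    ∃ g₀ : ℤ[X], 0 < g₀.natDegree ∧ ∃ M : ℕ, ∀ p : ℕ, M < p → ∀ hp : p.Prime,
      (∃ n : ℤ, (p : ℤ) ∣ g₀.eval n) → haveI := Fact.mk hp; Nonempty (K →+* ℚ_[p]) := by
  classical
  have : CharZero K := algebraRat.charZero K
  obtain ⟨S, hS⟩ := hK
  have hmem : ∀ x : K, x ∈ IntermediateField.adjoin ℚ (S : Set K) := fun x => by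
    rw [hS]; trivial
  -- K is algebraic over the ring generated by S
  have halg : Algebra.IsAlgebraic (Algebra.adjoin ℤ (S : Set K)) K := by
    constructor
    intro x
    refine IntermediateField.adjoin_induction ℚ
      (p := fun x _ => IsAlgebraic (Algebra.adjoin ℤ (S : Set K)) x) ?_ ?_ ?_ ?_ ?_ (hmem x)
    · intro x hx
      exact isAlgebraic_algebraMap (⟨x, Algebra.subset_adjoin hx⟩ : Algebra.adjoin ℤ (S : Set K))
    · intro q
      have h0 : IsAlgebraic ℤ q :=
        (IsFractionRing.isAlgebraic_iff ℤ ℚ ℚ).2 (isAlgebraic_algebraMap q)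
      have h1 : IsAlgebraic ℤ (algebraMap ℚ K q) := h0.algebraMap
      exact h1.extendScalars (FaithfulSMul.algebraMap_injective ℤ (Algebra.adjoin ℤ (S : Set K)))
    · intro x y _ _ hx hy
      exact hx.add hy
    · intro x _ hx
      exact hx.inv
    · intro x y _ _ hx hy
      exact hx.mul hy
  obtain ⟨t, htS, ht⟩ := exists_isTranscendenceBasis_subset (R := ℤ) (S : Set K)
  have htfin : t.Finite := S.finite_toSet.subset htS
  have : Fintype t := htfin.fintype
  obtain ⟨r, ⟨e⟩⟩ : ∃ r, Nonempty (Fin r ≃ t) := ⟨_, ⟨(Fintype.equivFin t).symm⟩⟩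
  have hx := ht.comp_equiv e
  set x : Fin r → K := fun i => (e i : K) with hxdef
  have hxi : AlgebraicIndependent ℤ x := hx.1
  let P := MvPolynomial (Fin r) ℤ
  let _ : Algebra P K := (MvPolynomial.aeval x : P →ₐ[ℤ] K).toRingHom.toAlgebra
  have hinj : Function.Injective (algebraMap P K) := hxi
  have : FaithfulSMul P K := (faithfulSMul_iff_algebraMap_injective P K).2 hinj
  have halgP : Algebra.IsAlgebraic P K := by
    have h1 : Algebra.IsAlgebraic (Algebra.adjoin ℤ (Set.range x)) K := hx.isAlgebraic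
    refine Algebra.IsAlgebraic.of_ringHom_of_comp_eq (S := Algebra.adjoin ℤ (Set.range x)) (B := K)
      hxi.aevalEquiv (RingHom.id K) hxi.aevalEquiv.surjective (fun _ _ h => h) ?_
    apply RingHom.ext
    intro P'
    change ((hxi.aevalEquiv P' : Algebra.adjoin ℤ (Set.range x)) : K) = MvPolynomial.aeval x P'
    exact hxi.algebraMap_aevalEquiv P'
  let Q := FractionRing P
  let _ : Algebra Q K := FractionRing.liftAlgebra P K
  have : IsScalarTower P Q K := FractionRing.isScalarTower_liftAlgebra P K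
  have halgQ : Algebra.IsAlgebraic Q K := IsFractionRing.comap_isAlgebraic_iff.1 halgP
  have htop : IntermediateField.adjoin Q (S : Set K) = ⊤ := by
    rw [eq_top_iff]
    intro y _
    refine IntermediateField.adjoin_induction ℚ
      (p := fun y _ => y ∈ IntermediateField.adjoin Q (S : Set K)) ?_ ?_ ?_ ?_ ?_ (hmem y)
    · intro y hy
      exact IntermediateField.subset_adjoin _ _ hy
    · intro q
      rw [eq_ratCast]
      exact SubfieldClass.ratCast_mem _ q
    · intro y z _ _ hy hz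
      exact add_mem hy hz
    · intro y _ hy
      exact inv_mem hy
    · intro y z _ _ hy hz
      exact mul_mem hy hz
  have hfin : FiniteDimensional Q K := by
    have h1 : FiniteDimensional Q (IntermediateField.adjoin Q (S : Set K)) :=
      IntermediateField.finiteDimensional_adjoin (fun y _ => (halgQ.isAlgebraic y).isIntegral)
    rw [htop] at h1
    exact LinearEquiv.finiteDimensional (IntermediateField.topEquiv (F := Q) (E := K)).toLinearEquiv
  let pb := Field.powerBasisOfFiniteOfSeparable Q K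
  set f := minpoly Q pb.gen with hf
  have hfint : IsIntegral Q pb.gen := (halgQ.isAlgebraic pb.gen).isIntegral
  have hfsep : f.Separable := (minpoly.irreducible hfint).separable
  have hfdeg : 0 < f.natDegree := minpoly.natDegree_pos hfint
  obtain ⟨g, U, V, E, b, hb0, hE, hbez, hgdeg, hg⟩ := exists_clear (P := P) f hfsep hfdeg
  obtain ⟨g₀, hg₀, M, hM⟩ := exists_padic_root_all r g _ _ _ hE hbez hgdeg
  refine ⟨g₀, hg₀, M, fun p hpM hp hn => ?_⟩
  have := Fact.mk hp
  obtain ⟨s, hs, z, hz⟩ := hM p hpM hp hn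
  exact embed_aux pb (MvPolynomial.aeval s : P →ₐ[ℤ] ℚ_[p]).toRingHom hs z b hb0 g hg hz

/-- A finitely generated field of characteristic zero embeds into `ℚ_p` for arbitrarily large
primes `p`. -/
theorem exists_embedding {K : Type*} [Field K] [Algebra ℚ K]
    (hK : (⊤ : IntermediateField ℚ K).FG) (N : ℕ) :
    ∃ p, N < p ∧ ∃ hp : p.Prime, haveI := Fact.mk hp; Nonempty (K →+* ℚ_[p]) := by
  obtain ⟨g₀, hg₀, M, hM⟩ := exists_embedding_all hK
  obtain ⟨p, hpN, hp, hn⟩ := exists_prime_root g₀ hg₀ (N + M)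
  exact ⟨p, by omega, hp, hM p (by omega) hp hn⟩

end Pool.Agent.Helper38.Dml
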