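import Mathlib

/-!
# Equidistribution of boxes modulo finitely many primes
-/

set_option autoImplicit false

open Finset Function

namespace Pool.Agent.Helper38.Dml

theorem card_congr_le (m : ℕ) (hm : 0 < m) (H : ℕ) (s : Finset ℤ)
    (hs : s ⊆ Finset.Icc (-(H : ℤ)) H) (hc : ∀ x ∈ s, ∀ y ∈ s, (m : ℤ) ∣ x - y) :
    s.card ≤ 2 * H / m + 1 := by
  have hm' : (0 : ℤ) < m := by exact_mod_cast hm
  have h1 : (Finset.Icc (0 : ℤ) ((2 * H / m : ℕ) : ℤ)).card = 2 * H / m + 1 := by
    rw [Int.card_Icc]
    generalize 2 * H / m = u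
    omega
  rw [← h1]
  refine Finset.card_le_card_of_injOn (fun t : ℤ => (t + (H : ℤ)) / (m : ℤ)) ?_ ?_
  · intro t ht
    have h2 := Finset.mem_Icc.1 (hs ht)
    rw [Finset.mem_coe, Finset.mem_Icc]
    constructor
    · exact Int.ediv_nonneg (by linarith) hm'.le
    · push_cast
      exact Int.ediv_le_ediv hm' (by linarith)
  · intro t ht t' ht' h
    simp only at h
    obtain ⟨z, hz⟩ := hc t ht t' ht'
    have h3 : t + H = (t' + H) + m * z := by linarith
    rw [h3, Int.add_mul_ediv_left _ _ hm'.ne'] at h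
    have hz0 : z = 0 := by linarith
    rw [hz0] at hz
    linarith

/-- the box of height `H` -/
noncomputable def box (α β : Type*) [Fintype α] [Fintype β] [DecidableEq α] [DecidableEq β] (H : ℕ) :
    Finset (α → β → ℤ) :=
  Fintype.piFinset (fun _ : α => Fintype.piFinset (fun _ : β => Finset.Icc (-(H : ℤ)) H))

theorem card_box (α β : Type*) [Fintype α] [Fintype β] [DecidableEq α] [DecidableEq β] (H : ℕ) :
    (box α β H).card = (2 * H + 1) ^ (Fintype.card α * Fintype.card β) := by
  have h1 : (Finset.Icc (-(H : ℤ)) H).card = 2 * H + 1 := by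
    rw [Int.card_Icc]
    omega
  rw [box, Fintype.card_piFinset]
  simp only [Fintype.card_piFinset, Finset.prod_const, Finset.card_univ, h1]
  rw [← pow_mul, mul_comm (Fintype.card β)]

variable {α β ι : Type*} [Fintype α] [Fintype β] [Fintype ι] [DecidableEq α] [DecidableEq β]
  [DecidableEq ι]

/-- Points of the box all of whose reductions lie in given sets. -/
theorem card_box_filter_le (p : ι → ℕ) (hp : ∀ i, (p i).Prime) (hinj : Injective p)
    (B : ∀ i, Finset (α → β → ZMod (p i))) (H : ℕ)
    [DecidablePred (fun c : α → β → ℤ => ∀ i, (fun a b => (c a b : ZMod (p i))) ∈ B i)] :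
    ((box α β H).filter (fun c => ∀ i, (fun a b => (c a b : ZMod (p i))) ∈ B i)).card
      ≤ (2 * H / (∏ i, p i) + 1) ^ (Fintype.card α * Fintype.card β) * ∏ i, (B i).card := by
  classical
  set m := ∏ i, p i with hm
  have hm0 : 0 < m := Finset.prod_pos fun i _ => (hp i).pos
  set s := (box α β H).filter (fun c => ∀ i, (fun a b => (c a b : ZMod (p i))) ∈ B i) with hs
  set ρ : (α → β → ℤ) → (∀ i, α → β → ZMod (p i)) := fun c i a b => (c a b : ZMod (p i)) with hρ
  have h1 : (s.image ρ).card ≤ ∏ i, (B i).card := by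
    rw [← Fintype.card_piFinset]
    apply Finset.card_le_card
    intro r hr
    obtain ⟨c, hc, rfl⟩ := Finset.mem_image.1 hr
    rw [Fintype.mem_piFinset]
    exact (Finset.mem_filter.1 hc).2
  have h2 : ∀ r ∈ s.image ρ, (s.filter (fun c => ρ c = r)).card
      ≤ (2 * H / m + 1) ^ (Fintype.card α * Fintype.card β) := by
    intro r _
    set T : α → β → Finset ℤ := fun a b => (Finset.Icc (-(H : ℤ)) H).filter
      (fun t => ∀ i, (t : ZMod (p i)) = r i a b) with hT
    have h3 : s.filter (fun c => ρ c = r) ⊆ Fintype.piFinset (fun a => Fintype.piFinset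
        (fun b => T a b)) := by
      intro c hc
      obtain ⟨hc1, hc2⟩ := Finset.mem_filter.1 hc
      have hc3 := (Finset.mem_filter.1 hc1).1
      rw [box, Fintype.mem_piFinset] at hc3
      rw [Fintype.mem_piFinset]
      intro a
      have hc4 := hc3 a
      rw [Fintype.mem_piFinset] at hc4 ⊢
      intro b
      rw [hT]
      simp only [Finset.mem_filter]
      refine ⟨hc4 b, fun i => ?_⟩
      rw [← hc2]
    have h4 : ∀ a b, (T a b).card ≤ 2 * H / m + 1 := by
      intro a b
      apply card_congr_le m hm0 H _ (Finset.filter_subset _ _)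
      intro x hx y hy
      have hx2 := (Finset.mem_filter.1 hx).2
      have hy2 := (Finset.mem_filter.1 hy).2
      rw [hm]
      push_cast
      apply Finset.prod_dvd_of_coprime
      · intro i _ j _ hij
        rw [Function.onFun, Nat.isCoprime_iff_coprime]
        exact (Nat.coprime_primes (hp i) (hp j)).2 (fun h => hij (hinj h))
      · intro i _
        rw [← ZMod.intCast_eq_intCast_iff_dvd_sub, hx2 i, hy2 i]
    calc (s.filter (fun c => ρ c = r)).card
        ≤ (Fintype.piFinset (fun a => Fintype.piFinset (fun b => T a b))).card :=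
          Finset.card_le_card h3
      _ = ∏ a, ∏ b, (T a b).card := by
          rw [Fintype.card_piFinset]
          simp only [Fintype.card_piFinset]
      _ ≤ ∏ _a : α, ∏ _b : β, (2 * H / m + 1) := by
          apply Finset.prod_le_prod' fun a _ => ?_
          exact Finset.prod_le_prod' fun b _ => h4 a b
      _ = (2 * H / m + 1) ^ (Fintype.card α * Fintype.card β) := by
          simp only [Finset.prod_const, Finset.card_univ]
          rw [← pow_mul, mul_comm (Fintype.card β)]
  calc s.card ≤ (2 * H / m + 1) ^ (Fintype.card α * Fintype.card β) * (s.image ρ).card :=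
        Finset.card_le_mul_card_image s _ h2
    _ ≤ _ := Nat.mul_le_mul_left _ h1

/-- If each of the sets has density at most `δ` then the points of a large box all of whose
reductions lie in these sets have density at most `2 δ ^ N`. -/
theorem card_box_filter_le_real (p : ι → ℕ) (hp : ∀ i, (p i).Prime) (hinj : Injective p)
    (B : ∀ i, Finset (α → β → ZMod (p i))) (δ : ℝ) (hδ : 0 ≤ δ)
    (hB : ∀ i, ((B i).card : ℝ) ≤ δ * (p i : ℝ) ^ (Fintype.card α * Fintype.card β)) (H : ℕ)
    (hH : 2 * (Fintype.card α * Fintype.card β) * (∏ i, p i) ≤ 2 * H + 1)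
    [DecidablePred (fun c : α → β → ℤ => ∀ i, (fun a b => (c a b : ZMod (p i))) ∈ B i)] :
    (((box α β H).filter (fun c => ∀ i, (fun a b => (c a b : ZMod (p i))) ∈ B i)).card : ℝ)
      ≤ 2 * δ ^ (Fintype.card ι) * ((box α β H).card : ℝ) := by
  have h := card_box_filter_le p hp hinj B H
  rw [card_box]
  set n := Fintype.card α * Fintype.card β with hn
  set m := ∏ i, p i with hm
  have hm0 : 0 < m := Finset.prod_pos fun i _ => (hp i).pos
  have hm0' : (0 : ℝ) < m := by exact_mod_cast hm0
  have h1 : (((box α β H).filter (fun c => ∀ i, (fun a b => (c a b : ZMod (p i))) ∈ B i)).card : ℝ)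
      ≤ (((2 * H / m + 1) ^ n * ∏ i, (B i).card : ℕ) : ℝ) := by exact_mod_cast h
  refine h1.trans ?_
  push_cast
  have h2 : ∏ i, ((B i).card : ℝ) ≤ δ ^ (Fintype.card ι) * (m : ℝ) ^ n := by
    calc ∏ i, ((B i).card : ℝ) ≤ ∏ i, (δ * (p i : ℝ) ^ n) :=
          Finset.prod_le_prod (fun i _ => by positivity) (fun i _ => hB i)
      _ = δ ^ (Fintype.card ι) * (m : ℝ) ^ n := by
          rw [Finset.prod_mul_distrib, Finset.prod_const, Finset.card_univ, Finset.prod_pow, hm]
          push_cast
          rfl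
  have h3 : (((2 * H / m : ℕ) : ℝ) + 1) * m ≤ (2 * H + 1) * (1 + m / (2 * H + 1)) := by
    have h4 : ((2 * H / m : ℕ) : ℝ) * m ≤ 2 * H := by exact_mod_cast Nat.div_mul_le_self _ _
    have h5 : (0 : ℝ) < 2 * H + 1 := by positivity
    have h6 : ((2 * H + 1) * (1 + m / (2 * H + 1)) : ℝ) = 2 * H + 1 + m := by
      field_simp
    rw [h6]
    nlinarith
  have h7 : (1 + (m : ℝ) / (2 * H + 1)) ^ n ≤ 2 := by
    have h8 : (0 : ℝ) < 2 * H + 1 := by positivity
    have h9 : (n : ℝ) * (m / (2 * H + 1)) ≤ 1 / 2 := by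
      rw [mul_div_assoc', div_le_iff₀ h8]
      have : (2 * n * m : ℝ) ≤ 2 * H + 1 := by exact_mod_cast hH
      linarith
    calc (1 + (m : ℝ) / (2 * H + 1)) ^ n ≤ (Real.exp (m / (2 * H + 1))) ^ n := by
          apply pow_le_pow_left₀ (by positivity)
          rw [add_comm]
          exact Real.add_one_le_exp _
      _ = Real.exp (n * (m / (2 * H + 1))) := by rw [← Real.exp_nat_mul]
      _ ≤ Real.exp (1 / 2) := Real.exp_le_exp.2 h9
      _ ≤ 2 := by
          rw [← Real.le_log_iff_exp_le (by norm_num)]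
          have := Real.log_two_gt_d9
          linarith
  have h10 : ((((2 * H / m : ℕ) : ℝ) + 1) * m) ^ n ≤ 2 * (2 * H + 1) ^ n := by
    calc _ ≤ ((2 * H + 1) * (1 + m / (2 * H + 1)) : ℝ) ^ n :=
          pow_le_pow_left₀ (by positivity) h3 n
      _ = (2 * H + 1) ^ n * (1 + m / (2 * H + 1)) ^ n := mul_pow _ _ _
      _ ≤ (2 * H + 1) ^ n * 2 := by
          apply mul_le_mul_of_nonneg_left h7 (by positivity)
      _ = _ := by ring
  calc (((2 * H / m : ℕ) : ℝ) + 1) ^ n * ∏ i, ((B i).card : ℝ)
      ≤ (((2 * H / m : ℕ) : ℝ) + 1) ^ n * (δ ^ (Fintype.card ι) * (m : ℝ) ^ n) :=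
        mul_le_mul_of_nonneg_left h2 (by positivity)
    _ = δ ^ (Fintype.card ι) * ((((2 * H / m : ℕ) : ℝ) + 1) * m) ^ n := by
        rw [mul_pow]; ring
    _ ≤ δ ^ (Fintype.card ι) * (2 * (2 * H + 1) ^ n) :=
        mul_le_mul_of_nonneg_left h10 (by positivity)
    _ = _ := by ring

end Pool.Agent.Helper38.Dml
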