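import Mathlib
import Pool.Agent.Helper38.Dml.Box

/-!
# Equidistribution of boxes modulo finitely many primes, precise form
-/

set_option autoImplicit false

open Finset Function

namespace Pool.Agent.Helper38.Dml

variable {α β ι : Type*} [Fintype α] [Fintype β] [Fintype ι] [DecidableEq α] [DecidableEq β]
  [DecidableEq ι]

open Classical in
/-- If the sets have densities at most `δ i` then the points of a large box all of whose
reductions lie in these sets have density at most `(1 + η) ∏ δ i`. -/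
theorem card_box_filter_le_gen (p : ι → ℕ) (hp : ∀ i, (p i).Prime) (hinj : Injective p)
    (B : ∀ i, Finset (α → β → ZMod (p i))) (δ : ι → ℝ) (hδ : ∀ i, 0 ≤ δ i)
    (hB : ∀ i, ((B i).card : ℝ) ≤ δ i * (p i : ℝ) ^ (Fintype.card α * Fintype.card β))
    (η : ℝ) (hη : 0 < η) : ∃ H₀ : ℕ, ∀ H : ℕ, H₀ ≤ H →
    (((box α β H).filter (fun c => ∀ i, (fun a b => (c a b : ZMod (p i))) ∈ B i)).card : ℝ)
      ≤ (1 + η) * (∏ i, δ i) * ((box α β H).card : ℝ) := by
  set n := Fintype.card α * Fintype.card β with hn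
  set m := ∏ i, p i with hm
  have hm0 : 0 < m := Finset.prod_pos fun i _ => (hp i).pos
  have hm0' : (0 : ℝ) < m := by exact_mod_cast hm0
  have hlog : 0 < Real.log (1 + η) := Real.log_pos (by linarith)
  obtain ⟨H₀, hH₀⟩ := exists_nat_ge ((n : ℝ) * m / Real.log (1 + η))
  refine ⟨H₀, fun H hH => ?_⟩
  have h := card_box_filter_le p hp hinj B H
  rw [card_box]
  have h1 : (((box α β H).filter (fun c => ∀ i, (fun a b => (c a b : ZMod (p i))) ∈ B i)).card : ℝ)
      ≤ (((2 * H / m + 1) ^ n * ∏ i, (B i).card : ℕ) : ℝ) := by exact_mod_cast h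
  refine h1.trans ?_
  push_cast
  have hδ0 : 0 ≤ ∏ i, δ i := Finset.prod_nonneg fun i _ => hδ i
  have h2 : ∏ i, ((B i).card : ℝ) ≤ (∏ i, δ i) * (m : ℝ) ^ n := by
    calc ∏ i, ((B i).card : ℝ) ≤ ∏ i, (δ i * (p i : ℝ) ^ n) :=
          Finset.prod_le_prod (fun i _ => by positivity) (fun i _ => hB i)
      _ = (∏ i, δ i) * (m : ℝ) ^ n := by
          rw [Finset.prod_mul_distrib, Finset.prod_pow, hm]
          push_cast
          rfl
  have h8 : (0 : ℝ) < 2 * H + 1 := by positivity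
  have h3 : (((2 * H / m : ℕ) : ℝ) + 1) * m ≤ (2 * H + 1) * (1 + m / (2 * H + 1)) := by
    have h4 : ((2 * H / m : ℕ) : ℝ) * m ≤ 2 * H := by exact_mod_cast Nat.div_mul_le_self _ _
    have h6 : ((2 * H + 1) * (1 + m / (2 * H + 1)) : ℝ) = 2 * H + 1 + m := by
      field_simp
    rw [h6]
    nlinarith
  have h7 : (1 + (m : ℝ) / (2 * H + 1)) ^ n ≤ 1 + η := by
    have h9 : (n : ℝ) * (m / (2 * H + 1)) ≤ Real.log (1 + η) := by
      rw [mul_div_assoc', div_le_iff₀ h8]
      rw [div_le_iff₀ hlog] at hH₀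
      have h10 : (H₀ : ℝ) ≤ H := by exact_mod_cast hH
      nlinarith
    calc (1 + (m : ℝ) / (2 * H + 1)) ^ n ≤ (Real.exp (m / (2 * H + 1))) ^ n := by
          apply pow_le_pow_left₀ (by positivity)
          rw [add_comm]
          exact Real.add_one_le_exp _
      _ = Real.exp (n * (m / (2 * H + 1))) := by rw [← Real.exp_nat_mul]
      _ ≤ Real.exp (Real.log (1 + η)) := Real.exp_le_exp.2 h9
      _ = 1 + η := Real.exp_log (by linarith)
  have h10 : ((((2 * H / m : ℕ) : ℝ) + 1) * m) ^ n ≤ (1 + η) * (2 * H + 1) ^ n := by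
    calc _ ≤ ((2 * H + 1) * (1 + m / (2 * H + 1)) : ℝ) ^ n :=
          pow_le_pow_left₀ (by positivity) h3 n
      _ = (2 * H + 1) ^ n * (1 + m / (2 * H + 1)) ^ n := mul_pow _ _ _
      _ ≤ (2 * H + 1) ^ n * (1 + η) := by
          apply mul_le_mul_of_nonneg_left h7 (by positivity)
      _ = _ := by ring
  calc (((2 * H / m : ℕ) : ℝ) + 1) ^ n * ∏ i, ((B i).card : ℝ)
      ≤ (((2 * H / m : ℕ) : ℝ) + 1) ^ n * ((∏ i, δ i) * (m : ℝ) ^ n) :=
        mul_le_mul_of_nonneg_left h2 (by positivity)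
    _ = (∏ i, δ i) * ((((2 * H / m : ℕ) : ℝ) + 1) * m) ^ n := by
        rw [mul_pow]; ring
    _ ≤ (∏ i, δ i) * ((1 + η) * (2 * H + 1) ^ n) :=
        mul_le_mul_of_nonneg_left h10 hδ0
    _ = _ := by ring

end Pool.Agent.Helper38.Dml
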