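import Mathlib
import Pool.Agent.Helper38.Dml.Forms
import Pool.Agent.Helper38.Dml.BoxGen
import Pool.Agent.Helper36.Macaulay

/-!
# Assembly in arbitrary dimension
-/

set_option autoImplicit false

open Finset Function MvPolynomial

namespace Pool.Agent.Helper38.Dml

/-- the box of integral tuples of forms of degree `d` with coefficients bounded by `H` -/
def BoxG (m d H : ℕ) : Set (Fin m → MvPolynomial (Fin m) ℤ) :=
  {F | ∀ i, (F i).IsHomogeneous d ∧ ∀ e, |(F i).coeff e| ≤ (H : ℤ)}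

/-- the tuple of forms with given coefficients -/
noncomputable def toFormsG {m d : ℕ} (c : Fin m → Mon m d → ℤ) : Fin m → MvPolynomial (Fin m) ℤ :=
  fun i => frm (c i)

theorem toFormsG_injective {m d : ℕ} : Injective (toFormsG (m := m) (d := d)) := by
  intro c c' h
  funext i
  exact frm_injective (congrFun h i)

theorem BoxG_eq_image (m d H : ℕ) :
    BoxG m d H = toFormsG '' (box (Fin m) (Mon m d) H : Set (Fin m → Mon m d → ℤ)) := by
  ext F
  constructor
  · intro hF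
    refine ⟨fun i e => (F i).coeff e.1, ?_, ?_⟩
    · rw [Finset.mem_coe, box, Fintype.mem_piFinset]
      intro i
      rw [Fintype.mem_piFinset]
      intro e
      rw [Finset.mem_Icc]
      exact abs_le.1 ((hF i).2 e.1)
    · funext i
      exact frm_coeff (hF i).1
  · rintro ⟨c, hc, rfl⟩
    rw [Finset.mem_coe, box, Fintype.mem_piFinset] at hc
    intro i
    refine ⟨frm_isHomogeneous _, fun e => ?_⟩
    by_cases he : e ∈ Finset.finsuppAntidiag (Finset.univ : Finset (Fin m)) d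
    · have h1 := coeff_frm (c i) ⟨e, he⟩
      simp only at h1
      change |coeff e (frm (c i))| ≤ _
      rw [h1]
      have h2 := hc i
      rw [Fintype.mem_piFinset] at h2
      exact abs_le.2 (Finset.mem_Icc.1 (h2 ⟨e, he⟩))
    · change |coeff e (frm (c i))| ≤ _
      rw [coeff_frm_of_not_mem _ _ he, abs_zero]
      positivity

theorem BoxG_finite (m d H : ℕ) : (BoxG m d H).Finite := by
  rw [BoxG_eq_image]
  exact (Finset.finite_toSet _).image _

theorem ncard_BoxG (m d H : ℕ) : (BoxG m d H).ncard = (box (Fin m) (Mon m d) H).card := by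
  rw [BoxG_eq_image, Set.ncard_image_of_injective _ toFormsG_injective, Set.ncard_coe_finset]

/-- no nontrivial common zero -/
def NoZeroG {m : ℕ} (F : Fin m → MvPolynomial (Fin m) ℤ) : Prop :=
  ∀ x : Fin m → ℂ, (∀ i, MvPolynomial.eval x (MvPolynomial.map (Int.castRingHom ℂ) (F i)) = 0) →
    x = 0

open Classical in
theorem card_zero_le (m d : ℕ) (hd : 0 < d) : ∃ C : ℕ, ∀ H : ℕ, ((box (Fin m) (Mon m d) H).filter
      (fun c => ¬ NoZeroG (toFormsG c))).card * (2 * H + 1)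
        ≤ C * (2 * H + 1) ^ (m * Fintype.card (Mon m d)) := by
  obtain ⟨C, hC⟩ := Pool.Agent.Helper36.Macaulay.card_common_zero_le m d hd
  refine ⟨C, fun H => le_trans (Nat.mul_le_mul_right _ (Finset.card_le_card ?_)) (hC H)⟩
  intro c hc
  rw [Finset.mem_filter] at hc ⊢
  refine ⟨hc.1, ?_⟩
  by_contra hcon
  push Not at hcon
  apply hc.2
  intro x hx
  by_contra hx0
  obtain ⟨i, hi⟩ := hcon x hx0
  apply hi
  have h1 := hx i
  rw [toFormsG, map_frm] at h1
  exact h1

open Classical in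
/-- **Assembly.** -/
theorem assembly_gen (m d : ℕ) (hd : 0 < d) (Q : (Fin m → MvPolynomial (Fin m) ℤ) → Prop)
    {ι : Type*} [Fintype ι] (p : ι → ℕ) (hp : ∀ i, (p i).Prime) (hinj : Injective p)
    (B : ∀ i, Finset (Fin m → Mon m d → ZMod (p i))) (δ : ι → ℝ) (hδ : ∀ i, 0 ≤ δ i)
    (hB : ∀ i, ((B i).card : ℝ)
      ≤ δ i * (p i : ℝ) ^ (Fintype.card (Fin m) * Fintype.card (Mon m d)))
    (hQ : ∀ (c : Fin m → Mon m d → ℤ) (i : ι),
      (fun a b => (c a b : ZMod (p i))) ∉ B i → Q (toFormsG c))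
    (η : ℝ) (hη : 0 < η) : ∃ H₀ : ℕ, ∀ H : ℕ, H₀ ≤ H →
      (({F | F ∈ BoxG m d H ∧ ¬ (NoZeroG F ∧ Q F)}.ncard : ℕ) : ℝ)
        ≤ ((∏ i, δ i) + η) * ((BoxG m d H).ncard : ℝ) := by
  have hδ0 : 0 ≤ ∏ i, δ i := Finset.prod_nonneg fun i _ => hδ i
  set P := ∏ i, δ i with hP
  obtain ⟨H₁, hH₁⟩ := card_box_filter_le_gen p hp hinj B δ hδ hB (η / (2 * (P + 1)))
    (by positivity)
  obtain ⟨C, hC⟩ := card_zero_le m d hd
  obtain ⟨H₂, hH₂⟩ := exists_nat_ge (2 * C / η)
  refine ⟨max H₁ H₂, fun H hH => ?_⟩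
  have h1 := hH₁ H (le_trans (le_max_left _ _) hH)
  have h2 := hC H
  set Z := (box (Fin m) (Mon m d) H).filter (fun c => ¬ NoZeroG (toFormsG c)) with hZ
  set W := (box (Fin m) (Mon m d) H).filter (fun c => ∀ i,
          (fun a b => (c a b : ZMod (p i))) ∈ B i) with hW
  have hsub : {F | F ∈ BoxG m d H ∧ ¬ (NoZeroG F ∧ Q F)} ⊆ toFormsG ''
      ((Z ∪ W : Finset (Fin m → Mon m d → ℤ)) : Set (Fin m → Mon m d → ℤ)) := by
    rintro F ⟨hF, hF2⟩
    rw [BoxG_eq_image] at hF
    obtain ⟨c, hc, rfl⟩ := hF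
    refine ⟨c, ?_, rfl⟩
    rw [Finset.mem_coe, Finset.mem_union, hZ, hW, Finset.mem_filter, Finset.mem_filter]
    by_cases hz : NoZeroG (toFormsG c)
    · right
      refine ⟨hc, fun i => ?_⟩
      by_contra hi
      exact hF2 ⟨hz, hQ c i hi⟩
    · left
      exact ⟨hc, hz⟩
  have h3 : ({F | F ∈ BoxG m d H ∧ ¬ (NoZeroG F ∧ Q F)}.ncard : ℝ)
      ≤ (Z.card : ℝ) + (W.card : ℝ) := by
    have h4 := Set.ncard_le_ncard hsub ((Finset.finite_toSet _).image _)
    rw [Set.ncard_image_of_injective _ toFormsG_injective, Set.ncard_coe_finset] at h4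
    have h5 := h4.trans (Finset.card_union_le _ _)
    exact_mod_cast h5
  rw [ncard_BoxG]
  have hbox : (box (Fin m) (Mon m d) H).card = (2 * H + 1) ^ (m * Fintype.card (Mon m d)) := by
    rw [card_box, Fintype.card_fin]
  rw [← hbox] at h2
  clear_value Z W
  generalize (box (Fin m) (Mon m d) H).card = N' at h1 h2 ⊢
  set N : ℝ := (N' : ℝ) with hN
  have hN0 : 0 ≤ N := by positivity
  have hpos : (0 : ℝ) < 2 * H + 1 := by positivity
  have h6 : (Z.card : ℝ) ≤ η / 2 * N := by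
    have h7 : (Z.card : ℝ) * (2 * H + 1) ≤ C * N := by
      rw [hN]
      exact_mod_cast h2
    have h8 : 2 * (C : ℝ) / η ≤ 2 * H + 1 := by
      have : (H₂ : ℝ) ≤ H := by exact_mod_cast le_trans (le_max_right _ _) hH
      linarith
    have h9 : (C : ℝ) ≤ η / 2 * (2 * H + 1) := by
      rw [div_le_iff₀ hη] at h8
      linarith
    have h10 : (Z.card : ℝ) * (2 * H + 1) ≤ (η / 2 * N) * (2 * H + 1) := by
      refine h7.trans ?_
      calc (C : ℝ) * N ≤ (η / 2 * (2 * H + 1)) * N := mul_le_mul_of_nonneg_right h9 hN0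
        _ = _ := by ring
    exact le_of_mul_le_mul_right h10 hpos
  have h11 : (W.card : ℝ) ≤ (P + η / 2) * N := by
    refine h1.trans ?_
    apply mul_le_mul_of_nonneg_right _ hN0
    have h12 : η / (2 * (P + 1)) * P ≤ η / 2 := by
      rw [div_mul_eq_mul_div, div_le_div_iff₀ (by positivity) (by norm_num)]
      nlinarith
    linarith
  calc _ ≤ (Z.card : ℝ) + (W.card : ℝ) := h3
    _ ≤ η / 2 * N + (P + η / 2) * N := add_le_add h6 h11
    _ = (P + η) * N := by ring

end Pool.Agent.Helper38.Dml
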