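import Mathlib

/-!
# Integral forms without zeros over a finite field
-/

set_option autoImplicit false

open Finset MvPolynomial

namespace Pool.Agent.Helper38.Dml

theorem exists_aux (q : ℕ) (hq : 1 < q) (m : ℕ) :
    ∃ A : MvPolynomial (Fin (m + 1)) ℤ, A.IsHomogeneous (2 ^ m * (q - 1)) ∧
      ∀ (E : Type) [Field E] [Fintype E], Fintype.card E = q → ∀ x : Fin (m + 1) → E, x ≠ 0 →
        eval x (MvPolynomial.map (Int.castRingHom E) A) = 1 := by
  have hq1 : q - 1 ≠ 0 := by omega
  induction m with
  | zero =>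
    refine ⟨X 0 ^ (q - 1), ?_, ?_⟩
    · have := (isHomogeneous_X ℤ (0 : Fin 1)).pow (q - 1)
      simpa using this
    · intro E _ _ hE x hx
      have h0 : x 0 ≠ 0 := by
        intro h
        apply hx
        funext i
        have hi : i = 0 := Fin.ext (by have := i.2; omega)
        rw [hi, h]
        rfl
      simp only [map_pow, map_X, eval_X]
      rw [← hE]
      exact FiniteField.pow_card_sub_one_eq_one _ h0
  | succ m ih =>
    obtain ⟨A, hA, hA1⟩ := ih
    set D := 2 ^ m * (q - 1) with hD
    have hD0 : D ≠ 0 := by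
      rw [hD]; exact mul_ne_zero (by positivity) hq1
    have hD2 : 2 ^ (m + 1) * (q - 1) = 2 * D := by rw [hD, pow_succ]; ring
    refine ⟨(rename Fin.succ A) ^ 2 - (rename Fin.succ A) * X 0 ^ D + X 0 ^ (2 * D), ?_, ?_⟩
    · rw [hD2]
      have h1 : (rename (Fin.succ : Fin (m + 1) → Fin (m + 1 + 1)) A).IsHomogeneous D :=
        hA.rename_isHomogeneous
      have h2 : (X 0 ^ D : MvPolynomial (Fin (m + 1 + 1)) ℤ).IsHomogeneous D := by
        have := (isHomogeneous_X ℤ (0 : Fin (m + 1 + 1))).pow D
        rwa [one_mul] at this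
      have h3 : (X 0 ^ (2 * D) : MvPolynomial (Fin (m + 1 + 1)) ℤ).IsHomogeneous (2 * D) := by
        have := (isHomogeneous_X ℤ (0 : Fin (m + 1 + 1))).pow (2 * D)
        rwa [one_mul] at this
      have h4 : ((rename (Fin.succ : Fin (m + 1) → Fin (m + 1 + 1)) A) ^ 2).IsHomogeneous
          (2 * D) := by
        have := h1.pow 2
        rwa [mul_comm] at this
      have h5 : ((rename (Fin.succ : Fin (m + 1) → Fin (m + 1 + 1)) A) * X 0 ^ D).IsHomogeneous
          (2 * D) := by
        have := h1.mul h2
        rwa [← two_mul] at this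
      exact (h4.sub h5).add h3
    · intro E _ _ hE x hx
      classical
      have hA0 : eval (0 : Fin (m + 1) → E) (MvPolynomial.map (Int.castRingHom E) A) = 0 := by
        have h1 : (MvPolynomial.map (Int.castRingHom E) A).IsHomogeneous D := hA.map _
        rw [eval_zero, constantCoeff_eq]
        apply h1.coeff_eq_zero
        rw [map_zero]
        exact hD0.symm
      have hα : ∀ y : Fin (m + 1) → E,
          eval y (MvPolynomial.map (Int.castRingHom E) A) = if y = 0 then 0 else 1 := by
        intro y
        split_ifs with h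
        · rw [h, hA0]
        · exact hA1 E hE y h
      have hβ : ∀ z : E, z ^ D = if z = 0 then 0 else 1 := by
        intro z
        split_ifs with h
        · rw [h, zero_pow hD0]
        · rw [hD, mul_comm, pow_mul, ← hE, FiniteField.pow_card_sub_one_eq_one _ h, one_pow]
      have hren : eval x (MvPolynomial.map (Int.castRingHom E) (rename Fin.succ A))
          = eval (fun i => x (Fin.succ i)) (MvPolynomial.map (Int.castRingHom E) A) := by
        rw [map_rename, eval_rename]
        rfl
      simp only [map_add, map_sub, map_mul, map_pow, map_X, eval_X, pow_mul']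
      rw [hren, hα, hβ]
      by_cases h0 : x 0 = 0
      · have h1 : (fun i : Fin (m + 1) => x (Fin.succ i)) ≠ 0 := by
          intro h
          apply hx
          funext i
          refine Fin.cases h0 (fun j => congrFun h j) i
        rw [if_neg h1, if_pos h0]
        ring
      · rw [if_neg h0]
        split_ifs <;> ring

/-- for every `d` a form `A` without zeros over the field with `q = p ^ f` elements such that
`d + deg A` is not divisible by `p` -/
theorem exists_twist (m p f : ℕ) (hp : p.Prime) (hp2 : p ≠ 2) (hf : f ≠ 0) (d : ℕ) :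
    ∃ (e : ℕ) (A : MvPolynomial (Fin (m + 1)) ℤ), A.IsHomogeneous e ∧ ¬ p ∣ d + e ∧
      ∀ (E : Type) [Field E] [Fintype E], Fintype.card E = p ^ f →
        ∀ x : Fin (m + 1) → E, x ≠ 0 →
          eval x (MvPolynomial.map (Int.castRingHom E) A) = 1 := by
  by_cases hd : p ∣ d
  · obtain ⟨A, hA, hA1⟩ := exists_aux (p ^ f) (Nat.one_lt_pow hf hp.one_lt) m
    refine ⟨_, A, hA, ?_, hA1⟩
    intro h
    have h1 : p ∣ 2 ^ m * (p ^ f - 1) := (Nat.dvd_add_right hd).1 h
    rcases (Nat.Prime.dvd_mul hp).1 h1 with h2 | h2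
    · exact hp2 ((Nat.prime_dvd_prime_iff_eq hp Nat.prime_two).1 (hp.dvd_of_dvd_pow h2))
    · have h3 : p ∣ p ^ f := dvd_pow_self p hf
      have h4 : 1 ≤ p ^ f := Nat.one_le_pow _ _ hp.pos
      have h5 : p ∣ p ^ f - (p ^ f - 1) := Nat.dvd_sub h3 h2
      have h6 : p ^ f - (p ^ f - 1) = 1 := by omega
      rw [h6] at h5
      exact hp.one_lt.ne' (Nat.dvd_one.1 h5)
  · refine ⟨0, 1, isHomogeneous_one _ _, by simpa using hd, ?_⟩
    intro E _ _ _ x _
    simp

end Pool.Agent.Helper38.Dml
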