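import Mathlib
import Pool.Agent.Helper38.Dml.RandomMap

/-!
# The number of self-maps all of whose orbits meet a given set
-/

set_option autoImplicit false

open Finset Function

namespace Pool.Agent.Helper38.Dml

variable {X : Type*} [Fintype X] [DecidableEq X]

/-- every orbit meets `C` -/
def Reach (f : X → X) (C : Finset X) : Prop := ∀ x, ∃ j, f^[j] x ∈ C

/-- `y` meets `C` for the first time in `w` -/
def First (f : X → X) (C : Finset X) (w y : X) : Prop :=
  ∃ j, f^[j] y = w ∧ ∀ i < j, f^[i] y ∉ C

omit [Fintype X] in
theorem iterate_update_avoid (f : X → X) (w z y : X) (j : ℕ) (h : ∀ i < j, f^[i] y ≠ w) :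
    (update f w z)^[j] y = f^[j] y := by
  induction j with
  | zero => rfl
  | succ j ih =>
    rw [iterate_succ_apply', iterate_succ_apply', ih (fun i hi => h i (by omega)),
      update_of_ne (h j (by omega))]

omit [Fintype X] in
theorem first_update {f : X → X} {C : Finset X} {w : X} (hw : w ∈ C) (z y v : X)
    (h : First f C v y) : First (update f w z) C v y := by
  obtain ⟨j, hj, hlt⟩ := h
  have key : ∀ i ≤ j, (update f w z)^[i] y = f^[i] y := by
    intro i hi
    apply iterate_update_avoid
    intro l hl h
    exact hlt l (by omega) (h ▸ hw)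
  refine ⟨j, by rw [key j le_rfl, hj], fun i hi => ?_⟩
  rw [key i hi.le]
  exact hlt i hi

omit [Fintype X] in
theorem first_update_iff {f : X → X} {C : Finset X} {w : X} (hw : w ∈ C) (z y v : X) :
    First (update f w z) C v y ↔ First f C v y := by
  constructor
  · intro h
    have h1 := first_update hw (f w) y v h
    rwa [update_idem, update_eq_self] at h1
  · exact first_update hw z y v

omit [Fintype X] in
theorem exists_first {f : X → X} {C : Finset X} {y : X} (h : ∃ j, f^[j] y ∈ C) :
    ∃ v ∈ C, First f C v y := by
  classical
  refine ⟨f^[Nat.find h] y, Nat.find_spec h, Nat.find h, rfl, fun i hi => Nat.find_min h hi⟩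

omit [Fintype X] in
theorem reach_iff_first {f : X → X} {C : Finset X} : Reach f C ↔ ∀ y, ∃ v ∈ C, First f C v y := by
  constructor
  · intro h y
    exact exists_first (h y)
  · intro h y
    obtain ⟨v, hv, j, hj, _⟩ := h y
    exact ⟨j, by rw [hj]; exact hv⟩

omit [Fintype X] in
theorem reach_update_iff {f : X → X} {C : Finset X} {w : X} (hw : w ∈ C) (z : X) :
    Reach (update f w z) C ↔ Reach f C := by
  rw [reach_iff_first, reach_iff_first]
  simp only [first_update_iff hw]

omit [Fintype X] in
theorem first_unique {f : X → X} {C : Finset X} {v v' y : X} (hv : v ∈ C) (hv' : v' ∈ C)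
    (h : First f C v y) (h' : First f C v' y) : v = v' := by
  obtain ⟨j, hj, hlt⟩ := h
  obtain ⟨j', hj', hlt'⟩ := h'
  rcases lt_trichotomy j j' with hjj | hjj | hjj
  · exact absurd (hj ▸ hv) (hlt' j hjj)
  · rw [← hj, ← hj', hjj]
  · exact absurd (hj' ▸ hv') (hlt j' hjj)

omit [Fintype X] in
/-- removing a point from the target set -/
theorem not_reach_erase_iff {f : X → X} {C : Finset X} {w : X} (h : Reach f C) :
    ¬ Reach f (C.erase w) ↔ First f C w (f w) := by
  constructor
  · intro hn
    obtain ⟨v, hv, hfv⟩ := exists_first (h (f w))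
    by_cases hvw : v = w
    · rw [← hvw]; rw [hvw] at hfv ⊢; exact hfv
    · exfalso
      apply hn
      obtain ⟨j, hj, _⟩ := hfv
      have hw' : ∃ j, f^[j] w ∈ C.erase w :=
        ⟨j + 1, by rw [iterate_succ_apply, hj]; exact Finset.mem_erase.2 ⟨hvw, hv⟩⟩
      intro x
      obtain ⟨u, hu, l, hl, _⟩ := exists_first (h x)
      by_cases huw : u = w
      · obtain ⟨i, hi⟩ := hw'
        exact ⟨i + l, by rw [iterate_add_apply, hl, huw]; exact hi⟩
      · exact ⟨l, by rw [hl]; exact Finset.mem_erase.2 ⟨huw, hu⟩⟩
  · rintro ⟨j, hj, hlt⟩ hr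
    -- the orbit of `w` meets `C` in `w` only
    have hper : f^[j + 1] w = w := by rw [iterate_succ_apply, hj]
    obtain ⟨l, hl⟩ := hr w
    rw [Finset.mem_erase] at hl
    have hmod : f^[l % (j + 1)] w = f^[l] w := by
      conv_rhs => rw [← Nat.mod_add_div l (j + 1)]
      rw [iterate_add_apply, iterate_mul]
      have : (f^[j + 1])^[l / (j + 1)] w = w := iterate_fixed hper _
      rw [this]
    rw [← hmod] at hl
    rcases Nat.eq_zero_or_pos (l % (j + 1)) with h0 | h0
    · rw [h0] at hl
      exact hl.1 rfl
    · obtain ⟨i, hi⟩ := Nat.exists_eq_succ_of_ne_zero h0.ne'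
      have hlt2 : l % (j + 1) < j + 1 := Nat.mod_lt _ (Nat.succ_pos j)
      rw [hi, Nat.succ_eq_add_one] at hl hlt2
      rw [iterate_succ_apply] at hl
      exact hlt i (by omega) hl.2

open Classical in
/-- number of self-maps all of whose orbits meet `C` -/
noncomputable def nReach (C : Finset X) : ℕ := (univ.filter (fun f : X → X => Reach f C)).card

theorem nReach_conj (σ : Equiv.Perm X) (C : Finset X) : nReach (C.map σ.toEmbedding) = nReach C := by
  classical
  rw [nReach, nReach]
  have hit : ∀ (τ : Equiv.Perm X) (f : X → X) (j : ℕ) (x : X),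
      (fun x => τ (f (τ.symm x)))^[j] x = τ (f^[j] (τ.symm x)) := by
    intro τ f j
    induction j with
    | zero => intro x; simp
    | succ j ih =>
      intro x
      rw [iterate_succ_apply', ih, iterate_succ_apply']
      simp
  refine Finset.card_nbij' (fun f x => σ.symm (f (σ x))) (fun f x => σ (f (σ.symm x))) ?_ ?_ ?_ ?_
  · intro f hf
    rw [Finset.mem_coe, mem_filter] at hf ⊢
    refine ⟨mem_univ _, fun x => ?_⟩
    obtain ⟨j, hj⟩ := hf.2 (σ x)
    refine ⟨j, ?_⟩
    have h1 := hit σ.symm f j x
    simp only [Equiv.symm_symm] at h1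
    rw [h1]
    rw [Finset.mem_map] at hj
    obtain ⟨c, hc, hc2⟩ := hj
    rw [← hc2]
    simpa using hc
  · intro f hf
    rw [Finset.mem_coe, mem_filter] at hf ⊢
    refine ⟨mem_univ _, fun x => ?_⟩
    obtain ⟨j, hj⟩ := hf.2 (σ.symm x)
    refine ⟨j, ?_⟩
    rw [hit σ f j x, Finset.mem_map]
    exact ⟨_, hj, rfl⟩
  · intro f _
    funext x
    simp
  · intro f _
    funext x
    simp

theorem nReach_eq_of_card {C C' : Finset X} (h : C.card = C'.card) : nReach C = nReach C' := by
  obtain ⟨σ, hσ⟩ : ∃ σ : Equiv.Perm X, C.map σ.toEmbedding = C' := by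
    have e : C ≃ C' := Finset.equivOfCardEq h
    refine ⟨Equiv.extendSubtype e, ?_⟩
    ext x
    rw [Finset.mem_map]
    constructor
    · rintro ⟨y, hy, rfl⟩
      exact Equiv.extendSubtype_mem e y hy
    · intro hx
      refine ⟨e.symm ⟨x, hx⟩, (e.symm ⟨x, hx⟩).2, ?_⟩
      change Equiv.extendSubtype e _ = _
      rw [Equiv.extendSubtype_apply_of_mem e _ (e.symm ⟨x, hx⟩).2]
      simp
  rw [← hσ, nReach_conj]

/-- **The number of self-maps all of whose orbits meet `C`.** -/
theorem card_reach (C : Finset X) :
    Fintype.card X * nReach C = C.card * Fintype.card (X → X) := by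
  classical
  obtain ⟨k, hk⟩ : ∃ k, k + C.card = Fintype.card X :=
    ⟨Fintype.card X - C.card, Nat.sub_add_cancel (Finset.card_le_univ C)⟩
  induction k generalizing C with
  | zero =>
    have hC : C = univ := by
      rw [← Finset.card_eq_iff_eq_univ]
      omega
    have h1 : nReach C = Fintype.card (X → X) := by
      rw [nReach, Finset.filter_true_of_mem, Finset.card_univ]
      intro f _ x
      exact ⟨0, by rw [hC]; exact mem_univ _⟩
    rw [h1, hC, Finset.card_univ]
  | succ k ih =>
    obtain ⟨v, hv⟩ : ∃ v, v ∉ C := by
      by_contra h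
      push Not at h
      have : C = univ := Finset.eq_univ_iff_forall.2 h
      rw [this, Finset.card_univ] at hk
      omega
    set C' := insert v C with hC'
    have hcard : C'.card = C.card + 1 := Finset.card_insert_of_notMem hv
    have hI := ih C' (by omega)
    have hn : 0 < Fintype.card X := Fintype.card_pos_iff.2 ⟨v⟩
    set D : X → ℕ := fun w => (univ.filter (fun f : X → X => Reach f C' ∧
      First f C' w (f w))).card with hD
    have h1 : ∀ w ∈ C', nReach C' = nReach C + D w := by
      intro w hw
      have h2 : nReach C = nReach (C'.erase w) := by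
        apply nReach_eq_of_card
        rw [Finset.card_erase_of_mem hw]
        omega
      rw [h2, nReach, nReach]
      have h3 : (univ.filter (fun f : X → X => Reach f (C'.erase w)))
          = ((univ.filter (fun f : X → X => Reach f C')).filter
            (fun f => Reach f (C'.erase w))) := by
        rw [Finset.filter_filter]
        apply Finset.filter_congr
        intro f _
        constructor
        · intro h
          refine ⟨fun x => ?_, h⟩
          obtain ⟨j, hj⟩ := h x
          exact ⟨j, Finset.mem_of_mem_erase hj⟩
        · exact fun h => h.2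
      have h4 : D w = ((univ.filter (fun f : X → X => Reach f C')).filter
            (fun f => ¬ Reach f (C'.erase w))).card := by
        rw [hD, Finset.filter_filter]
        simp only
        congr 1
        apply Finset.filter_congr
        intro f _
        constructor
        · rintro ⟨h5, h6⟩
          exact ⟨h5, (not_reach_erase_iff h5).2 h6⟩
        · rintro ⟨h5, h6⟩
          exact ⟨h5, (not_reach_erase_iff h5).1 h6⟩
      rw [h3, h4, Finset.card_filter_add_card_filter_not]
    have h5 : ∀ w ∈ C', Fintype.card X * D w
        = ∑ f ∈ univ.filter (fun f : X → X => Reach f C'),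
          (univ.filter (fun y => First f C' w y)).card := by
      intro w hw
      have h6 := update_count (univ.filter (fun f : X → X => Reach f C')) (fun _ => w)
        (fun f y => First f C' w y) (by
          intro f hf y
          rw [mem_filter] at hf ⊢
          exact ⟨mem_univ _, (reach_update_iff hw y).2 hf.2⟩) (fun _ _ _ => rfl) (by
          intro f _ y z
          exact first_update_iff hw y z w)
      rw [← h6, hD, Finset.filter_filter]
    have h7 : Fintype.card X * ∑ w ∈ C', D w = Fintype.card X * nReach C' := by
      rw [Finset.mul_sum, Finset.sum_congr rfl h5, Finset.sum_comm]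
      have h8 : ∀ f ∈ univ.filter (fun f : X → X => Reach f C'),
          ∑ w ∈ C', (univ.filter (fun y => First f C' w y)).card = Fintype.card X := by
        intro f hf
        rw [mem_filter] at hf
        rw [← Finset.card_biUnion]
        · rw [← Finset.card_univ]
          congr 1
          rw [Finset.eq_univ_iff_forall]
          intro y
          obtain ⟨u, hu, h9⟩ := (reach_iff_first.1 hf.2) y
          rw [mem_biUnion]
          exact ⟨u, hu, by rw [mem_filter]; exact ⟨mem_univ _, h9⟩⟩
        · intro u hu u' hu' huu
          rw [Function.onFun, Finset.disjoint_left]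
          intro y hy hy'
          rw [mem_filter] at hy hy'
          exact huu (first_unique hu hu' hy.2 hy'.2)
      rw [Finset.sum_congr rfl h8, Finset.sum_const, smul_eq_mul, nReach, mul_comm]
    have h8 : ∑ w ∈ C', D w = nReach C' := Nat.eq_of_mul_eq_mul_left hn h7
    have h9 : C'.card * nReach C' = C'.card * nReach C + nReach C' := by
      calc C'.card * nReach C' = ∑ w ∈ C', nReach C' := by rw [Finset.sum_const, smul_eq_mul]
        _ = ∑ w ∈ C', (nReach C + D w) := Finset.sum_congr rfl h1
        _ = C'.card * nReach C + nReach C' := by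
            rw [Finset.sum_add_distrib, Finset.sum_const, smul_eq_mul, h8]
    rw [hcard] at h9 hI
    have h10 : C.card * nReach C' = (C.card + 1) * nReach C := by
      have : (C.card + 1) * nReach C' = C.card * nReach C' + nReach C' := by ring
      omega
    have h11 : (C.card + 1) * (Fintype.card X * nReach C)
        = (C.card + 1) * (C.card * Fintype.card (X → X)) := by
      calc (C.card + 1) * (Fintype.card X * nReach C)
          = Fintype.card X * ((C.card + 1) * nReach C) := by ring
        _ = Fintype.card X * (C.card * nReach C') := by rw [h10]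
        _ = C.card * (Fintype.card X * nReach C') := by ring
        _ = C.card * ((C.card + 1) * Fintype.card (X → X)) := by rw [hI]
        _ = _ := by ring
    exact Nat.eq_of_mul_eq_mul_left (Nat.succ_pos _) h11

end Pool.Agent.Helper38.Dml
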