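import Mathlib
import Pool.Agent.Helper38.Dml.Reach

/-!
# The law of the number of cyclic points of a random self-map
-/

set_option autoImplicit false

open Finset Function

namespace Pool.Agent.Helper38.Dml

variable {X : Type*} [Fintype X] [DecidableEq X]

omit [Fintype X] [DecidableEq X] in
/-- whether all orbits meet `C` does not depend on the values on `C` -/
theorem reach_of_eq_off {f f' : X → X} {C : Finset X} (h : ∀ x, x ∉ C → f x = f' x)
    (hf : Reach f C) : Reach f' C := by
  intro x
  obtain ⟨j, hj⟩ := hf x
  induction j generalizing x with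
  | zero => exact ⟨0, hj⟩
  | succ j ih =>
    by_cases hx : x ∈ C
    · exact ⟨0, hx⟩
    · rw [iterate_succ_apply, h x hx] at hj
      obtain ⟨i, hi⟩ := ih (f' x) hj
      exact ⟨i + 1, by rw [iterate_succ_apply]; exact hi⟩

omit [DecidableEq X] in
/-- the periodic points form exactly the set `C` if and only if all orbits meet `C` and `f` induces
a permutation of `C` -/
theorem periodicPts_eq_iff (f : X → X) (C : Finset X) :
    periodicPts f = (C : Set X) ↔ Reach f C ∧ (∀ x ∈ C, f x ∈ C) ∧
      (∀ x ∈ C, ∀ y ∈ C, f x = f y → x = y) := by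
  constructor
  · intro h
    refine ⟨?_, ?_, ?_⟩
    · intro x
      obtain ⟨i, j, hij, hx⟩ := Finite.exists_ne_map_eq_of_infinite (fun n : ℕ => f^[n] x)
      wlog hlt : i < j generalizing i j
      · exact this j i hij.symm hx.symm (lt_of_le_of_ne (not_lt.1 hlt) hij.symm)
      refine ⟨i, ?_⟩
      have h1 : f^[i] x ∈ periodicPts f := by
        refine ⟨j - i, by omega, ?_⟩
        change f^[j - i] (f^[i] x) = f^[i] x
        rw [← iterate_add_apply, Nat.sub_add_cancel hlt.le]
        exact hx.symm
      rw [h] at h1
      exact h1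
    · intro x hx
      have h1 : x ∈ periodicPts f := by rw [h]; exact hx
      have h2 : f x ∈ periodicPts f := by
        have := (bijOn_periodicPts f).mapsTo h1
        exact this
      rw [h] at h2
      exact h2
    · intro x hx y hy hxy
      have h1 : x ∈ periodicPts f := by rw [h]; exact hx
      have h2 : y ∈ periodicPts f := by rw [h]; exact hy
      exact (bijOn_periodicPts f).injOn h1 h2 hxy
  · rintro ⟨hr, hmap, hinj⟩
    have hit : ∀ j, ∀ x ∈ C, f^[j] x ∈ C := by
      intro j
      induction j with
      | zero => intro x hx; exact hx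
      | succ j ih => intro x hx; rw [iterate_succ_apply]; exact ih _ (hmap x hx)
    have hinjit : ∀ j, ∀ x ∈ C, ∀ y ∈ C, f^[j] x = f^[j] y → x = y := by
      intro j
      induction j with
      | zero => intro x _ y _ h; exact h
      | succ j ih =>
        intro x hx y hy h
        rw [iterate_succ_apply, iterate_succ_apply] at h
        exact hinj x hx y hy (ih _ (hmap x hx) _ (hmap y hy) h)
    apply Set.Subset.antisymm
    · rintro x ⟨n, hn, hx⟩
      obtain ⟨j, hj⟩ := hr x
      have h1 : f^[n * j] x = x := by
        rw [iterate_mul]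
        exact iterate_fixed hx j
      rcases Nat.eq_zero_or_pos j with h0 | h0
      · rw [h0] at hj; exact hj
      · have h2 : n * j = (n * j - j) + j := by
          rw [Nat.sub_add_cancel]
          exact Nat.le_mul_of_pos_left j hn
        rw [h2, iterate_add_apply] at h1
        rw [← h1]
        exact hit _ _ hj
    · intro x hx
      obtain ⟨i, j, hij, hxx⟩ := Finite.exists_ne_map_eq_of_infinite (fun n : ℕ => f^[n] x)
      wlog hlt : i < j generalizing i j
      · exact this j i hij.symm hxx.symm (lt_of_le_of_ne (not_lt.1 hlt) hij.symm)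
      refine ⟨j - i, by omega, ?_⟩
      change f^[j - i] x = x
      have h2 : f^[i] (f^[j - i] x) = f^[i] x := by
        rw [← iterate_add_apply, Nat.add_sub_cancel' hlt.le]
        exact hxx.symm
      exact hinjit i _ (hit _ _ hx) _ hx h2

open Classical in
theorem card_periodic_eq (C : Finset X) :
    (univ.filter (fun f : X → X => periodicPts f = (C : Set X))).card
      * Fintype.card X ^ C.card = C.card.factorial * nReach C := by
  -- fibres of the restriction to `C`
  set a : (C → X) → ℕ := fun g =>
    (univ.filter (fun f : X → X => Reach f C ∧ (fun x : C => f x) = g)).card with ha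
  have hconst : ∀ g g', a g ≤ a g' := by
    intro g g'
    rw [ha]
    apply Finset.card_le_card_of_injOn
      (fun f x => if h : x ∈ C then g' ⟨x, h⟩ else f x)
    · intro f hf
      rw [Finset.mem_coe, mem_filter] at hf ⊢
      refine ⟨mem_univ _, ?_, ?_⟩
      · refine reach_of_eq_off ?_ hf.2.1
        intro x hx
        simp only
        rw [dif_neg hx]
      · funext x
        simp only
        rw [dif_pos x.2]
    · intro f hf f' hf' h
      rw [Finset.mem_coe, mem_filter] at hf hf'
      funext x
      by_cases hx : x ∈ C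
      · have h1 := congrFun hf.2.2 ⟨x, hx⟩
        have h2 := congrFun hf'.2.2 ⟨x, hx⟩
        exact h1.trans h2.symm
      · have h1 := congrFun h x
        simp only [dif_neg hx] at h1
        exact h1
  have hconst' : ∀ g g', a g = a g' := fun g g' => le_antisymm (hconst g g') (hconst g' g)
  have hsum : nReach C = ∑ g : C → X, a g := by
    rw [nReach, ha]
    rw [Finset.card_eq_sum_card_fiberwise (f := fun f (x : C) => f (x : X)) (t := univ)
      (fun _ _ => mem_univ _)]
    apply Finset.sum_congr rfl
    intro g _
    rw [Finset.filter_filter]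
  have hsum2 : (univ.filter (fun f : X → X => periodicPts f = (C : Set X))).card
      = ∑ σ : Equiv.Perm C, a (fun x => ((σ x : C) : X)) := by
    rw [← Finset.card_sigma]
    symm
    refine Finset.card_nbij (fun p => p.2) ?_ ?_ ?_
    · rintro ⟨σ, f⟩ hp
      rw [Finset.mem_coe, Finset.mem_sigma, mem_filter] at hp
      rw [Finset.mem_coe, mem_filter]
      refine ⟨mem_univ _, (periodicPts_eq_iff f C).2 ⟨hp.2.2.1, ?_, ?_⟩⟩
      · intro x hx
        have h1 := congrFun hp.2.2.2 ⟨x, hx⟩
        simp only at h1
        rw [h1]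
        exact (σ ⟨x, hx⟩).2
      · intro x hx y hy hxy
        have h1 := congrFun hp.2.2.2 ⟨x, hx⟩
        have h2 := congrFun hp.2.2.2 ⟨y, hy⟩
        simp only at h1 h2
        rw [h1, h2] at hxy
        have h3 := σ.injective (Subtype.ext hxy)
        exact congrArg Subtype.val h3
    · rintro ⟨σ, f⟩ hp ⟨σ', f'⟩ hp' h
      rw [Finset.mem_coe, Finset.mem_sigma, mem_filter] at hp hp'
      simp only at h
      subst h
      have h1 : σ = σ' := by
        ext x
        have h2 := congrFun hp.2.2.2 x
        have h3 := congrFun hp'.2.2.2 x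
        simp only at h2 h3
        rw [← h2, ← h3]
      subst h1
      rfl
    · intro f hf
      rw [Finset.mem_coe, mem_filter] at hf
      obtain ⟨h1, h2, h3⟩ := (periodicPts_eq_iff f C).1 hf.2
      let g : C → C := fun x => ⟨f x, h2 x x.2⟩
      have hg : Injective g := by
        intro x y hxy
        exact Subtype.ext (h3 x x.2 y y.2 (congrArg Subtype.val hxy))
      refine ⟨⟨Equiv.ofBijective g (Finite.injective_iff_bijective.1 hg), f⟩, ?_, rfl⟩
      rw [Finset.mem_coe, Finset.mem_sigma, mem_filter]
      exact ⟨mem_univ _, mem_univ _, h1, rfl⟩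
  rcases isEmpty_or_nonempty (C → X) with hE | ⟨⟨g₀⟩⟩
  · exfalso
    exact hE.false (fun x => x)
  · have h1 : nReach C = Fintype.card X ^ C.card * a g₀ := by
      rw [hsum, Finset.sum_congr rfl (fun g _ => hconst' g g₀), Finset.sum_const, Finset.card_univ,
        Fintype.card_fun, Fintype.card_coe, smul_eq_mul]
    have h2 : (univ.filter (fun f : X → X => periodicPts f = (C : Set X))).card
        = C.card.factorial * a g₀ := by
      rw [hsum2, Finset.sum_congr rfl (fun σ _ => hconst' _ g₀), Finset.sum_const, Finset.card_univ,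
        Fintype.card_perm, Fintype.card_coe, smul_eq_mul]
    rw [h1, h2]
    ring

open Classical in
/-- the number of self-maps with `k` cyclic points -/
theorem card_cyc_eq (k : ℕ) :
    (univ.filter (fun f : X → X => cyc f = k)).card * Fintype.card X ^ (k + 1)
      = (Fintype.card X).descFactorial k * k * Fintype.card (X → X) := by
  have h1 : (univ.filter (fun f : X → X => cyc f = k)).card
      = ∑ C ∈ (univ : Finset X).powersetCard k,
        (univ.filter (fun f : X → X => periodicPts f = (C : Set X))).card := by
    rw [← Finset.card_biUnion]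
    · congr 1
      ext f
      rw [mem_filter, mem_biUnion]
      constructor
      · rintro ⟨_, h⟩
        refine ⟨univ.filter (fun x => x ∈ periodicPts f), ?_, ?_⟩
        · rw [mem_powersetCard]
          exact ⟨subset_univ _, h⟩
        · rw [mem_filter]
          refine ⟨mem_univ _, ?_⟩
          ext x
          simp
      · rintro ⟨C, hC, hf⟩
        rw [mem_powersetCard] at hC
        rw [mem_filter] at hf
        refine ⟨mem_univ _, ?_⟩
        rw [cyc, ← hC.2]
        congr 1
        ext x
        rw [mem_filter, hf.2]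
        simp
    · intro C _ C' _ hne
      rw [Function.onFun, Finset.disjoint_left]
      intro f hf hf'
      rw [mem_filter] at hf hf'
      exact hne (Finset.coe_injective (hf.2.symm.trans hf'.2))
  have h2 : ∀ C ∈ (univ : Finset X).powersetCard k,
      (univ.filter (fun f : X → X => periodicPts f = (C : Set X))).card
        * Fintype.card X ^ (k + 1) = k.factorial * (k * Fintype.card (X → X)) := by
    intro C hC
    rw [mem_powersetCard] at hC
    have h3 := card_periodic_eq C
    have h4 := card_reach C
    rw [hC.2] at h3 h4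
    calc _ = ((univ.filter (fun f : X → X => periodicPts f = (C : Set X))).card
        * Fintype.card X ^ k) * Fintype.card X := by rw [pow_succ, mul_assoc]
      _ = k.factorial * (Fintype.card X * nReach C) := by rw [h3]; ring
      _ = _ := by rw [h4]
  rw [h1, Finset.sum_mul, Finset.sum_congr rfl h2, Finset.sum_const, Finset.card_powersetCard,
    Finset.card_univ, smul_eq_mul, Nat.descFactorial_eq_factorial_mul_choose]
  ring

/-- lower bound for the number of self-maps with at most `K` cyclic points -/
theorem card_cyc_le_lower (K : ℕ) (hK : 2 * K ^ 2 ≤ Fintype.card X) :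
    (K : ℝ) ^ 2 / (4 * Fintype.card X) * (Fintype.card (X → X) : ℝ)
      ≤ ((univ.filter (fun f : X → X => cyc f ≤ K)).card : ℝ) := by
  classical
  set n := Fintype.card X with hn
  rcases Nat.eq_zero_or_pos K with hK0 | hK0
  · rw [hK0]
    simp
  have hn0 : 0 < n := by
    have : 0 < K ^ 2 := by positivity
    omega
  have hnR : (0 : ℝ) < n := by exact_mod_cast hn0
  have hW : (0 : ℝ) ≤ (Fintype.card (X → X) : ℝ) := by positivity
  have h1 : ∀ k ∈ Finset.Icc 1 K, (k : ℝ) / (2 * n) * (Fintype.card (X → X) : ℝ)
      ≤ ((univ.filter (fun f : X → X => cyc f = k)).card : ℝ) := by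
    intro k hk
    rw [Finset.mem_Icc] at hk
    have hkn : 2 * k ^ 2 ≤ n := le_trans (Nat.mul_le_mul_left 2 (Nat.pow_le_pow_left hk.2 2)) hK
    have h2 := card_cyc_eq (X := X) k
    rw [← hn] at h2
    have h3 : ((univ.filter (fun f : X → X => cyc f = k)).card : ℝ) * (n : ℝ) ^ (k + 1)
        = (n.descFactorial k : ℝ) * k * (Fintype.card (X → X) : ℝ) := by exact_mod_cast h2
    have h4 : (n : ℝ) ^ k / 2 ≤ (n.descFactorial k : ℝ) := by
      have h5 : (n + 1 - k) ^ k ≤ n.descFactorial k := Nat.pow_sub_le_descFactorial n k
      have h6 : ((n : ℝ) - k) ^ k ≤ (n.descFactorial k : ℝ) := by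
        have h7 : ((n + 1 - k : ℕ) : ℝ) ^ k ≤ (n.descFactorial k : ℝ) := by exact_mod_cast h5
        refine le_trans (pow_le_pow_left₀ ?_ ?_ k) h7
        · have : k ≤ n := by nlinarith
          have : (k : ℝ) ≤ n := by exact_mod_cast this
          linarith
        · have : k ≤ n + 1 := by nlinarith
          rw [Nat.cast_sub this]
          push_cast
          linarith
      refine le_trans ?_ h6
      have h8 : ((n : ℝ) - k) ^ k = (n : ℝ) ^ k * (1 + (-(k : ℝ) / n)) ^ k := by
        rw [← mul_pow]
        congr 1
        field_simp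
        ring
      rw [h8]
      have h9 : 1 + (k : ℝ) * (-(k : ℝ) / n) ≤ (1 + (-(k : ℝ) / n)) ^ k := by
        apply one_add_mul_le_pow
        rw [neg_div, neg_le_neg_iff]
        rw [div_le_iff₀ hnR]
        have : k ≤ 2 * n := by nlinarith
        exact_mod_cast this
      have h10 : (1 : ℝ) / 2 ≤ 1 + (k : ℝ) * (-(k : ℝ) / n) := by
        have h11 : (k : ℝ) * (k : ℝ) / n ≤ 1 / 2 := by
          rw [div_le_iff₀ hnR]
          have : (2 * k ^ 2 : ℝ) ≤ n := by exact_mod_cast hkn
          nlinarith
        have h12 : (k : ℝ) * (-(k : ℝ) / n) = -((k : ℝ) * k / n) := by ring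
        rw [h12]
        linarith
      calc (n : ℝ) ^ k / 2 = (n : ℝ) ^ k * (1 / 2) := by ring
        _ ≤ _ := mul_le_mul_of_nonneg_left (h10.trans h9) (by positivity)
    have h13 : (0 : ℝ) < (n : ℝ) ^ (k + 1) := by positivity
    have h14 : (k : ℝ) / (2 * n) * (Fintype.card (X → X) : ℝ) * (n : ℝ) ^ (k + 1)
        ≤ ((univ.filter (fun f : X → X => cyc f = k)).card : ℝ) * (n : ℝ) ^ (k + 1) := by
      rw [h3]
      calc (k : ℝ) / (2 * n) * (Fintype.card (X → X) : ℝ) * (n : ℝ) ^ (k + 1)
          = ((n : ℝ) ^ k / 2) * (k * (Fintype.card (X → X) : ℝ)) := by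
            rw [pow_succ]
            field_simp
        _ ≤ (n.descFactorial k : ℝ) * (k * (Fintype.card (X → X) : ℝ)) :=
            mul_le_mul_of_nonneg_right h4 (by positivity)
        _ = _ := by ring
    exact le_of_mul_le_mul_right h14 h13
  have h2 : ∑ k ∈ Finset.Icc 1 K, ((univ.filter (fun f : X → X => cyc f = k)).card : ℝ)
      ≤ ((univ.filter (fun f : X → X => cyc f ≤ K)).card : ℝ) := by
    have h3 : ∑ k ∈ Finset.Icc 1 K, (univ.filter (fun f : X → X => cyc f = k)).card
        ≤ (univ.filter (fun f : X → X => cyc f ≤ K)).card := by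
      rw [← Finset.card_biUnion]
      · apply Finset.card_le_card
        intro f hf
        rw [mem_biUnion] at hf
        obtain ⟨k, hk, hf⟩ := hf
        rw [mem_filter] at hf ⊢
        rw [Finset.mem_Icc] at hk
        exact ⟨mem_univ _, by rw [hf.2]; exact hk.2⟩
      · intro k _ k' _ hne
        rw [Function.onFun, Finset.disjoint_left]
        intro f hf hf'
        rw [mem_filter] at hf hf'
        exact hne (hf.2.symm.trans hf'.2)
    exact_mod_cast h3
  refine le_trans ?_ ((Finset.sum_le_sum h1).trans h2)
  rw [← Finset.sum_mul]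
  apply mul_le_mul_of_nonneg_right _ hW
  rw [← Finset.sum_div]
  have h15 : (K : ℝ) ^ 2 / 2 ≤ ∑ k ∈ Finset.Icc 1 K, (k : ℝ) := by
    have h16 : ∀ K : ℕ, (K : ℝ) ^ 2 / 2 ≤ ∑ k ∈ Finset.Icc 1 K, (k : ℝ) := by
      intro K
      induction K with
      | zero => simp
      | succ K ih =>
        rw [Finset.sum_Icc_succ_top (by omega)]
        push_cast
        nlinarith
    exact h16 K
  calc (K : ℝ) ^ 2 / (4 * n) = ((K : ℝ) ^ 2 / 2) / (2 * n) := by
        field_simp; ring
    _ ≤ _ := div_le_div_of_nonneg_right h15 (by positivity)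

end Pool.Agent.Helper38.Dml
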