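import Mathlib
import Pool.Agent.Helper38.Dml.Product

/-!
# The orbit of a fixed point under a random family of matrices
-/

set_option autoImplicit false

open Finset Function
open scoped LinearAlgebra.Projectivization

namespace Pool.Agent.Helper38.Dml

/-- Double counting for families: changing `f` at `t f` neither leaves `S` nor changes `t`. -/
theorem update_count_fam {X W : Type*} [Fintype X] [DecidableEq X] [Fintype W]
    (S : Finset (X → W)) (t : (X → W) → X) (R : (X → W) → W → Prop)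
    [∀ f y, Decidable (R f y)]
    (hS : ∀ f ∈ S, ∀ y, update f (t f) y ∈ S)
    (ht : ∀ f ∈ S, ∀ y, t (update f (t f) y) = t f)
    (hR : ∀ f ∈ S, ∀ y z, R (update f (t f) y) z ↔ R f z) :
    Fintype.card W * (S.filter (fun f => R f (f (t f)))).card
      = ∑ f ∈ S, (univ.filter (fun y => R f y)).card := by
  classical
  rw [← Finset.card_univ, ← Finset.card_product, ← Finset.card_sigma]
  refine Finset.card_nbij' (fun p => (⟨update p.2 (t p.2) p.1, p.2 (t p.2)⟩ : (_ : X → W) × W))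
    (fun p => (p.1 (t p.1), update p.1 (t p.1) p.2)) ?_ ?_ ?_ ?_
  · intro p hp
    simp only [coe_product, Set.mem_prod, mem_coe, mem_filter, mem_univ, true_and] at hp
    simp only [coe_sigma, Set.mem_sigma_iff, mem_coe, mem_filter, mem_univ, true_and]
    exact ⟨hS _ hp.1 _, (hR _ hp.1 _ _).2 hp.2⟩
  · intro p hp
    simp only [coe_sigma, Set.mem_sigma_iff, mem_coe, mem_filter, mem_univ, true_and] at hp
    simp only [coe_product, Set.mem_prod, mem_coe, mem_filter, mem_univ, true_and]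
    refine ⟨hS _ hp.1 _, ?_⟩
    rw [hR _ hp.1, ht _ hp.1, update_self]
    exact hp.2
  · intro p hp
    simp only [coe_product, Set.mem_prod, mem_coe, mem_filter, mem_univ, true_and] at hp
    simp only
    rw [ht _ hp.1, update_self, update_idem, update_eq_self]
  · intro p hp
    simp only [coe_sigma, Set.mem_sigma_iff, mem_coe, mem_filter, mem_univ, true_and] at hp
    simp only
    rw [ht _ hp.1, update_self, update_idem, update_eq_self]

section path

variable {k : Type*} [Field k] [Fintype k] [DecidableEq k] {m : ℕ}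
  [DecidableEq (ℙ k (Fin m → k))]

/-- the good event along the orbit of `x₀` -/
def EvAt (A : ℙ k (Fin m → k) → Matrix (Fin m) (Fin m) k) (x₀ : ℙ k (Fin m → k)) : Prop :=
  ∀ n, (A ((phi A)^[n] x₀)).mulVec ((phi A)^[n] x₀).rep ≠ 0 ∧
    ((phi A)^[n] x₀ ∈ periodicPts (phi A) → (A ((phi A)^[n] x₀)).det ≠ 0)

/-- `x₀, …, x_l` are distinct and the matrices at `x_t`, `i ≤ t < l`, are invertible -/
def PathP (x₀ : ℙ k (Fin m → k)) (i l : ℕ) (A : ℙ k (Fin m → k) → Matrix (Fin m) (Fin m) k) :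
    Prop :=
  (∀ a ≤ l, ∀ b ≤ l, (phi A)^[a] x₀ = (phi A)^[b] x₀ → a = b) ∧
    ∀ t, i ≤ t → t < l → (A ((phi A)^[t] x₀)).det ≠ 0

omit [Fintype k] in
theorem phi_update_of_ne (A : ℙ k (Fin m → k) → Matrix (Fin m) (Fin m) k) (x y : ℙ k (Fin m → k))
    (w : Matrix (Fin m) (Fin m) k) (h : y ≠ x) : phi (update A x w) y = phi A y := by
  classical
  rw [phi, phi, update_of_ne h]

omit [Fintype k] in
theorem iterate_phi_update (A : ℙ k (Fin m → k) → Matrix (Fin m) (Fin m) k)
    (x₀ : ℙ k (Fin m → k)) (l : ℕ)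
    (h : ∀ a ≤ l, ∀ b ≤ l, (phi A)^[a] x₀ = (phi A)^[b] x₀ → a = b)
    (w : Matrix (Fin m) (Fin m) k) :
    ∀ a ≤ l, (phi (update A ((phi A)^[l] x₀) w))^[a] x₀ = (phi A)^[a] x₀ := by
  intro a
  induction a with
  | zero => intro _; rfl
  | succ a ih =>
    intro ha
    rw [iterate_succ_apply', ih (by omega), phi_update_of_ne, iterate_succ_apply']
    intro h1
    have := h a (by omega) l le_rfl h1
    omega

omit [Fintype k] in
theorem pathP_update (A : ℙ k (Fin m → k) → Matrix (Fin m) (Fin m) k) (x₀ : ℙ k (Fin m → k))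
    (i l : ℕ) (h : PathP x₀ i l A) (w : Matrix (Fin m) (Fin m) k) :
    PathP x₀ i l (update A ((phi A)^[l] x₀) w) := by
  have hit := iterate_phi_update A x₀ l h.1 w
  refine ⟨?_, ?_⟩
  · intro a ha b hb hab
    rw [hit a ha, hit b hb] at hab
    exact h.1 a ha b hb hab
  · intro t hit' htl
    rw [hit t htl.le, update_of_ne]
    · exact h.2 t hit' htl
    · intro h1
      have := h.1 t htl.le l le_rfl h1
      omega

omit [Fintype k] [DecidableEq (ℙ k (Fin m → k))] in
theorem phi_eq_of_hits {A : ℙ k (Fin m → k) → Matrix (Fin m) (Fin m) k} {x y : ℙ k (Fin m → k)}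
    (h : Hits (A x) x y) : phi A x = y := by
  obtain ⟨h1, h2⟩ := h
  rw [phi, dif_pos h1, h2]

omit [Fintype k] [DecidableEq (ℙ k (Fin m → k))] in
theorem hits_of_phi_ne {A : ℙ k (Fin m → k) → Matrix (Fin m) (Fin m) k} {x : ℙ k (Fin m → k)}
    (h : phi A x ≠ x) : Hits (A x) x (phi A x) := by
  by_cases h1 : (A x).mulVec x.rep ≠ 0
  · exact ⟨h1, by rw [phi, dif_pos h1]⟩
  · exact absurd (by rw [phi, dif_neg h1]) h

/-- the next step hits a new point, with an invertible matrix if `i ≤ l` -/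
def NewHit (x₀ : ℙ k (Fin m → k)) (i l : ℕ) (A : ℙ k (Fin m → k) → Matrix (Fin m) (Fin m) k)
    (w : Matrix (Fin m) (Fin m) k) : Prop :=
  (∃ y, (∀ a ≤ l, (phi A)^[a] x₀ ≠ y) ∧ Hits w ((phi A)^[l] x₀) y) ∧ (i ≤ l → w.det ≠ 0)

omit [Fintype k] [DecidableEq (ℙ k (Fin m → k))] in
theorem pathP_succ_iff (x₀ : ℙ k (Fin m → k)) (i l : ℕ)
    (A : ℙ k (Fin m → k) → Matrix (Fin m) (Fin m) k) :
    PathP x₀ i (l + 1) A ↔ PathP x₀ i l A ∧ NewHit x₀ i l A (A ((phi A)^[l] x₀)) := by
  constructor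
  · rintro ⟨h1, h2⟩
    refine ⟨⟨fun a ha b hb => h1 a (by omega) b (by omega), fun t ht htl => h2 t ht (by omega)⟩,
      ?_, ?_⟩
    · refine ⟨(phi A)^[l + 1] x₀, ?_, ?_⟩
      · intro a ha h
        have := h1 a (by omega) (l + 1) le_rfl h
        omega
      · rw [iterate_succ_apply']
        apply hits_of_phi_ne
        rw [← iterate_succ_apply' (phi A)]
        intro h
        have := h1 (l + 1) le_rfl l (by omega) h
        omega
    · intro hil
      exact h2 l hil (by omega)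
  · rintro ⟨⟨h1, h2⟩, ⟨y, hy, hhit⟩, h4⟩
    have hxy : (phi A)^[l + 1] x₀ = y := by
      rw [iterate_succ_apply']
      exact phi_eq_of_hits hhit
    refine ⟨?_, ?_⟩
    · intro a ha b hb hab
      rcases Nat.lt_or_ge l a with h5 | h5 <;> rcases Nat.lt_or_ge l b with h6 | h6
      · omega
      · have ha' : a = l + 1 := by omega
        rw [ha', hxy] at hab
        exact absurd hab.symm (hy b h6)
      · have hb' : b = l + 1 := by omega
        rw [hb', hxy] at hab
        exact absurd hab (hy a h5)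
      · exact h1 a h5 b h6 hab
    · intro t ht htl
      rcases Nat.lt_or_ge t l with h5 | h5
      · exact h2 t ht h5
      · have : t = l := by omega
        rw [this]
        exact h4 (by omega)

variable [Fintype (ℙ k (Fin m → k))]

open Classical in
/-- the number of families with property `PathP` -/
noncomputable def nPath (x₀ : ℙ k (Fin m → k)) (i l : ℕ) : ℕ :=
  (univ.filter (fun A : ℙ k (Fin m → k) → Matrix (Fin m) (Fin m) k => PathP x₀ i l A)).card

open Classical in
theorem card_path_step (x₀ : ℙ k (Fin m → k)) (i l : ℕ)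
    (R : (ℙ k (Fin m → k) → Matrix (Fin m) (Fin m) k) → Matrix (Fin m) (Fin m) k → Prop)
    (hR : ∀ A, PathP x₀ i l A → ∀ w z, R (update A ((phi A)^[l] x₀) w) z ↔ R A z) :
    Fintype.card (Matrix (Fin m) (Fin m) k)
      * (univ.filter (fun A : ℙ k (Fin m → k) → Matrix (Fin m) (Fin m) k =>
          PathP x₀ i l A ∧ R A (A ((phi A)^[l] x₀)))).card
      = ∑ A ∈ univ.filter (fun A : ℙ k (Fin m → k) → Matrix (Fin m) (Fin m) k => PathP x₀ i l A),
          (univ.filter (fun w => R A w)).card := by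
  rw [← Finset.filter_filter]
  refine update_count_fam _ (fun A => (phi A)^[l] x₀) R ?_ ?_ ?_
  · intro A hA w
    rw [mem_filter] at hA ⊢
    exact ⟨mem_univ _, pathP_update A x₀ i l hA.2 w⟩
  · intro A hA w
    rw [mem_filter] at hA
    exact iterate_phi_update A x₀ l hA.2.1 w l le_rfl
  · intro A hA w z
    rw [mem_filter] at hA
    exact hR A hA.2 w z

omit [DecidableEq (ℙ k (Fin m → k))] in
open Classical in
theorem card_hits_eq_ratio (x y : ℙ k (Fin m → k)) :
    ((univ.filter (fun A : Matrix (Fin m) (Fin m) k => Hits A x y)).card : ℝ)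
      = (1 - 1 / (Fintype.card k : ℝ) ^ m) / (Fintype.card (ℙ k (Fin m → k)) : ℝ)
        * (Fintype.card (Matrix (Fin m) (Fin m) k) : ℝ) := by
  rw [card_hits_real]
  have hM : (Fintype.card (Matrix (Fin m) (Fin m) k) : ℝ) = (Fintype.card k : ℝ) ^ (m * m) := by
    have : Fintype.card (Matrix (Fin m) (Fin m) k) = Fintype.card k ^ (m * m) := by
      rw [Fintype.card_congr (Matrix.of (m := Fin m) (n := Fin m) (α := k)).symm]
      simp [pow_mul]
    rw [this]; push_cast; rfl
  rw [hM]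
  have hq : (0 : ℝ) < (Fintype.card k : ℝ) := by exact_mod_cast Fintype.card_pos
  field_simp

omit [DecidableEq (ℙ k (Fin m → k))] in
open Classical in
theorem card_hits_det_eq_ratio (hm : 0 < m) (x y : ℙ k (Fin m → k)) :
    ((univ.filter (fun A : Matrix (Fin m) (Fin m) k => A.det ≠ 0 ∧ Hits A x y)).card : ℝ)
      = sProb (Fintype.card k) m * ((1 - 1 / (Fintype.card k : ℝ) ^ m)
        / (Fintype.card (ℙ k (Fin m → k)) : ℝ)
        * (Fintype.card (Matrix (Fin m) (Fin m) k) : ℝ)) := by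
  rw [← card_hits_eq_ratio x y, card_hits_real, card_hits_det_real, sProb]
  have hq : (1 : ℝ) < (Fintype.card k : ℝ) := by exact_mod_cast Fintype.one_lt_card
  have hqm : (1 : ℝ) < (Fintype.card k : ℝ) ^ m := one_lt_pow₀ hq hm.ne'
  have h1 : (0 : ℝ) < (Fintype.card k : ℝ) ^ m - 1 := by linarith
  have h2 : (0 : ℝ) < (Fintype.card k : ℝ) := by linarith
  field_simp

open Classical in
theorem card_newHit (hm : 0 < m) (x₀ : ℙ k (Fin m → k)) (i l : ℕ)
    (A : ℙ k (Fin m → k) → Matrix (Fin m) (Fin m) k) (h : PathP x₀ i l A) :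
    ((univ.filter (fun w => NewHit x₀ i l A w)).card : ℝ)
      = ((Fintype.card (ℙ k (Fin m → k)) : ℝ) - (l + 1))
        * (if i ≤ l then sProb (Fintype.card k) m else 1)
        * ((1 - 1 / (Fintype.card k : ℝ) ^ m) / (Fintype.card (ℙ k (Fin m → k)) : ℝ)
        * (Fintype.card (Matrix (Fin m) (Fin m) k) : ℝ)) := by
  set T : Finset (ℙ k (Fin m → k)) := (Finset.range (l + 1)).image (fun a => (phi A)^[a] x₀) with hT
  have hTcard : T.card = l + 1 := by
    rw [hT, Finset.card_image_of_injOn, Finset.card_range]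
    intro a ha b hb hab
    rw [Finset.mem_coe, Finset.mem_range] at ha hb
    exact h.1 a (by omega) b (by omega) hab
  have h1 : univ.filter (fun w => NewHit x₀ i l A w)
      = (univ \ T).biUnion (fun y => univ.filter (fun w : Matrix (Fin m) (Fin m) k =>
          (i ≤ l → w.det ≠ 0) ∧ Hits w ((phi A)^[l] x₀) y)) := by
    ext w
    simp only [mem_filter, mem_univ, true_and, mem_biUnion, mem_sdiff, hT, mem_image, mem_range,
      not_exists, not_and]
    constructor
    · rintro ⟨⟨y, hy, hw⟩, h2⟩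
      exact ⟨y, fun a ha => hy a (by omega), h2, hw⟩
    · rintro ⟨y, hy, h2, hw⟩
      exact ⟨⟨y, fun a ha => hy a (by omega), hw⟩, h2⟩
  have h2 : ∀ y, ((univ.filter (fun w : Matrix (Fin m) (Fin m) k =>
          (i ≤ l → w.det ≠ 0) ∧ Hits w ((phi A)^[l] x₀) y)).card : ℝ)
      = (if i ≤ l then sProb (Fintype.card k) m else 1)
        * ((1 - 1 / (Fintype.card k : ℝ) ^ m) / (Fintype.card (ℙ k (Fin m → k)) : ℝ)
        * (Fintype.card (Matrix (Fin m) (Fin m) k) : ℝ)) := by
    intro y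
    split_ifs with hil
    · rw [← card_hits_det_eq_ratio hm ((phi A)^[l] x₀) y]
      simp only [hil, true_imp_iff]
    · rw [one_mul, ← card_hits_eq_ratio ((phi A)^[l] x₀) y]
      simp only [hil, false_imp_iff, true_and]
  rw [h1, Finset.card_biUnion]
  · push_cast
    rw [Finset.sum_congr rfl (fun y _ => h2 y), Finset.sum_const, nsmul_eq_mul,
      Finset.card_sdiff_of_subset (Finset.subset_univ _), Finset.card_univ, hTcard, Nat.cast_sub, mul_assoc]
    · push_cast
      ring
    · rw [← hTcard]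
      exact Finset.card_le_univ _
  · intro y _ y' _ hne
    rw [Function.onFun, Finset.disjoint_left]
    intro w hw hw'
    rw [mem_filter] at hw hw'
    exact hne (hw.2.2.unique hw'.2.2)

open Classical in
theorem nPath_succ (hm : 0 < m) (x₀ : ℙ k (Fin m → k)) (i l : ℕ) :
    (nPath x₀ i (l + 1) : ℝ) = (1 - ((l : ℝ) + 1) / (Fintype.card (ℙ k (Fin m → k)) : ℝ))
      * (1 - 1 / (Fintype.card k : ℝ) ^ m) * (if i ≤ l then sProb (Fintype.card k) m else 1)
      * (nPath x₀ i l : ℝ) := by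
  have hn : (0 : ℝ) < (Fintype.card (ℙ k (Fin m → k)) : ℝ) := by
    exact_mod_cast Fintype.card_pos_iff.2 ⟨x₀⟩
  have hM : (0 : ℝ) < (Fintype.card (Matrix (Fin m) (Fin m) k) : ℝ) := by
    exact_mod_cast Fintype.card_pos
  have h1 := card_path_step x₀ i l (fun A w => NewHit x₀ i l A w) (by
    intro A hA w z
    have hit := iterate_phi_update A x₀ l hA.1 w
    simp only [NewHit]
    constructor
    · rintro ⟨⟨y, hy, hz⟩, h2⟩
      refine ⟨⟨y, fun a ha => by rw [← hit a ha]; exact hy a ha, ?_⟩, h2⟩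
      rw [hit l le_rfl] at hz
      exact hz
    · rintro ⟨⟨y, hy, hz⟩, h2⟩
      refine ⟨⟨y, fun a ha => by rw [hit a ha]; exact hy a ha, ?_⟩, h2⟩
      rw [hit l le_rfl]
      exact hz)
  have h2 : (univ.filter (fun A : ℙ k (Fin m → k) → Matrix (Fin m) (Fin m) k =>
          PathP x₀ i l A ∧ NewHit x₀ i l A (A ((phi A)^[l] x₀)))).card = nPath x₀ i (l + 1) := by
    rw [nPath]
    congr 1
    apply Finset.filter_congr
    intro A _
    exact (pathP_succ_iff x₀ i l A).symm
  rw [h2] at h1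
  have h3 : (Fintype.card (Matrix (Fin m) (Fin m) k) : ℝ) * (nPath x₀ i (l + 1) : ℝ)
      = ∑ A ∈ univ.filter (fun A : ℙ k (Fin m → k) → Matrix (Fin m) (Fin m) k => PathP x₀ i l A),
          ((univ.filter (fun w => NewHit x₀ i l A w)).card : ℝ) := by
    exact_mod_cast h1
  rw [Finset.sum_congr rfl (fun A hA => card_newHit hm x₀ i l A (mem_filter.1 hA).2),
    Finset.sum_const, nsmul_eq_mul] at h3
  change _ = (nPath x₀ i l : ℝ) * _ at h3
  have h4 : (nPath x₀ i (l + 1) : ℝ) = ((nPath x₀ i l : ℝ)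
      * (((Fintype.card (ℙ k (Fin m → k)) : ℝ) - (l + 1))
        * (if i ≤ l then sProb (Fintype.card k) m else 1)
        * ((1 - 1 / (Fintype.card k : ℝ) ^ m) / (Fintype.card (ℙ k (Fin m → k)) : ℝ)
        * (Fintype.card (Matrix (Fin m) (Fin m) k) : ℝ))))
        / (Fintype.card (Matrix (Fin m) (Fin m) k) : ℝ) := by
    rw [eq_div_iff hM.ne', ← h3]
    ring
  rw [h4]
  field_simp

theorem nPath_lower (hm : 0 < m) (x₀ : ℙ k (Fin m → k)) (i l : ℕ)
    (hl : l * (l + 1) ≤ 2 * Fintype.card (ℙ k (Fin m → k))) :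
    (1 - (l : ℝ) * (l + 1) / (2 * Fintype.card (ℙ k (Fin m → k))))
      * (1 - 1 / (Fintype.card k : ℝ) ^ m) ^ l * (min 1 (sProb (Fintype.card k) m)) ^ (l - i)
      * (Fintype.card (ℙ k (Fin m → k) → Matrix (Fin m) (Fin m) k) : ℝ) ≤ (nPath x₀ i l : ℝ) := by
  classical
  set n : ℝ := (Fintype.card (ℙ k (Fin m → k)) : ℝ) with hn
  set τ : ℝ := 1 - 1 / (Fintype.card k : ℝ) ^ m with hτ
  set s := sProb (Fintype.card k) m with hs
  set W : ℝ := (Fintype.card (ℙ k (Fin m → k) → Matrix (Fin m) (Fin m) k) : ℝ) with hW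
  have hW0 : 0 ≤ W := by positivity
  have hn0 : 0 < n := by
    rw [hn]; exact_mod_cast Fintype.card_pos_iff.2 ⟨x₀⟩
  have hq1 : (1 : ℝ) < (Fintype.card k : ℝ) := by exact_mod_cast Fintype.one_lt_card
  have hqm : (1 : ℝ) < (Fintype.card k : ℝ) ^ m := one_lt_pow₀ hq1 hm.ne'
  have hτ0 : 0 ≤ τ := by
    rw [hτ]
    have : 1 / (Fintype.card k : ℝ) ^ m ≤ 1 := by
      rw [div_le_one (by positivity)]; exact hqm.le
    linarith
  have hs0 : 0 ≤ s := by
    rw [hs, sProb]
    have : (0 : ℝ) < (Fintype.card k : ℝ) ^ m - 1 := by linarith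
    positivity
  have hs' : 0 ≤ min 1 s := le_min zero_le_one hs0
  induction l with
  | zero =>
    have h1 : nPath x₀ i 0 = Fintype.card (ℙ k (Fin m → k) → Matrix (Fin m) (Fin m) k) := by
      rw [nPath, Finset.filter_true_of_mem, Finset.card_univ]
      intro A _
      exact ⟨fun a ha b hb _ => by omega, fun t _ ht => by omega⟩
    rw [h1, Nat.cast_zero, zero_mul, zero_div, sub_zero, pow_zero, Nat.zero_sub, pow_zero, one_mul,
      one_mul, one_mul]
  | succ l ih =>
    have hl2 : l * (l + 1) ≤ 2 * Fintype.card (ℙ k (Fin m → k)) := by nlinarith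
    have hl3 : l + 1 ≤ Fintype.card (ℙ k (Fin m → k)) := by
      rcases Nat.eq_zero_or_pos l with h0 | h0
      · rw [h0]
        exact Fintype.card_pos_iff.2 ⟨x₀⟩
      · nlinarith
    have ih' := ih hl2
    rw [nPath_succ hm x₀ i l]
    have hl1 : ((l : ℝ) + 1) / n ≤ 1 := by
      rw [div_le_one hn0, hn]
      exact_mod_cast hl3
    have hbr : 0 ≤ 1 - (l : ℝ) * (l + 1) / (2 * n) := by
      have : (l : ℝ) * (l + 1) / (2 * n) ≤ 1 := by
        rw [div_le_one (by positivity), hn]
        exact_mod_cast hl2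
      linarith
    have h2 : (min 1 s) ^ (l + 1 - i) ≤ (if i ≤ l then s else 1) * (min 1 s) ^ (l - i) := by
      split_ifs with hil
      · have : l + 1 - i = (l - i) + 1 := by omega
        rw [this, pow_succ, mul_comm]
        exact mul_le_mul_of_nonneg_right (min_le_right _ _) (pow_nonneg hs' _)
      · have h3 : l + 1 - i = 0 := by omega
        have h4 : l - i = 0 := by omega
        rw [h3, h4]
        simp
    have h5 : (1 - ((l + 1 : ℕ) : ℝ) * (((l + 1 : ℕ) : ℝ) + 1) / (2 * n))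
        ≤ (1 - ((l : ℝ) + 1) / n) * (1 - (l : ℝ) * (l + 1) / (2 * n)) := by
      push_cast
      have h6 : ((l : ℝ) + 1) * ((l : ℝ) + 1 + 1) / (2 * n)
          = ((l : ℝ) + 1) / n + (l : ℝ) * (l + 1) / (2 * n) := by
        field_simp
        ring
      rw [h6]
      have h7 : 0 ≤ (((l : ℝ) + 1) / n) * ((l : ℝ) * (l + 1) / (2 * n)) := by positivity
      nlinarith
    have h8 : 0 ≤ (if i ≤ l then s else 1) := by
      split_ifs
      · exact hs0
      · exact zero_le_one
    calc (1 - ((l + 1 : ℕ) : ℝ) * (((l + 1 : ℕ) : ℝ) + 1) / (2 * n)) * τ ^ (l + 1)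
          * (min 1 s) ^ (l + 1 - i) * W
        ≤ ((1 - ((l : ℝ) + 1) / n) * (1 - (l : ℝ) * (l + 1) / (2 * n))) * τ ^ (l + 1)
          * (min 1 s) ^ (l + 1 - i) * W := by
          apply mul_le_mul_of_nonneg_right _ hW0
          apply mul_le_mul_of_nonneg_right _ (pow_nonneg hs' _)
          exact mul_le_mul_of_nonneg_right h5 (pow_nonneg hτ0 _)
      _ ≤ (1 - ((l : ℝ) + 1) / n) * τ * (if i ≤ l then s else 1)
          * ((1 - (l : ℝ) * (l + 1) / (2 * n)) * τ ^ l * (min 1 s) ^ (l - i) * W) := by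
          have h9 : 0 ≤ ((1 - ((l : ℝ) + 1) / n) * (1 - (l : ℝ) * (l + 1) / (2 * n)))
              * τ ^ (l + 1) * W := by
            have : 0 ≤ 1 - ((l : ℝ) + 1) / n := by linarith
            positivity
          calc _ = (((1 - ((l : ℝ) + 1) / n) * (1 - (l : ℝ) * (l + 1) / (2 * n)))
              * τ ^ (l + 1) * W) * (min 1 s) ^ (l + 1 - i) := by ring
            _ ≤ (((1 - ((l : ℝ) + 1) / n) * (1 - (l : ℝ) * (l + 1) / (2 * n)))
              * τ ^ (l + 1) * W) * ((if i ≤ l then s else 1) * (min 1 s) ^ (l - i)) :=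
                mul_le_mul_of_nonneg_left h2 h9
            _ = _ := by ring
      _ ≤ _ := by
          apply mul_le_mul_of_nonneg_left ih'
          exact mul_nonneg (mul_nonneg (by linarith) hτ0) h8

omit [Fintype k] [DecidableEq (ℙ k (Fin m → k))] [Fintype (ℙ k (Fin m → k))] in
theorem evAt_of_final (x₀ : ℙ k (Fin m → k)) (i l : ℕ) (hil : i ≤ l)
    (A : ℙ k (Fin m → k) → Matrix (Fin m) (Fin m) k) (hP : PathP x₀ i l A)
    (hdet : (A ((phi A)^[l] x₀)).det ≠ 0)
    (hhit : Hits (A ((phi A)^[l] x₀)) ((phi A)^[l] x₀) ((phi A)^[i] x₀)) : EvAt A x₀ := by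
  have hclose : (phi A)^[l + 1] x₀ = (phi A)^[i] x₀ := by
    rw [iterate_succ_apply']
    exact phi_eq_of_hits hhit
  have hred : ∀ n, ∃ t ≤ l, (phi A)^[n] x₀ = (phi A)^[t] x₀ ∧ (i ≤ n → i ≤ t) := by
    intro n
    induction n with
    | zero => exact ⟨0, Nat.zero_le _, rfl, fun h => h⟩
    | succ n ih =>
      obtain ⟨t, htl, ht, hit⟩ := ih
      rcases Nat.lt_or_ge t l with h | h
      · refine ⟨t + 1, h, by rw [iterate_succ_apply', ht, ← iterate_succ_apply' (phi A)], ?_⟩
        intro h1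
        rcases Nat.lt_or_ge n i with h2 | h2
        · -- then `n + 1 = i`, the path before is unchanged
          by_contra h3
          push Not at h3
          have h4 : t = n := hP.1 t htl n (by omega) ht.symm
          omega
        · have := hit h2
          omega
      · have htl' : t = l := le_antisymm htl h
        refine ⟨i, hil, ?_, fun _ => le_rfl⟩
        rw [iterate_succ_apply', ht, htl', ← iterate_succ_apply' (phi A), hclose]
  intro n
  obtain ⟨t, htl, ht, _⟩ := hred n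
  rw [ht]
  have hhit' : ∃ y, Hits (A ((phi A)^[t] x₀)) ((phi A)^[t] x₀) y := by
    rcases Nat.lt_or_ge t l with h | h
    · refine ⟨_, hits_of_phi_ne ?_⟩
      intro h1
      rw [← iterate_succ_apply' (phi A)] at h1
      have := hP.1 (t + 1) (by omega) t htl h1
      omega
    · have : t = l := le_antisymm htl h
      rw [this]
      exact ⟨_, hhit⟩
  refine ⟨?_, ?_⟩
  · obtain ⟨y, h, _⟩ := hhit'
    exact h
  · intro hper
    have hit : i ≤ t := by
      obtain ⟨r, hr, hper⟩ := hper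
      have h1 : (phi A)^[r * i] ((phi A)^[t] x₀) = (phi A)^[t] x₀ := by
        rw [iterate_mul]
        exact iterate_fixed hper i
      rw [← iterate_add_apply] at h1
      obtain ⟨t', ht'l, ht', hit'⟩ := hred (r * i + t)
      have h2 : i ≤ t' := hit' (by nlinarith)
      have h3 : t' = t := hP.1 t' ht'l t htl (by rw [← ht', h1])
      omega
    rcases Nat.lt_or_ge t l with h | h
    · exact hP.2 t hit h
    · have : t = l := le_antisymm htl h
      rw [this]
      exact hdet

open Classical in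
/-- **Lower bound for the probability that a fixed orbit is good.** -/
theorem card_EvAt_ge (hm : 0 < m) (x₀ : ℙ k (Fin m → k)) (J K : ℕ)
    (hJ : J ^ 2 ≤ Fintype.card (ℙ k (Fin m → k))) :
    ((J - K : ℕ) : ℝ) * K / (2 * Fintype.card (ℙ k (Fin m → k)))
      * (1 - 1 / (Fintype.card k : ℝ) ^ m) ^ J * (min 1 (sProb (Fintype.card k) m)) ^ K
      * (Fintype.card (ℙ k (Fin m → k) → Matrix (Fin m) (Fin m) k) : ℝ)
      ≤ ((univ.filter (fun A : ℙ k (Fin m → k) → Matrix (Fin m) (Fin m) k => EvAt A x₀)).card : ℝ) := by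
  set n : ℝ := (Fintype.card (ℙ k (Fin m → k)) : ℝ) with hn
  set τ : ℝ := 1 - 1 / (Fintype.card k : ℝ) ^ m with hτ
  set s := sProb (Fintype.card k) m with hs
  set W : ℝ := (Fintype.card (ℙ k (Fin m → k) → Matrix (Fin m) (Fin m) k) : ℝ) with hW
  have hW0 : 0 ≤ W := by positivity
  have hn0 : 0 < n := by
    rw [hn]; exact_mod_cast Fintype.card_pos_iff.2 ⟨x₀⟩
  have hq1 : (1 : ℝ) < (Fintype.card k : ℝ) := by exact_mod_cast Fintype.one_lt_card
  have hqm : (1 : ℝ) < (Fintype.card k : ℝ) ^ m := one_lt_pow₀ hq1 hm.ne'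
  have hτ0 : 0 ≤ τ := by
    rw [hτ]
    have : 1 / (Fintype.card k : ℝ) ^ m ≤ 1 := by
      rw [div_le_one (by positivity)]; exact hqm.le
    linarith
  have hτ1 : τ ≤ 1 := by
    rw [hτ]
    have : 0 ≤ 1 / (Fintype.card k : ℝ) ^ m := by positivity
    linarith
  have hs0 : 0 ≤ s := by
    rw [hs, sProb]
    have : (0 : ℝ) < (Fintype.card k : ℝ) ^ m - 1 := by linarith
    positivity
  have hs' : 0 ≤ min 1 s := le_min zero_le_one hs0
  have hM : (0 : ℝ) < (Fintype.card (Matrix (Fin m) (Fin m) k) : ℝ) := by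
    exact_mod_cast Fintype.card_pos
  -- the final events
  let Fi : ℕ × ℕ → Finset (ℙ k (Fin m → k) → Matrix (Fin m) (Fin m) k) := fun z =>
    univ.filter (fun A => PathP x₀ z.1 (z.1 + z.2) A ∧
      ((A ((phi A)^[z.1 + z.2] x₀)).det ≠ 0 ∧
        Hits (A ((phi A)^[z.1 + z.2] x₀)) ((phi A)^[z.1 + z.2] x₀) ((phi A)^[z.1] x₀)))
  have hcard : ∀ z : ℕ × ℕ, ((Fi z).card : ℝ) = s * (τ / n) * (nPath x₀ z.1 (z.1 + z.2) : ℝ) := by
    rintro ⟨i, u⟩
    have h1 := card_path_step x₀ i (i + u)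
      (fun A w => w.det ≠ 0 ∧ Hits w ((phi A)^[i + u] x₀) ((phi A)^[i] x₀)) (by
        intro A hA w z
        have hit := iterate_phi_update A x₀ (i + u) hA.1 w
        rw [hit (i + u) le_rfl, hit i (by omega)])
    have h2 : ∀ A, ((univ.filter (fun w : Matrix (Fin m) (Fin m) k => w.det ≠ 0 ∧
        Hits w ((phi A)^[i + u] x₀) ((phi A)^[i] x₀))).card : ℝ)
        = s * (τ / n * (Fintype.card (Matrix (Fin m) (Fin m) k) : ℝ)) := fun A =>
      card_hits_det_eq_ratio hm _ _
    have h3 : (Fintype.card (Matrix (Fin m) (Fin m) k) : ℝ) * ((Fi (i, u)).card : ℝ)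
        = ∑ A ∈ univ.filter (fun A : ℙ k (Fin m → k) → Matrix (Fin m) (Fin m) k =>
            PathP x₀ i (i + u) A), ((univ.filter (fun w : Matrix (Fin m) (Fin m) k => w.det ≠ 0 ∧
        Hits w ((phi A)^[i + u] x₀) ((phi A)^[i] x₀))).card : ℝ) := by
      exact_mod_cast h1
    rw [Finset.sum_congr rfl (fun A _ => h2 A), Finset.sum_const, nsmul_eq_mul] at h3
    change _ = (nPath x₀ i (i + u) : ℝ) * _ at h3
    have h4 : ((Fi (i, u)).card : ℝ) = ((nPath x₀ i (i + u) : ℝ)
        * (s * (τ / n * (Fintype.card (Matrix (Fin m) (Fin m) k) : ℝ))))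
        / (Fintype.card (Matrix (Fin m) (Fin m) k) : ℝ) := by
      rw [eq_div_iff hM.ne', ← h3]
      ring
    rw [h4]
    field_simp
  set Z := (Finset.range (J - K)) ×ˢ (Finset.range K) with hZ
  have hsub : Z.biUnion Fi ⊆ univ.filter (fun A : ℙ k (Fin m → k) → Matrix (Fin m) (Fin m) k =>
      EvAt A x₀) := by
    intro A hA
    rw [mem_biUnion] at hA
    obtain ⟨z, _, hA⟩ := hA
    rw [mem_filter] at hA ⊢
    exact ⟨mem_univ _, evAt_of_final x₀ z.1 (z.1 + z.2) (Nat.le_add_right _ _) A hA.2.1 hA.2.2.1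
      hA.2.2.2⟩
  have hdisj : ∀ z ∈ Z, ∀ z' ∈ Z, z ≠ z' → Disjoint (Fi z) (Fi z') := by
    have key : ∀ z z' : ℕ × ℕ, ∀ A, A ∈ Fi z → A ∈ Fi z' → z.1 + z.2 ≤ z'.1 + z'.2 → z = z' := by
      rintro ⟨i, u⟩ ⟨i', u'⟩ A hA hA' hle
      rw [mem_filter] at hA hA'
      simp only at hA hA' hle
      have h1 : (phi A)^[i + u + 1] x₀ = (phi A)^[i] x₀ := by
        rw [iterate_succ_apply']
        exact phi_eq_of_hits hA.2.2.2
      have h2 : (phi A)^[i' + u' + 1] x₀ = (phi A)^[i'] x₀ := by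
        rw [iterate_succ_apply']
        exact phi_eq_of_hits hA'.2.2.2
      rcases Nat.lt_or_ge (i + u) (i' + u') with h3 | h3
      · have := hA'.2.1.1 (i + u + 1) (by omega) i (by omega) h1
        omega
      · have h4 : i + u = i' + u' := le_antisymm hle h3
        rw [h4] at h1
        have h5 : i = i' := hA.2.1.1 i (by omega) i' (by omega) (by rw [← h1, h2])
        subst h5
        have h6 : u = u' := by omega
        rw [h6]
    intro z _ z' _ hne
    rw [Finset.disjoint_left]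
    intro A hA hA'
    rcases le_total (z.1 + z.2) (z'.1 + z'.2) with h | h
    · exact hne (key z z' A hA hA' h)
    · exact hne (key z' z A hA' hA h).symm
  have hle : ∑ z ∈ Z, ((Fi z).card : ℝ)
      ≤ ((univ.filter (fun A : ℙ k (Fin m → k) → Matrix (Fin m) (Fin m) k => EvAt A x₀)).card : ℝ) := by
    have h1 := Finset.card_le_card hsub
    rw [Finset.card_biUnion hdisj] at h1
    exact_mod_cast h1
  refine le_trans ?_ hle
  have hterm : ∀ z ∈ Z, 1 / (2 * n) * τ ^ J * (min 1 s) ^ K * W ≤ ((Fi z).card : ℝ) := by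
    rintro ⟨i, u⟩ hz
    rw [hZ, Finset.mem_product, Finset.mem_range, Finset.mem_range] at hz
    simp only at hz
    obtain ⟨hi, hu⟩ := hz
    have hJ2 : (i + u) * (i + u + 1) ≤ Fintype.card (ℙ k (Fin m → k)) := by
      have h1 : i + u + 1 ≤ J := by omega
      calc (i + u) * (i + u + 1) ≤ J * J := Nat.mul_le_mul (by omega) h1
        _ = J ^ 2 := by ring
        _ ≤ _ := hJ
    have h1 := nPath_lower hm x₀ i (i + u) (by omega)
    rw [hcard (i, u)]
    simp only
    have h2 : (1 : ℝ) / 2 ≤ 1 - ((i + u : ℕ) : ℝ) * (((i + u : ℕ) : ℝ) + 1) / (2 * n) := by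
      have h3 : ((i + u : ℕ) : ℝ) * (((i + u : ℕ) : ℝ) + 1) / (2 * n) ≤ 1 / 2 := by
        rw [div_le_div_iff₀ (by positivity) (by norm_num)]
        have : ((i + u : ℕ) : ℝ) * (((i + u : ℕ) : ℝ) + 1) ≤ n := by
          rw [hn]; exact_mod_cast hJ2
        linarith
      linarith
    rw [Nat.add_sub_cancel_left] at h1
    have h4 : (1 : ℝ) / 2 * τ ^ (i + u) * (min 1 s) ^ u * W ≤ (nPath x₀ i (i + u) : ℝ) := by
      refine le_trans ?_ h1
      apply mul_le_mul_of_nonneg_right _ hW0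
      apply mul_le_mul_of_nonneg_right _ (pow_nonneg hs' _)
      exact mul_le_mul_of_nonneg_right h2 (pow_nonneg hτ0 _)
    have h5 : τ ^ J * (min 1 s) ^ K ≤ τ * s * (τ ^ (i + u) * (min 1 s) ^ u) := by
      calc τ ^ J * (min 1 s) ^ K ≤ τ ^ (i + u + 1) * (min 1 s) ^ (u + 1) := by
            apply mul_le_mul
            · exact pow_le_pow_of_le_one hτ0 hτ1 (by omega)
            · exact pow_le_pow_of_le_one hs' (min_le_left _ _) (by omega)
            · exact pow_nonneg hs' _
            · exact pow_nonneg hτ0 _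
        _ = τ * (min 1 s) * (τ ^ (i + u) * (min 1 s) ^ u) := by rw [pow_succ, pow_succ]; ring
        _ ≤ _ := by
            apply mul_le_mul_of_nonneg_right _ (by positivity)
            exact mul_le_mul_of_nonneg_left (min_le_right _ _) hτ0
    calc 1 / (2 * n) * τ ^ J * (min 1 s) ^ K * W = 1 / (2 * n) * W * (τ ^ J * (min 1 s) ^ K) := by
          ring
      _ ≤ 1 / (2 * n) * W * (τ * s * (τ ^ (i + u) * (min 1 s) ^ u)) :=
          mul_le_mul_of_nonneg_left h5 (by positivity)
      _ = s * (τ / n) * (1 / 2 * τ ^ (i + u) * (min 1 s) ^ u * W) := by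
          field_simp
      _ ≤ _ := mul_le_mul_of_nonneg_left h4 (by positivity)
  calc ((J - K : ℕ) : ℝ) * K / (2 * n) * τ ^ J * (min 1 s) ^ K * W
      = (Z.card : ℝ) * (1 / (2 * n) * τ ^ J * (min 1 s) ^ K * W) := by
        rw [hZ, Finset.card_product, Finset.card_range, Finset.card_range]
        push_cast
        ring
    _ = ∑ z ∈ Z, (1 / (2 * n) * τ ^ J * (min 1 s) ^ K * W) := by
        rw [Finset.sum_const, nsmul_eq_mul]
    _ ≤ ∑ z ∈ Z, ((Fi z).card : ℝ) := Finset.sum_le_sum hterm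

end path

end Pool.Agent.Helper38.Dml
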