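import Mathlib
import Pool.Agent.Helper38.Dml.Good
import Pool.Agent.Helper38.Dml.ArithAt
import Pool.Agent.Helper38.Dml.PathCount
import Pool.Agent.Helper38.Dml.CycLaw
import Pool.Agent.Helper38.Dml.AuxGen
import Pool.Agent.Helper36.Jets

/-!
# Transfer of events from families of matrices to forms, any dimension
-/

set_option autoImplicit false

open Finset Function MvPolynomial
open scoped LinearAlgebra.Projectivization

namespace Pool.Agent.Helper38.Dml

section field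

variable {k : Type*} [Field k] [DecidableEq k] {m : ℕ}

theorem goodAt_of_EvAt {f : Fin m → MvPolynomial (Fin m) k} {d : ℕ}
    (hf : ∀ i, (f i).IsHomogeneous d) (y₀ : Fin m → k) (hy₀ : y₀ ≠ 0)
    (h : EvAt (jfam f) (Projectivization.mk k y₀ hy₀)) : GoodAt f y₀ := by
  have hrep : ∀ x : Fin m → k, ∀ hx : x ≠ 0, ∃ c : k, c ≠ 0 ∧
      c • (Projectivization.mk k x hx).rep = x := by
    intro x hx
    have h1 : Projectivization.mk k x hx
        = Projectivization.mk k (Projectivization.mk k x hx).rep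
          (Projectivization.rep_nonzero _) := by
      rw [Projectivization.mk_rep]
    obtain ⟨c, hc⟩ := (Projectivization.mk_eq_mk_iff' k _ _ hx _).1 h1
    refine ⟨c, ?_, hc⟩
    rintro rfl
    apply hx
    rw [← hc, zero_smul]
  -- one step
  have hstep : ∀ x, ∀ hx : x ≠ 0,
      (jfam f (Projectivization.mk k x hx)).mulVec (Projectivization.mk k x hx).rep ≠ 0 →
      ∃ hy : pmap f x ≠ 0, phi (jfam f) (Projectivization.mk k x hx)
        = Projectivization.mk k (pmap f x) hy := by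
    intro x hx h1
    obtain ⟨c, hc, hcx⟩ := hrep x hx
    have h2 : pmap f x = c ^ d • pmap f (Projectivization.mk k x hx).rep := by
      rw [← pmap_smul hf, hcx]
    have hy : pmap f x ≠ 0 := by
      intro h0
      apply h1
      rw [jfam, pjac_mulVec hf]
      rw [h0] at h2
      rw [(smul_eq_zero.1 h2.symm).resolve_left (pow_ne_zero _ hc), smul_zero]
    refine ⟨hy, ?_⟩
    rw [phi, dif_pos h1, Projectivization.mk_eq_mk_iff']
    refine ⟨(d : k) * (c ^ d)⁻¹, ?_⟩
    rw [jfam, pjac_mulVec hf, h2, smul_smul, mul_assoc, inv_mul_cancel₀ (pow_ne_zero _ hc), mul_one]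
  have hit : ∀ n, ∃ hy : (pmap f)^[n] y₀ ≠ 0,
      (phi (jfam f))^[n] (Projectivization.mk k y₀ hy₀)
        = Projectivization.mk k ((pmap f)^[n] y₀) hy := by
    intro n
    induction n with
    | zero => exact ⟨hy₀, rfl⟩
    | succ n ih =>
      obtain ⟨hy, ih⟩ := ih
      have h1 := (h n).1
      rw [ih] at h1
      obtain ⟨hy', h2⟩ := hstep _ hy h1
      refine ⟨?_, ?_⟩
      · rw [iterate_succ_apply']
        exact hy'
      · rw [iterate_succ_apply', ih, h2]
        congr 1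
        rw [iterate_succ_apply']
  intro n
  obtain ⟨hy, h1⟩ := hit n
  refine ⟨hy, ?_⟩
  rintro ⟨r, hr, hper⟩
  have hper2 : (phi (jfam f))^[n] (Projectivization.mk k y₀ hy₀) ∈ periodicPts (phi (jfam f)) := by
    refine ⟨r, hr, ?_⟩
    obtain ⟨hy2, h2⟩ := hit (r + n)
    change (phi (jfam f))^[r] _ = _
    rw [← iterate_add_apply, h2, h1]
    congr 1
    rw [iterate_add_apply]
    exact hper
  have hdet := (h n).2 hper2
  rw [h1] at hdet
  obtain ⟨c, hc, hcx⟩ := hrep _ hy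
  rw [← hcx, pjac_smul hf, Matrix.det_smul]
  exact mul_ne_zero (pow_ne_zero _ (pow_ne_zero _ hc)) hdet

end field

section count

variable {k : Type*} [Field k] [Fintype k] [DecidableEq k] {m : ℕ}

open Classical in
theorem card_transfer [Fintype (ℙ k (Fin m → k))] {d : ℕ} (A : MvPolynomial (Fin m) k)
    (hsurj : ∀ lam : ℙ k (Fin m → k) → Fin m → k, ∃ c : Mon m d → k,
      ∀ x j, eval x.rep (pderiv j (A * frm c)) = lam x j)
    (Q : (ℙ k (Fin m → k) → Matrix (Fin m) (Fin m) k) → Prop) (κ : ℝ)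
    (hκ : κ * (Fintype.card (ℙ k (Fin m → k) → Matrix (Fin m) (Fin m) k) : ℝ)
      ≤ ((univ.filter (fun M : ℙ k (Fin m → k) → Matrix (Fin m) (Fin m) k => Q M)).card : ℝ)) :
    κ * (Fintype.card (Fin m → Mon m d → k) : ℝ)
      ≤ ((univ.filter (fun c : Fin m → Mon m d → k =>
        Q (jfam (fun i => A * frm (c i))))).card : ℝ) := by
  let J : (Fin m → Mon m d → k) →+ (ℙ k (Fin m → k) → Matrix (Fin m) (Fin m) k) :=
    { toFun := fun c => jfam (fun i => A * frm (c i))
      map_zero' := by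
        funext x
        ext i j
        simp [jfam, pjac, frm]
      map_add' := fun c c' => by
        funext x
        ext i j
        simp only [jfam, pjac, Pi.add_apply, Matrix.add_apply, Matrix.of_apply, frm_add, mul_add,
          map_add] }
  have hJ : Surjective J := by
    intro M
    choose c hc using fun i => hsurj (fun x j => M x i j)
    refine ⟨c, ?_⟩
    funext x
    ext i j
    exact hc i x j
  have h1 := card_filter_comp J hJ Q
  have hpos : (0 : ℝ) < (Fintype.card (ℙ k (Fin m → k) → Matrix (Fin m) (Fin m) k) : ℝ) := by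
    exact_mod_cast Fintype.card_pos
  have h4 : ((univ.filter (fun c => Q (J c))).card : ℝ)
      * (Fintype.card (ℙ k (Fin m → k) → Matrix (Fin m) (Fin m) k) : ℝ)
      = ((univ.filter (fun M : ℙ k (Fin m → k) → Matrix (Fin m) (Fin m) k => Q M)).card : ℝ)
        * (Fintype.card (Fin m → Mon m d → k) : ℝ) := by
    exact_mod_cast h1
  have h5 : κ * (Fintype.card (Fin m → Mon m d → k) : ℝ)
      * (Fintype.card (ℙ k (Fin m → k) → Matrix (Fin m) (Fin m) k) : ℝ)
      ≤ ((univ.filter (fun c => Q (J c))).card : ℝ)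
      * (Fintype.card (ℙ k (Fin m → k) → Matrix (Fin m) (Fin m) k) : ℝ) := by
    rw [h4]
    calc _ = κ * (Fintype.card (ℙ k (Fin m → k) → Matrix (Fin m) (Fin m) k) : ℝ)
          * (Fintype.card (Fin m → Mon m d → k) : ℝ) := by ring
      _ ≤ _ := mul_le_mul_of_nonneg_right hκ (by positivity)
  exact le_of_mul_le_mul_right h5 hpos

end count

/-! ### Numerical bounds -/

theorem sProb_ge (q m : ℕ) (hq : 2 ≤ q) (hm : 0 < m) :
    (1 - 1 / (q : ℝ)) ^ (m - 1) ≤ sProb q m := by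
  obtain ⟨M, rfl⟩ : ∃ M, m = M + 1 := ⟨m - 1, by omega⟩
  have hq1 : (1 : ℝ) < q := by exact_mod_cast hq
  have hq0 : (0 : ℝ) < q := by linarith
  have hqm : (1 : ℝ) < (q : ℝ) ^ (M + 1) := one_lt_pow₀ hq1 (by omega)
  have hu : 0 ≤ 1 - 1 / (q : ℝ) := by
    have : 1 / (q : ℝ) ≤ 1 := by rw [div_le_one hq0]; exact hq1.le
    linarith
  rw [sProb, Nat.add_sub_cancel]
  have h1 : ((∏ i : Fin (M + 1), (q ^ (M + 1) - q ^ (i : ℕ)) : ℕ) : ℝ)
      = ((q : ℝ) ^ (M + 1) - 1) * ∏ i : Fin M, ((q : ℝ) ^ (M + 1) - (q : ℝ) ^ ((i : ℕ) + 1)) := by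
    push_cast
    rw [Fin.prod_univ_succ]
    congr 1
    · simp only [Fin.val_zero, pow_zero]
      rw [Nat.cast_sub (Nat.one_le_pow _ _ (by omega))]
      push_cast; rfl
    · apply Finset.prod_congr rfl
      intro i _
      rw [Fin.val_succ, Nat.cast_sub (Nat.pow_le_pow_right (by omega) (by omega))]
      push_cast; rfl
  rw [h1]
  have h2 : ((q : ℝ) ^ (M + 1) * (1 - 1 / (q : ℝ))) ^ M
      ≤ ∏ i : Fin M, ((q : ℝ) ^ (M + 1) - (q : ℝ) ^ ((i : ℕ) + 1)) := by
    calc ((q : ℝ) ^ (M + 1) * (1 - 1 / (q : ℝ))) ^ M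
        = ∏ _i : Fin M, ((q : ℝ) ^ (M + 1) * (1 - 1 / (q : ℝ))) := by
          rw [Finset.prod_const, Finset.card_univ, Fintype.card_fin]
      _ ≤ _ := by
          apply Finset.prod_le_prod
          · intro i _
            positivity
          · intro i _
            have h3 : (q : ℝ) ^ (M + 1) * (1 - 1 / (q : ℝ)) = (q : ℝ) ^ (M + 1) - (q : ℝ) ^ M := by
              rw [pow_succ]; field_simp
            rw [h3]
            have h4 : (q : ℝ) ^ ((i : ℕ) + 1) ≤ (q : ℝ) ^ M :=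
              pow_le_pow_right₀ hq1.le (by have := i.2; omega)
            linarith
  have h5 : (0 : ℝ) < (q : ℝ) ^ (M + 1) - 1 := by linarith
  rw [le_div_iff₀ (by positivity)]
  calc (1 - 1 / (q : ℝ)) ^ M * (((q : ℝ) ^ (M + 1) - 1) * (q : ℝ) ^ ((M + 1) * (M + 1)))
      = ((q : ℝ) ^ (M + 1) - 1) * ((q : ℝ) ^ (M + 1) * (1 - 1 / (q : ℝ))) ^ M * (q : ℝ) ^ (M + 1) := by
        rw [mul_pow, ← pow_mul, show (M + 1) * (M + 1) = (M + 1) * M + (M + 1) by ring, pow_add]
        ring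
    _ ≤ _ := by
        apply mul_le_mul_of_nonneg_right _ (by positivity)
        exact mul_le_mul_of_nonneg_left h2 h5.le

theorem exp_le_one_sub (x : ℝ) (h0 : 0 ≤ x) (h1 : x ≤ 1 / 2) : Real.exp (-(2 * x)) ≤ 1 - x := by
  have h2 : 0 < 1 - x := by linarith
  have h3 := Real.add_one_le_exp (x / (1 - x))
  have h4 : x / (1 - x) + 1 = (1 - x)⁻¹ := by
    field_simp
    ring
  rw [h4] at h3
  have h5 : x / (1 - x) ≤ 2 * x := by
    rw [div_le_iff₀ h2]
    nlinarith
  have h6 : (1 - x)⁻¹ ≤ Real.exp (2 * x) := h3.trans (Real.exp_le_exp.2 h5)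
  rw [Real.exp_neg]
  rw [inv_le_comm₀ (Real.exp_pos _) h2]
  exact h6

theorem exp_le_one_sub_pow (x : ℝ) (h0 : 0 ≤ x) (h1 : x ≤ 1 / 2) (n : ℕ) :
    Real.exp (-(2 * x * n)) ≤ (1 - x) ^ n := by
  have h2 := pow_le_pow_left₀ (Real.exp_pos _).le (exp_le_one_sub x h0 h1) n
  rw [← Real.exp_nat_mul] at h2
  have h3 : (n : ℝ) * -(2 * x) = -(2 * x * n) := by ring
  rwa [h3] at h2

theorem min_sProb_pow_ge (q m K : ℕ) (hq : 2 ≤ q) (hm : 0 < m) :
    Real.exp (-(2 * (m - 1 : ℕ) * K / q)) ≤ (min 1 (sProb q m)) ^ K := by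
  have hq1 : (2 : ℝ) ≤ q := by exact_mod_cast hq
  have hx0 : 0 ≤ 1 / (q : ℝ) := by positivity
  have hx1 : 1 / (q : ℝ) ≤ 1 / 2 := one_div_le_one_div_of_le (by norm_num) hq1
  have h1 : (1 - 1 / (q : ℝ)) ^ (m - 1) ≤ min 1 (sProb q m) :=
    le_min (pow_le_one₀ (by linarith) (by linarith)) (sProb_ge q m hq hm)
  have h2 := exp_le_one_sub_pow (1 / (q : ℝ)) hx0 hx1 ((m - 1) * K)
  calc Real.exp (-(2 * (m - 1 : ℕ) * K / q))
      = Real.exp (-(2 * (1 / (q : ℝ)) * (((m - 1) * K : ℕ) : ℝ))) := by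
        congr 1
        push_cast
        ring
    _ ≤ (1 - 1 / (q : ℝ)) ^ ((m - 1) * K) := h2
    _ = ((1 - 1 / (q : ℝ)) ^ (m - 1)) ^ K := by rw [pow_mul]
    _ ≤ _ := pow_le_pow_left₀ (pow_nonneg (by linarith) _) h1 _

theorem tau_pow_ge (q m n : ℕ) (hq : 2 ≤ q) (hm : 0 < m) (hn : n ≤ q ^ m) :
    Real.exp (-2) ≤ (1 - 1 / (q : ℝ) ^ m) ^ n := by
  have hq1 : (2 : ℝ) ≤ q := by exact_mod_cast hq
  have hqm : (2 : ℝ) ≤ (q : ℝ) ^ m := by
    calc (2 : ℝ) ≤ q := hq1
      _ = (q : ℝ) ^ 1 := (pow_one _).symm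
      _ ≤ _ := pow_le_pow_right₀ (by linarith) hm
  have h2 := exp_le_one_sub_pow (1 / (q : ℝ) ^ m) (by positivity)
    (one_div_le_one_div_of_le (by norm_num) hqm) n
  refine le_trans (Real.exp_le_exp.2 ?_) h2
  have h3 : (n : ℝ) ≤ (q : ℝ) ^ m := by exact_mod_cast hn
  have h4 : 2 * (1 / (q : ℝ) ^ m) * n ≤ 2 := by
    rw [mul_one_div, div_mul_eq_mul_div, div_le_iff₀ (by positivity)]
    linarith
  linarith

theorem card_proj (k : Type*) [Field k] [Fintype k] (m : ℕ) [Fintype (ℙ k (Fin m → k))] :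
    Fintype.card (ℙ k (Fin m → k)) = ∑ i ∈ Finset.range m, Fintype.card k ^ i := by
  have h := Projectivization.card_of_finrank k (Fin m → k) (n := m) (by simp)
  rw [Nat.card_eq_fintype_card, Nat.card_eq_fintype_card] at h
  exact h

section prob

variable {k : Type*} [Field k] [Fintype k] [DecidableEq k]

open Classical in
/-- dimension three: all periodic points good with probability at least `c / q` -/
theorem prob_all_four [Fintype (ℙ k (Fin 4 → k))] :
    Real.exp (-8) / (8 * Fintype.card k)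
      * (Fintype.card (ℙ k (Fin 4 → k) → Matrix (Fin 4) (Fin 4) k) : ℝ)
      ≤ ((univ.filter (fun A : ℙ k (Fin 4 → k) → Matrix (Fin 4) (Fin 4) k => Ev A)).card : ℝ) := by
  have hq : 2 ≤ Fintype.card k := Fintype.one_lt_card
  set q := Fintype.card k with hqdef
  have hn : Fintype.card (ℙ k (Fin 4 → k)) = 1 + q + q ^ 2 + q ^ 3 := by
    rw [card_proj k 4, ← hqdef]
    simp [Finset.sum_range_succ]
  have hn1 : 1 + q + q ^ 2 + q ^ 3 ≤ 2 * q ^ 3 := by nlinarith [sq_nonneg q, mul_self_nonneg q]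
  have hn2 : 1 + q + q ^ 2 + q ^ 3 ≤ q ^ 4 := by
    have : 2 * q ^ 3 ≤ q ^ 4 := by nlinarith [pow_pos (show 0 < q by omega) 3]
    omega
  have hn3 : 2 * q ^ 2 ≤ 1 + q + q ^ 2 + q ^ 3 := by
    have : q ^ 2 ≤ q ^ 3 := Nat.pow_le_pow_right (by omega) (by norm_num)
    nlinarith
  have hq0 : (0 : ℝ) < q := by exact_mod_cast (by omega : 0 < q)
  have h1 := card_cyc_le_lower (X := ℙ k (Fin 4 → k)) q (by rw [hn]; exact hn3)
  have h2 := card_Ev_ge_of (k := k) (m := 4) (by norm_num) q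
    ((q : ℝ) ^ 2 / (4 * Fintype.card (ℙ k (Fin 4 → k)))) h1
  refine le_trans (mul_le_mul_of_nonneg_right ?_ (by positivity)) h2
  rw [hn, ← hqdef]
  have h3 := tau_pow_ge q 4 (1 + q + q ^ 2 + q ^ 3) hq (by norm_num) hn2
  have h4 := min_sProb_pow_ge q 4 q hq (by norm_num)
  have h5 : Real.exp (-6) ≤ (min 1 (sProb q 4)) ^ q := by
    refine le_trans (Real.exp_le_exp.2 ?_) h4
    push_cast
    rw [mul_div_assoc, div_self hq0.ne']
    norm_num
  have h6 : 1 / (8 * (q : ℝ)) ≤ (q : ℝ) ^ 2 / (4 * ((1 + q + q ^ 2 + q ^ 3 : ℕ) : ℝ)) := by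
    have h7 : ((1 + q + q ^ 2 + q ^ 3 : ℕ) : ℝ) ≤ 2 * (q : ℝ) ^ 3 := by exact_mod_cast hn1
    have h8 : (0 : ℝ) < ((1 + q + q ^ 2 + q ^ 3 : ℕ) : ℝ) := by positivity
    rw [div_le_div_iff₀ (by positivity) (by positivity)]
    nlinarith
  calc Real.exp (-8) / (8 * (q : ℝ)) = 1 / (8 * (q : ℝ)) * Real.exp (-2) * Real.exp (-6) := by
        rw [mul_assoc, ← Real.exp_add]
        norm_num
        ring
    _ ≤ _ := by
        apply mul_le_mul _ h5 (Real.exp_pos _).le
        · have : 0 ≤ (1 : ℝ) - 1 / (q : ℝ) ^ 4 := by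
            have h12 : 1 / (q : ℝ) ^ 4 ≤ 1 := by
              rw [div_le_one (by positivity)]
              exact one_le_pow₀ (by exact_mod_cast (by omega : 1 ≤ q))
            linarith
          positivity
        apply mul_le_mul h6 h3 (Real.exp_pos _).le (by positivity)

open Classical in
/-- dimension four: a fixed orbit is good with probability at least `c / q` -/
theorem prob_at_five [Fintype (ℙ k (Fin 5 → k))] (x₀ : ℙ k (Fin 5 → k)) :
    Real.exp (-10) / (8 * Fintype.card k)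
      * (Fintype.card (ℙ k (Fin 5 → k) → Matrix (Fin 5) (Fin 5) k) : ℝ)
      ≤ ((univ.filter (fun A : ℙ k (Fin 5 → k) → Matrix (Fin 5) (Fin 5) k =>
        EvAt A x₀)).card : ℝ) := by
  have hq : 2 ≤ Fintype.card k := Fintype.one_lt_card
  set q := Fintype.card k with hqdef
  have hn : Fintype.card (ℙ k (Fin 5 → k)) = 1 + q + q ^ 2 + q ^ 3 + q ^ 4 := by
    rw [card_proj k 5, ← hqdef]
    simp [Finset.sum_range_succ]
  have hn1 : 1 + q + q ^ 2 + q ^ 3 + q ^ 4 ≤ 2 * q ^ 4 := by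
    have h1 : 1 + q + q ^ 2 + q ^ 3 ≤ 2 * q ^ 3 := by
      nlinarith [sq_nonneg q, mul_self_nonneg q]
    have : 2 * q ^ 3 ≤ q ^ 4 := by nlinarith [pow_pos (show 0 < q by omega) 3]
    omega
  have hq0 : (0 : ℝ) < q := by exact_mod_cast (by omega : 0 < q)
  have hq2 : (2 : ℝ) ≤ q := by exact_mod_cast hq
  have h2 := card_EvAt_ge (k := k) (m := 5) (by norm_num) x₀ (q ^ 2) q (by
    rw [hn]
    have : (q ^ 2) ^ 2 = q ^ 4 := by ring
    omega)
  refine le_trans (mul_le_mul_of_nonneg_right ?_ (by positivity)) (le_trans h2 (le_of_eq ?_))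
  · rw [hn, ← hqdef]
    have h3 := tau_pow_ge q 5 (q ^ 2) hq (by norm_num)
      (Nat.pow_le_pow_right (by omega) (by norm_num))
    have h4 := min_sProb_pow_ge q 5 q hq (by norm_num)
    have h5 : Real.exp (-8) ≤ (min 1 (sProb q 5)) ^ q := by
      refine le_trans (Real.exp_le_exp.2 ?_) h4
      push_cast
      rw [mul_div_assoc, div_self hq0.ne']
      norm_num
    have hsub : ((q ^ 2 - q : ℕ) : ℝ) = (q : ℝ) ^ 2 - q := by
      rw [Nat.cast_sub (by nlinarith)]
      push_cast; rfl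
    have h6 : 1 / (8 * (q : ℝ))
        ≤ ((q ^ 2 - q : ℕ) : ℝ) * q / (2 * ((1 + q + q ^ 2 + q ^ 3 + q ^ 4 : ℕ) : ℝ)) := by
      have h7 : ((1 + q + q ^ 2 + q ^ 3 + q ^ 4 : ℕ) : ℝ) ≤ 2 * (q : ℝ) ^ 4 := by
        exact_mod_cast hn1
      have h8 : (0 : ℝ) < ((1 + q + q ^ 2 + q ^ 3 + q ^ 4 : ℕ) : ℝ) := by positivity
      rw [hsub, div_le_div_iff₀ (by positivity) (by positivity)]
      have h9 : (q : ℝ) ^ 2 / 2 ≤ (q : ℝ) ^ 2 - q := by nlinarith
      have h10 : (q : ℝ) ^ 2 / 2 * q * (8 * q) ≤ ((q : ℝ) ^ 2 - q) * q * (8 * q) := by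
        apply mul_le_mul_of_nonneg_right _ (by positivity)
        exact mul_le_mul_of_nonneg_right h9 hq0.le
      nlinarith
    calc Real.exp (-10) / (8 * (q : ℝ)) = 1 / (8 * (q : ℝ)) * Real.exp (-2) * Real.exp (-8) := by
          rw [mul_assoc, ← Real.exp_add]
          norm_num
          ring
      _ ≤ _ := by
          apply mul_le_mul _ h5 (Real.exp_pos _).le
          · have : 0 ≤ (1 : ℝ) - 1 / (q : ℝ) ^ 5 := by
              have h12 : 1 / (q : ℝ) ^ 5 ≤ 1 := by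
                rw [div_le_one (by positivity)]
                exact one_le_pow₀ (by linarith)
              linarith
            positivity
          apply mul_le_mul h6 h3 (Real.exp_pos _).le (by positivity)
  · congr!

theorem ev_one (m : ℕ) (k : Type*) [Field k] [DecidableEq k] :
    Ev (fun _ : ℙ k (Fin m → k) => (1 : Matrix (Fin m) (Fin m) k)) := by
  intro x
  refine ⟨?_, fun _ => ?_⟩
  · rw [Matrix.one_mulVec]
    exact x.rep_nonzero
  · rw [Matrix.det_one]
    exact one_ne_zero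

end prob

end Pool.Agent.Helper38.Dml
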