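import Mathlib
import Pool.Agent.Helper38.Dml.Transfer
import Pool.Agent.Helper38.Dml.AssemblyGen
import Pool.Agent.Helper38.Dml.Embed
import Pool.Agent.Helper36.SplitPrimes

/-!
# Dimensions three and four, and positive proportion in all dimensions
-/

set_option autoImplicit false

open Finset Function MvPolynomial
open scoped LinearAlgebra.Projectivization

namespace Pool.Agent.Helper38.Dml

/-- finite sets of primes with an embedding of `K` and small product of `1 - c/p` -/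
theorem exists_finset_primes (K : IntermediateField ℚ ℂ) (hK : K.FG) (c : ℝ) (hc : 0 < c)
    (ε : ℝ) (hε : 0 < ε) :
    ∃ t : Finset ℕ, (∀ p ∈ t, 2 < p ∧ c ≤ p ∧ ∃ hp : p.Prime, haveI := Fact.mk hp;
      Nonempty (K →+* ℚ_[p])) ∧ ∏ p ∈ t, (1 - c / (p : ℝ)) ≤ ε := by
  classical
  have hfg := IntermediateField.fg_top_iff.2 (IntermediateField.essFiniteType_iff.2 hK)
  obtain ⟨g₀, hg₀, M, hM⟩ := exists_embedding_all hfg
  have hns := Pool.Agent.Helper36.SplitPrimes.not_summable_prime_root g₀ hg₀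
  set S : Set ℕ := {p : ℕ | p.Prime ∧ ∃ n : ℤ, (p : ℤ) ∣ g₀.eval n} with hS
  obtain ⟨M', hM'⟩ := exists_nat_ge c
  set N := M + M' + 2 with hN
  set C : ℝ := (-Real.log ε) / c + N + 1 with hC
  have hex : ∃ u : Finset ℕ, C < ∑ p ∈ u, S.indicator (fun p => (1 : ℝ) / p) p := by
    by_contra hcon
    push Not at hcon
    apply hns
    refine summable_of_sum_le (c := C) ?_ hcon
    intro p
    exact Set.indicator_nonneg (fun _ _ => by positivity) p
  obtain ⟨u, hu⟩ := hex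
  set t := u.filter (fun p => p ∈ S ∧ N < p) with ht
  refine ⟨t, ?_, ?_⟩
  · intro p hp
    rw [ht, mem_filter] at hp
    obtain ⟨_, hpS, hpN⟩ := hp
    refine ⟨by omega, ?_, hpS.1, hM p (by omega) hpS.1 hpS.2⟩
    have : (M' : ℝ) ≤ p := by exact_mod_cast (by omega : M' ≤ p)
    linarith
  · have h1 : ∑ p ∈ u, S.indicator (fun p => (1 : ℝ) / p) p
        ≤ ∑ p ∈ t, (1 : ℝ) / p + (N + 1) := by
      have h2 : ∑ p ∈ u, S.indicator (fun p => (1 : ℝ) / p) p
          ≤ ∑ p ∈ t ∪ Finset.range (N + 1), S.indicator (fun p => (1 : ℝ) / p) p := by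
        have h3 : ∑ p ∈ u, S.indicator (fun p => (1 : ℝ) / p) p
            = ∑ p ∈ u.filter (fun p => p ∈ S), S.indicator (fun p => (1 : ℝ) / p) p := by
          rw [Finset.sum_filter]
          apply Finset.sum_congr rfl
          intro p _
          by_cases hp : p ∈ S
          · rw [if_pos hp]
          · rw [if_neg hp, Set.indicator_of_notMem hp]
        rw [h3]
        apply Finset.sum_le_sum_of_subset_of_nonneg
        · intro p hp
          rw [mem_filter] at hp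
          rw [mem_union, ht, mem_filter, mem_range]
          by_cases h : N < p
          · left; exact ⟨hp.1, hp.2, h⟩
          · right; omega
        · intro p _ _
          exact Set.indicator_nonneg (fun _ _ => by positivity) p
      refine h2.trans ?_
      have h6 := Finset.sum_union_inter (s₁ := t) (s₂ := Finset.range (N + 1))
        (f := S.indicator (fun p => (1 : ℝ) / p))
      have h7 : 0 ≤ ∑ p ∈ t ∩ Finset.range (N + 1), S.indicator (fun p => (1 : ℝ) / p) p :=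
        Finset.sum_nonneg fun p _ => Set.indicator_nonneg (fun _ _ => by positivity) p
      have hle1 : ∀ p : ℕ, (1 : ℝ) / p ≤ 1 := by
        intro p
        rcases Nat.eq_zero_or_pos p with h0 | h0
        · rw [h0]; simp
        · rw [div_le_one (by exact_mod_cast h0)]
          exact_mod_cast h0
      have hind : ∀ p : ℕ, S.indicator (fun p => (1 : ℝ) / p) p ≤ 1 / p := by
        intro p
        exact Set.indicator_le_self' (fun _ _ => by positivity) p
      have h8 : ∑ p ∈ t, S.indicator (fun p => (1 : ℝ) / p) p ≤ ∑ p ∈ t, (1 : ℝ) / p :=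
        Finset.sum_le_sum fun p _ => hind p
      have h9 : ∑ p ∈ Finset.range (N + 1), S.indicator (fun p => (1 : ℝ) / p) p ≤ (N + 1) := by
        calc ∑ p ∈ Finset.range (N + 1), S.indicator (fun p => (1 : ℝ) / p) p
            ≤ ∑ p ∈ Finset.range (N + 1), (1 : ℝ) :=
              Finset.sum_le_sum fun p _ => (hind p).trans (hle1 p)
          _ = (N + 1) := by
              rw [Finset.sum_const, Finset.card_range, nsmul_eq_mul, mul_one]
              push_cast
              rfl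
      linarith
    have h4 : -Real.log ε ≤ c * ∑ p ∈ t, (1 : ℝ) / p := by
      have h5 : (-Real.log ε) / c ≤ ∑ p ∈ t, (1 : ℝ) / p := by linarith
      rw [div_le_iff₀ hc] at h5
      linarith
    calc ∏ p ∈ t, (1 - c / (p : ℝ)) ≤ ∏ p ∈ t, Real.exp (-(c / (p : ℝ))) := by
          apply Finset.prod_le_prod
          · intro p hp
            rw [ht, mem_filter] at hp
            have hp0 : (0 : ℝ) < p := by exact_mod_cast hp.2.1.1.pos
            have : (M' : ℝ) ≤ p := by exact_mod_cast (by omega : M' ≤ p)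
            have : c / (p : ℝ) ≤ 1 := by
              rw [div_le_one hp0]; linarith
            linarith
          · intro p _
            have := Real.add_one_le_exp (-(c / (p : ℝ)))
            linarith
      _ = Real.exp (-(c * ∑ p ∈ t, (1 : ℝ) / p)) := by
          rw [← Real.exp_sum, Finset.sum_neg_distrib, Finset.mul_sum]
          congr 2
          apply Finset.sum_congr rfl
          intro p _
          ring
      _ ≤ Real.exp (Real.log ε) := Real.exp_le_exp.2 (by linarith)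
      _ = ε := Real.exp_log hε

open Classical in
/-- the local bad set attached to an event -/
theorem exists_local_bad (M p : ℕ) [Fact p.Prime] (hp2 : p ≠ 2) (d : ℕ)
    [Fintype (ℙ (ZMod p) (Fin (M + 1) → ZMod p))]
    (hd : 2 * Fintype.card (ℙ (ZMod p) (Fin (M + 1) → ZMod p)) ≤ d)
    (Q : (ℙ (ZMod p) (Fin (M + 1) → ZMod p) → Matrix (Fin (M + 1)) (Fin (M + 1)) (ZMod p)) → Prop)
    (κ : ℝ)
    (hκ : κ * (Fintype.card (ℙ (ZMod p) (Fin (M + 1) → ZMod p)
        → Matrix (Fin (M + 1)) (Fin (M + 1)) (ZMod p)) : ℝ)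
      ≤ ((univ.filter (fun A : ℙ (ZMod p) (Fin (M + 1) → ZMod p)
        → Matrix (Fin (M + 1)) (Fin (M + 1)) (ZMod p) => Q A)).card : ℝ)) :
    ∃ (A : MvPolynomial (Fin (M + 1)) ℤ) (e : ℕ)
      (B : Finset (Fin (M + 1) → Mon (M + 1) d → ZMod p)),
      A.IsHomogeneous e ∧
      ((B.card : ℝ) ≤ (1 - κ)
        * (p : ℝ) ^ (Fintype.card (Fin (M + 1)) * Fintype.card (Mon (M + 1) d))) ∧
      ∀ c, c ∉ B →
        Q (jfam (fun i => MvPolynomial.map (Int.castRingHom (ZMod p)) A * frm (c i))) := by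
  obtain ⟨e, A, hA, hde, hA1⟩ := exists_twist M p 1 Fact.out hp2 one_ne_zero d
  have hval : ∀ x : Fin (M + 1) → ZMod p, x ≠ 0 →
      MvPolynomial.eval x (MvPolynomial.map (Int.castRingHom (ZMod p)) A) = 1 :=
    fun x hx => hA1 (ZMod p) (by rw [ZMod.card, pow_one]) x hx
  have hsurj := fun lam => Pool.Agent.Helper36.Jets.jets_surjective (d := d)
    (MvPolynomial.map (Int.castRingHom (ZMod p)) A) (hA.map _)
    (fun x hx => by rw [hval x hx]; exact one_ne_zero)
    (by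
      intro h
      rw [ZMod.natCast_eq_zero_iff] at h
      exact hde h) hd lam
  have h1 := card_transfer (MvPolynomial.map (Int.castRingHom (ZMod p)) A) hsurj Q κ hκ
  refine ⟨A, e, univ.filter (fun c : Fin (M + 1) → Mon (M + 1) d → ZMod p =>
    ¬ Q (jfam (fun i => MvPolynomial.map (Int.castRingHom (ZMod p)) A * frm (c i)))), hA, ?_, ?_⟩
  · have h2 : (Fintype.card (Fin (M + 1) → Mon (M + 1) d → ZMod p) : ℝ)
        = (p : ℝ) ^ (Fintype.card (Fin (M + 1)) * Fintype.card (Mon (M + 1) d)) := by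
      rw [Fintype.card_fun, Fintype.card_fun, ZMod.card, ← pow_mul,
        mul_comm (Fintype.card (Fin (M + 1)))]
      push_cast
      rfl
    have h3 : (univ.filter (fun c : Fin (M + 1) → Mon (M + 1) d → ZMod p =>
        Q (jfam (fun i => MvPolynomial.map (Int.castRingHom (ZMod p)) A * frm (c i))))).card
        + (univ.filter (fun c : Fin (M + 1) → Mon (M + 1) d → ZMod p =>
        ¬ Q (jfam (fun i => MvPolynomial.map (Int.castRingHom (ZMod p)) A * frm (c i))))).card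
        = Fintype.card (Fin (M + 1) → Mon (M + 1) d → ZMod p) := by
      rw [Finset.card_filter_add_card_filter_not, Finset.card_univ]
    have h4 : ((univ.filter (fun c : Fin (M + 1) → Mon (M + 1) d → ZMod p =>
        Q (jfam (fun i => MvPolynomial.map (Int.castRingHom (ZMod p)) A * frm (c i))))).card : ℝ)
        + ((univ.filter (fun c : Fin (M + 1) → Mon (M + 1) d → ZMod p =>
        ¬ Q (jfam (fun i => MvPolynomial.map (Int.castRingHom (ZMod p)) A * frm (c i))))).card : ℝ)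
        = (Fintype.card (Fin (M + 1) → Mon (M + 1) d → ZMod p) : ℝ) := by
      exact_mod_cast h3
    rw [← h2]
    linarith
  · intro c hc
    by_contra h
    exact hc (by rw [mem_filter]; exact ⟨mem_univ _, h⟩)

open Classical in
/-- **Density theorem**, abstract form. -/
theorem density_gen (M : ℕ) {ι : Type} [Fintype ι] (p : ι → ℕ) [hf : ∀ i, Fact (p i).Prime]
    (hinj : Injective p) (hp2 : ∀ i, p i ≠ 2)
    [∀ i, Fintype (ℙ (ZMod (p i)) (Fin (M + 1) → ZMod (p i)))]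
    (R : (Fin (M + 1) → MvPolynomial (Fin (M + 1)) ℤ) → Prop)
    (Q : ∀ i, (ℙ (ZMod (p i)) (Fin (M + 1) → ZMod (p i))
      → Matrix (Fin (M + 1)) (Fin (M + 1)) (ZMod (p i))) → Prop)
    (κ : ι → ℝ) (hκ1 : ∀ i, κ i ≤ 1)
    (hκ : ∀ i, κ i * (Fintype.card (ℙ (ZMod (p i)) (Fin (M + 1) → ZMod (p i))
        → Matrix (Fin (M + 1)) (Fin (M + 1)) (ZMod (p i))) : ℝ)
      ≤ ((univ.filter (fun A : ℙ (ZMod (p i)) (Fin (M + 1) → ZMod (p i))
        → Matrix (Fin (M + 1)) (Fin (M + 1)) (ZMod (p i)) => Q i A)).card : ℝ))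
    (hR : ∀ (i : ι) (d e : ℕ) (A : MvPolynomial (Fin (M + 1)) ℤ), A.IsHomogeneous e →
      ∀ c : Fin (M + 1) → Mon (M + 1) d → ℤ,
        Q i (jfam (fun j => MvPolynomial.map (Int.castRingHom (ZMod (p i))) (A * frm (c j)))) →
        R (toFormsG c)) :
    ∃ D : ℕ, ∀ d : ℕ, D ≤ d → ∀ η : ℝ, 0 < η → ∃ H₀ : ℕ, ∀ H : ℕ, H₀ ≤ H →
      (({F | F ∈ BoxG (M + 1) d H ∧ ¬ (NoZeroG F ∧ R F)}.ncard : ℕ) : ℝ)
        ≤ ((∏ i, (1 - κ i)) + η) * ((BoxG (M + 1) d H).ncard : ℝ) := by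
  refine ⟨1 + ∑ i, 2 * Fintype.card (ℙ (ZMod (p i)) (Fin (M + 1) → ZMod (p i))),
    fun d hd η hη => ?_⟩
  have hdi : ∀ i, 2 * Fintype.card (ℙ (ZMod (p i)) (Fin (M + 1) → ZMod (p i))) ≤ d := by
    intro i
    have h1 := Finset.single_le_sum
      (f := fun i => 2 * Fintype.card (ℙ (ZMod (p i)) (Fin (M + 1) → ZMod (p i))))
      (fun _ _ => Nat.zero_le _) (mem_univ i)
    omega
  choose A e B hA hB hQ using fun i => exists_local_bad M (p i) (hp2 i) d (hdi i) (Q i) (κ i) (hκ i)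
  refine assembly_gen (M + 1) d (by omega) R p (fun i => (hf i).out) hinj B (fun i => 1 - κ i)
    (fun i => by have := hκ1 i; linarith) hB ?_ η hη
  intro c i hc
  have h1 := hQ i _ hc
  apply hR i d (e i) (A i) (hA i) c
  convert h1 using 1
  congr 1
  funext j
  rw [map_mul, map_frm]
  rfl

open Classical in
theorem prob_four_zmod (p : ℕ) [Fact p.Prime] [Fintype (ℙ (ZMod p) (Fin (3 + 1) → ZMod p))] :
    Real.exp (-8) / 8 / (p : ℝ) * (Fintype.card (ℙ (ZMod p) (Fin (3 + 1) → ZMod p)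
        → Matrix (Fin (3 + 1)) (Fin (3 + 1)) (ZMod p)) : ℝ)
      ≤ ((univ.filter (fun A : ℙ (ZMod p) (Fin (3 + 1) → ZMod p)
        → Matrix (Fin (3 + 1)) (Fin (3 + 1)) (ZMod p) => Ev A)).card : ℝ) := by
  have h1 := prob_all_four (k := ZMod p)
  rw [ZMod.card, ← div_div] at h1
  exact h1

open Classical in
theorem prob_five_zmod (p : ℕ) [Fact p.Prime] [Fintype (ℙ (ZMod p) (Fin (4 + 1) → ZMod p))]
    (x₀ : ℙ (ZMod p) (Fin (4 + 1) → ZMod p)) :
    Real.exp (-10) / 8 / (p : ℝ) * (Fintype.card (ℙ (ZMod p) (Fin (4 + 1) → ZMod p)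
        → Matrix (Fin (4 + 1)) (Fin (4 + 1)) (ZMod p)) : ℝ)
      ≤ ((univ.filter (fun A : ℙ (ZMod p) (Fin (4 + 1) → ZMod p)
        → Matrix (Fin (4 + 1)) (Fin (4 + 1)) (ZMod p) => EvAt A x₀)).card : ℝ) := by
  have h1 := prob_at_five (k := ZMod p) x₀
  rw [ZMod.card, ← div_div] at h1
  exact h1

/-- the property for all points over `K` -/
def AllPts (K : IntermediateField ℚ ℂ) {m : ℕ} (F : Fin m → MvPolynomial (Fin m) ℤ) : Prop :=
  ∀ a : Fin m → ℂ, (∀ i, a i ∈ K) → a ≠ 0 → DMLat F a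

theorem allPts_of_Ev (K : IntermediateField ℚ ℂ) (M d e p : ℕ) [Fact p.Prime] (ι : K →+* ℚ_[p])
    (A : MvPolynomial (Fin (M + 1)) ℤ) (hA : A.IsHomogeneous e)
    (c : Fin (M + 1) → Mon (M + 1) d → ℤ)
    (h : Ev (jfam (fun j => MvPolynomial.map (Int.castRingHom (ZMod p)) (A * frm (c j))))) :
    AllPts K (toFormsG c) := by
  intro a haK ha
  have ha' : (fun i => (⟨a i, haK i⟩ : K)) ≠ 0 := by
    intro h
    apply ha
    funext i
    exact congrArg Subtype.val (congrFun h i)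
  obtain ⟨y₀, hy₀, h1⟩ := exists_reduction (L := ℂ) p ι (fun i => (⟨a i, haK i⟩ : K)) ha'
  apply h1 d (toFormsG c) (fun i => frm_isHomogeneous _) A
  have hev : EvAt (jfam (fun j => MvPolynomial.map (Int.castRingHom (ZMod p)) (A * frm (c j))))
      (Projectivization.mk (ZMod p) y₀ hy₀) := fun n => h _
  exact goodAt_of_EvAt (d := e + d)
    (fun i => (hA.mul (frm_isHomogeneous (c i))).map _) y₀ hy₀ hev

/-- **Dimension three**, almost all maps, all points over `K`. -/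
theorem dim_three (K : IntermediateField ℚ ℂ) (hK : K.FG) (ε : ℝ) (hε : 0 < ε) :
    ∃ D : ℕ, ∀ d : ℕ, D ≤ d → ∃ H₀ : ℕ, ∀ H : ℕ, H₀ ≤ H →
      (({F | F ∈ BoxG 4 d H ∧ ¬ (NoZeroG F ∧ AllPts K F)}.ncard : ℕ) : ℝ)
        ≤ ε * ((BoxG 4 d H).ncard : ℝ) := by
  classical
  set c : ℝ := Real.exp (-8) / 8 with hc
  have hc0 : 0 < c := by rw [hc]; positivity
  obtain ⟨t, ht, hprod⟩ := exists_finset_primes K hK c hc0 (ε / 2) (by positivity)
  have hfact : ∀ i : t, Fact (i : ℕ).Prime := fun i => ⟨(ht i.1 i.2).2.2.1⟩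
  have hfin : ∀ i : t, Fintype (ℙ (ZMod (i : ℕ)) (Fin (3 + 1) → ZMod (i : ℕ))) :=
    fun i => Fintype.ofFinite _
  obtain ⟨D, hD⟩ := density_gen 3 (fun i : t => (i : ℕ)) Subtype.val_injective
    (fun i => by have := (ht i.1 i.2).1; omega) (AllPts K) (fun i => Ev)
    (fun i => c / (i : ℕ)) (fun i => by
      have h1 : (0 : ℝ) < ((i : ℕ) : ℝ) := by exact_mod_cast (hfact i).out.pos
      rw [div_le_one h1]
      exact (ht i.1 i.2).2.1) (fun i => prob_four_zmod (i : ℕ)) (fun i d e A hA c' h => by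
      obtain ⟨ι⟩ := (ht i.1 i.2).2.2.2
      exact allPts_of_Ev K 3 d e (i : ℕ) ι A hA c' h)
  refine ⟨D, fun d hd => ?_⟩
  obtain ⟨H₀, hH₀⟩ := hD d hd (ε / 2) (by positivity)
  refine ⟨H₀, fun H hH => (hH₀ H hH).trans ?_⟩
  apply mul_le_mul_of_nonneg_right _ (by positivity)
  have h2 : ∏ i : t, (1 - c / ((i : ℕ) : ℝ)) = ∏ p ∈ t, (1 - c / (p : ℝ)) :=
    Finset.prod_coe_sort t (fun p => 1 - c / (p : ℝ))
  rw [h2]
  linarith

/-- **Dimension four**, almost all maps, a fixed point. -/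
theorem dim_four (a : Fin 5 → ℂ) (ha : a ≠ 0) (ε : ℝ) (hε : 0 < ε) :
    ∃ D : ℕ, ∀ d : ℕ, D ≤ d → ∃ H₀ : ℕ, ∀ H : ℕ, H₀ ≤ H →
      (({F | F ∈ BoxG 5 d H ∧ ¬ (NoZeroG F ∧ DMLat F a)}.ncard : ℕ) : ℝ)
        ≤ ε * ((BoxG 5 d H).ncard : ℝ) := by
  classical
  set K : IntermediateField ℚ ℂ := IntermediateField.adjoin ℚ (Set.range a) with hKdef
  have hK : K.FG := by
    refine ⟨Finset.univ.image a, ?_⟩
    rw [hKdef]
    simp
  have haK : ∀ i, a i ∈ K := fun i => IntermediateField.subset_adjoin _ _ ⟨i, rfl⟩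
  have ha' : (fun i => (⟨a i, haK i⟩ : K)) ≠ 0 := by
    intro h
    apply ha
    funext i
    exact congrArg Subtype.val (congrFun h i)
  set c : ℝ := Real.exp (-10) / 8 with hc
  have hc0 : 0 < c := by rw [hc]; positivity
  obtain ⟨t, ht, hprod⟩ := exists_finset_primes K hK c hc0 (ε / 2) (by positivity)
  have hfact : ∀ i : t, Fact (i : ℕ).Prime := fun i => ⟨(ht i.1 i.2).2.2.1⟩
  have hfin : ∀ i : t, Fintype (ℙ (ZMod (i : ℕ)) (Fin (4 + 1) → ZMod (i : ℕ))) :=
    fun i => Fintype.ofFinite _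
  have hemb : ∀ i : t, ∃ x₀ : ℙ (ZMod (i : ℕ)) (Fin (4 + 1) → ZMod (i : ℕ)),
      ∀ (d e : ℕ) (A : MvPolynomial (Fin (4 + 1)) ℤ), A.IsHomogeneous e →
      ∀ c : Fin (4 + 1) → Mon (4 + 1) d → ℤ,
        EvAt (jfam (fun j => MvPolynomial.map (Int.castRingHom (ZMod (i : ℕ))) (A * frm (c j)))) x₀ →
        DMLat (toFormsG c) a := by
    intro i
    obtain ⟨ι⟩ := (ht i.1 i.2).2.2.2
    obtain ⟨y₀, hy₀, h1⟩ := exists_reduction (L := ℂ) (i : ℕ) ι (fun i => (⟨a i, haK i⟩ : K)) ha'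
    refine ⟨Projectivization.mk (ZMod (i : ℕ)) y₀ hy₀, fun d e A hA c hev => ?_⟩
    apply h1 d (toFormsG c) (fun i => frm_isHomogeneous _) A
    exact goodAt_of_EvAt (d := e + d)
      (fun i => (hA.mul (frm_isHomogeneous (c i))).map _) y₀ hy₀ hev
  choose x₀ hx₀ using hemb
  obtain ⟨D, hD⟩ := density_gen 4 (fun i : t => (i : ℕ)) Subtype.val_injective
    (fun i => by have := (ht i.1 i.2).1; omega) (fun F => DMLat F a) (fun i A => EvAt A (x₀ i))
    (fun i => c / (i : ℕ)) (fun i => by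
      have h1 : (0 : ℝ) < ((i : ℕ) : ℝ) := by exact_mod_cast (hfact i).out.pos
      rw [div_le_one h1]
      exact (ht i.1 i.2).2.1) (fun i => prob_five_zmod (i : ℕ) (x₀ i)) (fun i d e A hA c' h => hx₀ i d e A hA c' h)
  refine ⟨D, fun d hd => ?_⟩
  obtain ⟨H₀, hH₀⟩ := hD d hd (ε / 2) (by positivity)
  refine ⟨H₀, fun H hH => (hH₀ H hH).trans ?_⟩
  apply mul_le_mul_of_nonneg_right _ (by positivity)
  have h2 : ∏ i : t, (1 - c / ((i : ℕ) : ℝ)) = ∏ p ∈ t, (1 - c / (p : ℝ)) :=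
    Finset.prod_coe_sort t (fun p => 1 - c / (p : ℝ))
  rw [h2]
  linarith

/-- **All dimensions**, positive proportion, all points over `K`. -/
theorem pos_proportion (M : ℕ) (K : IntermediateField ℚ ℂ) (hK : K.FG) :
    ∃ κ : ℝ, 0 < κ ∧ ∃ D : ℕ, ∀ d : ℕ, D ≤ d → ∃ H₀ : ℕ, ∀ H : ℕ, H₀ ≤ H →
      κ * ((BoxG (M + 1) d H).ncard : ℝ)
        ≤ (({F | F ∈ BoxG (M + 1) d H ∧ (NoZeroG F ∧ AllPts K F)}.ncard : ℕ) : ℝ) := by
  classical
  have hfg := IntermediateField.fg_top_iff.2 (IntermediateField.essFiniteType_iff.2 hK)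
  obtain ⟨p, hp2, hp, ⟨ι⟩⟩ := exists_embedding hfg 2
  have hfact : Fact p.Prime := ⟨hp⟩
  have hfin : Fintype (ℙ (ZMod p) (Fin (M + 1) → ZMod p)) := Fintype.ofFinite _
  set κ : ℝ := 1 / (Fintype.card (ℙ (ZMod p) (Fin (M + 1) → ZMod p)
        → Matrix (Fin (M + 1)) (Fin (M + 1)) (ZMod p)) : ℝ) with hκ
  have hcard : (0 : ℝ) < (Fintype.card (ℙ (ZMod p) (Fin (M + 1) → ZMod p)
        → Matrix (Fin (M + 1)) (Fin (M + 1)) (ZMod p)) : ℝ) := by
    exact_mod_cast Fintype.card_pos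
  have hκ0 : 0 < κ := by rw [hκ]; positivity
  have hκ1 : κ ≤ 1 := by
    rw [hκ, div_le_one hcard]
    exact_mod_cast Fintype.card_pos
  obtain ⟨D, hD⟩ := density_gen M (fun _ : Fin 1 => p) (Function.injective_of_subsingleton _)
    (fun _ => by omega) (AllPts K) (fun _ => Ev) (fun _ => κ) (fun _ => hκ1) (fun _ => by
      rw [hκ, one_div, inv_mul_cancel₀ hcard.ne']
      have h1 : 1 ≤ (univ.filter (fun A : ℙ (ZMod p) (Fin (M + 1) → ZMod p)
        → Matrix (Fin (M + 1)) (Fin (M + 1)) (ZMod p) => Ev A)).card := by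
        rw [Nat.one_le_iff_ne_zero, Finset.card_ne_zero]
        exact ⟨_, by rw [mem_filter]; exact ⟨mem_univ _, ev_one (M + 1) (ZMod p)⟩⟩
      exact_mod_cast h1) (fun _ d e A hA c' h => allPts_of_Ev K M d e p ι A hA c' h)
  refine ⟨κ / 2, by positivity, D, fun d hd => ?_⟩
  obtain ⟨H₀, hH₀⟩ := hD d hd (κ / 2) (by positivity)
  refine ⟨H₀, fun H hH => ?_⟩
  have h1 := hH₀ H hH
  rw [Finset.prod_const, Finset.card_univ, Fintype.card_fin, pow_one] at h1
  have h2 : {F | F ∈ BoxG (M + 1) d H ∧ (NoZeroG F ∧ AllPts K F)}.ncard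
      + {F | F ∈ BoxG (M + 1) d H ∧ ¬ (NoZeroG F ∧ AllPts K F)}.ncard
      = (BoxG (M + 1) d H).ncard := by
    have hd1 : Disjoint {F | F ∈ BoxG (M + 1) d H ∧ (NoZeroG F ∧ AllPts K F)}
        {F | F ∈ BoxG (M + 1) d H ∧ ¬ (NoZeroG F ∧ AllPts K F)} := by
      rw [Set.disjoint_left]
      rintro F ⟨_, h3⟩ ⟨_, h4⟩
      exact h4 h3
    rw [← Set.ncard_union_eq hd1 ((BoxG_finite _ _ _).subset fun F hF => hF.1)
      ((BoxG_finite _ _ _).subset fun F hF => hF.1)]
    congr 1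
    ext F
    simp only [Set.mem_union, Set.mem_ofPred_eq]
    constructor
    · rintro (h | h)
      · exact h.1
      · exact h.1
    · intro h
      by_cases h5 : NoZeroG F ∧ AllPts K F
      · exact Or.inl ⟨h, h5⟩
      · exact Or.inr ⟨h, h5⟩
  have h3 : ({F | F ∈ BoxG (M + 1) d H ∧ (NoZeroG F ∧ AllPts K F)}.ncard : ℝ)
      + ({F | F ∈ BoxG (M + 1) d H ∧ ¬ (NoZeroG F ∧ AllPts K F)}.ncard : ℝ)
      = ((BoxG (M + 1) d H).ncard : ℝ) := by exact_mod_cast h2
  nlinarith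

end Pool.Agent.Helper38.Dml
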