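import Mathlib
import Pool.Agent.Helper38.Dml.Product

/-!
# Counting matrices sending a vector to a given vector
-/

set_option autoImplicit false

open Finset Function
open scoped LinearAlgebra.Projectivization

namespace Pool.Agent.Helper38.Dml

section matvec

variable {k : Type*} [Field k] [Fintype k] [DecidableEq k] {m : ℕ}

/-- number of matrices sending a nonzero vector to a given vector -/
theorem card_mulVec_eq {v : Fin m → k} (hv : v ≠ 0) (w : Fin m → k) :
    (univ.filter (fun A : Matrix (Fin m) (Fin m) k => A.mulVec v = w)).card * Fintype.card k ^ m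
      = Fintype.card k ^ (m * m) := by
  classical
  let f : Matrix (Fin m) (Fin m) k →+ (Fin m → k) :=
    { toFun := fun A => A.mulVec v
      map_zero' := by simp
      map_add' := fun A B => Matrix.add_mulVec A B v }
  have hf : Function.Surjective f := by
    obtain ⟨j, hj⟩ : ∃ j, v j ≠ 0 := by
      by_contra h; push Not at h; exact hv (funext h)
    intro w
    refine ⟨Matrix.of (fun i l => if l = j then w i * (v j)⁻¹ else 0), ?_⟩
    change Matrix.mulVec _ v = w
    funext i
    simp [Matrix.mulVec, dotProduct, hj]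
  have h := card_filter_comp f hf (fun w' => w' = w)
  have h1 : Fintype.card (Fin m → k) = Fintype.card k ^ m := by simp
  have h2 : Fintype.card (Matrix (Fin m) (Fin m) k) = Fintype.card k ^ (m * m) := by
    rw [Fintype.card_congr (Matrix.of (m := Fin m) (n := Fin m) (α := k)).symm]
    simp [pow_mul]
  have h3 : (univ.filter (fun w' : Fin m → k => w' = w)).card = 1 := by
    have : univ.filter (fun w' : Fin m → k => w' = w) = {w} := by ext y; simp
    rw [this, Finset.card_singleton]
  rw [h1, h2, h3, one_mul] at h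
  exact h

omit [Fintype k] [DecidableEq k] in
theorem exists_mulVec_eq {w w' : Fin m → k} (hw : w ≠ 0) (hw' : w' ≠ 0) :
    ∃ G : Matrix (Fin m) (Fin m) k, G.det ≠ 0 ∧ G.mulVec w = w' := by
  have htr : MulAction.IsPretransitive (Matrix.SpecialLinearGroup (Fin m) k) (ℙ k (Fin m → k)) :=
    MulAction.isPretransitive_of_is_two_pretransitive
  obtain ⟨g, hg⟩ := MulAction.exists_smul_eq (Matrix.SpecialLinearGroup (Fin m) k)
    (Projectivization.mk k w hw) (Projectivization.mk k w' hw')
  rw [Projectivization.smul_mk, Projectivization.mk_eq_mk_iff] at hg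
  obtain ⟨a, ha⟩ := hg
  have h1 : g • w = (g : Matrix (Fin m) (Fin m) k).mulVec w := rfl
  refine ⟨((a⁻¹ : kˣ) : k) • (g : Matrix (Fin m) (Fin m) k), ?_, ?_⟩
  · rw [Matrix.det_smul, Matrix.SpecialLinearGroup.det_coe, mul_one]
    exact pow_ne_zero _ (Units.ne_zero _)
  · rw [Matrix.smul_mulVec, ← h1, ← ha, Units.smul_def, smul_smul]
    simp

theorem card_mulVec_det_le {v w w' : Fin m → k} (hw : w ≠ 0) (hw' : w' ≠ 0) :
    (univ.filter (fun A : Matrix (Fin m) (Fin m) k => A.mulVec v = w ∧ A.det ≠ 0)).card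
      ≤ (univ.filter (fun A : Matrix (Fin m) (Fin m) k => A.mulVec v = w' ∧ A.det ≠ 0)).card := by
  obtain ⟨G, hG, hGw⟩ := exists_mulVec_eq hw hw'
  apply Finset.card_le_card_of_injOn (fun A => G * A)
  · intro A hA
    simp only [coe_filter, mem_univ, true_and, Set.mem_ofPred_eq] at hA ⊢
    rw [← Matrix.mulVec_mulVec, hA.1, hGw, Matrix.det_mul]
    exact ⟨rfl, mul_ne_zero hG hA.2⟩
  · intro A _ B _ h
    have hu : IsUnit G.det := isUnit_iff_ne_zero.2 hG
    have h1 : G⁻¹ * (G * A) = G⁻¹ * (G * B) := by simp only at h; rw [h]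
    rwa [Matrix.nonsing_inv_mul_cancel_left _ _ hu, Matrix.nonsing_inv_mul_cancel_left _ _ hu] at h1

theorem card_mulVec_det {v w : Fin m → k} (hv : v ≠ 0) (hw : w ≠ 0) :
    (Fintype.card k ^ m - 1)
      * (univ.filter (fun A : Matrix (Fin m) (Fin m) k => A.mulVec v = w ∧ A.det ≠ 0)).card
      = (univ.filter (fun A : Matrix (Fin m) (Fin m) k => A.det ≠ 0)).card := by
  classical
  have h1 : univ.filter (fun A : Matrix (Fin m) (Fin m) k => A.det ≠ 0)
      = (univ.filter (fun z : Fin m → k => z ≠ 0)).biUnion (fun z =>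
        univ.filter (fun A : Matrix (Fin m) (Fin m) k => A.mulVec v = z ∧ A.det ≠ 0)) := by
    ext A
    simp only [mem_filter, mem_univ, true_and, mem_biUnion]
    constructor
    · intro h
      refine ⟨A.mulVec v, ?_, rfl, h⟩
      intro h0
      exact hv (Matrix.eq_zero_of_mulVec_eq_zero h h0)
    · rintro ⟨z, _, _, h⟩
      exact h
  rw [h1, Finset.card_biUnion]
  · rw [Finset.sum_const_nat (m := (univ.filter (fun A : Matrix (Fin m) (Fin m) k =>
      A.mulVec v = w ∧ A.det ≠ 0)).card)]
    · have h3 : (univ.filter (fun w : Fin m → k => w ≠ 0)).card = Fintype.card k ^ m - 1 := by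
        rw [Finset.filter_ne' univ (0 : Fin m → k), Finset.card_erase_of_mem (mem_univ _),
          Finset.card_univ]
        simp
      rw [h3]
    · intro z hz
      rw [mem_filter] at hz
      exact le_antisymm (card_mulVec_det_le hz.2 hw) (card_mulVec_det_le hw hz.2)
  · intro z _ z' _ hne
    change Disjoint (univ.filter (fun A : Matrix (Fin m) (Fin m) k => A.mulVec v = z ∧ A.det ≠ 0))
      (univ.filter (fun A : Matrix (Fin m) (Fin m) k => A.mulVec v = z' ∧ A.det ≠ 0))
    rw [Finset.disjoint_left]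
    intro A hA hA'
    simp only [mem_filter, mem_univ, true_and] at hA hA'
    exact hne (hA.1.symm.trans hA'.1)

/-- the conditional probability of invertibility -/
theorem card_mulVec_det_real {v w : Fin m → k} (hm : 0 < m) (hv : v ≠ 0) (hw : w ≠ 0) :
    ((univ.filter (fun A : Matrix (Fin m) (Fin m) k => A.mulVec v = w ∧ A.det ≠ 0)).card : ℝ)
      = sProb (Fintype.card k) m
        * ((univ.filter (fun A : Matrix (Fin m) (Fin m) k => A.mulVec v = w)).card : ℝ) := by
  have h1 := card_mulVec_det (k := k) hv hw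
  have h2 := card_mulVec_eq (k := k) hv w
  rw [card_det_ne_zero] at h1
  set q := Fintype.card k with hq
  have hq1 : 1 < q := by rw [hq]; exact Fintype.one_lt_card
  have hqm : 1 < q ^ m := Nat.one_lt_pow hm.ne' hq1
  have hqm' : (1 : ℝ) < (q : ℝ) ^ m := by exact_mod_cast hqm
  have h3 : ((q ^ m - 1 : ℕ) : ℝ) = (q : ℝ) ^ m - 1 := by
    rw [Nat.cast_sub hqm.le]; push_cast; rfl
  have h1' : ((q : ℝ) ^ m - 1)
      * ((univ.filter (fun A : Matrix (Fin m) (Fin m) k => A.mulVec v = w ∧ A.det ≠ 0)).card : ℝ)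
      = ((∏ i : Fin m, (q ^ m - q ^ (i : ℕ)) : ℕ) : ℝ) := by
    rw [← h3]; exact_mod_cast h1
  have h2' : ((univ.filter (fun A : Matrix (Fin m) (Fin m) k => A.mulVec v = w)).card : ℝ)
      * (q : ℝ) ^ m = (q : ℝ) ^ (m * m) := by exact_mod_cast h2
  have h4 : (0 : ℝ) < (q : ℝ) ^ m - 1 := by linarith
  have h5 : (0 : ℝ) < (q : ℝ) ^ m := by linarith
  have hq0 : (0 : ℝ) < q := by exact_mod_cast (by omega : 0 < q)
  have h6 : ((univ.filter (fun A : Matrix (Fin m) (Fin m) k => A.mulVec v = w)).card : ℝ)
      = (q : ℝ) ^ (m * m) / (q : ℝ) ^ m := by rw [eq_div_iff h5.ne', h2']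
  rw [h6, sProb, ← h1']
  field_simp

end matvec

section productlemma

variable {X : Type*} [Fintype X] [DecidableEq X]

open Classical in
/-- **Product lemma.** Independent choices `A x ∈ M x`, each with a value in `W x`, uniformly
distributed; the probability that all values are defined and that `P` holds at all the points
selected by the values. -/
theorem product_bound {M W : X → Type*} [∀ x, Fintype (M x)] [∀ x, Fintype (W x)]
    (η : ∀ x, M x → W x → Prop) (hη : ∀ x A w w', η x A w → η x A w' → w = w')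
    (P : ∀ x, M x → Prop) (α s : X → ℝ) (hα : ∀ x, 0 ≤ α x) (hs : ∀ x, 0 < s x)
    (hcard : ∀ x w, α x = ((univ.filter (fun A : M x => η x A w)).card : ℝ))
    (hcardP : ∀ x w, s x * α x ≤ ((univ.filter (fun A : M x => η x A w ∧ P x A)).card : ℝ))
    (Per : (∀ x, W x) → X → Prop) (μ : ℝ)
    (hμ : ∑ w : (∀ x, W x), ∑ x ∈ univ.filter (fun x => Per w x), (-Real.log (s x))
      ≤ μ * (Fintype.card (∀ x, W x) : ℝ)) :
    Real.exp (-μ) * ∏ x, (α x * (Fintype.card (W x) : ℝ))
      ≤ ((univ.filter (fun A : (∀ x, M x) => ∃ w : (∀ x, W x),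
        (∀ x, η x (A x) (w x)) ∧ ∀ x, Per w x → P x (A x))).card : ℝ) := by
  let B : (∀ x, W x) → ∀ x, Finset (M x) := fun w x =>
    if Per w x then univ.filter (fun A : M x => η x A (w x) ∧ P x A)
    else univ.filter (fun A : M x => η x A (w x))
  have hB1 : ∀ w x A, A ∈ B w x → η x A (w x) := by
    intro w x A hA
    simp only [B] at hA
    split_ifs at hA with h
    · exact (mem_filter.1 hA).2.1
    · exact (mem_filter.1 hA).2
  have hB2 : ∀ w x A, A ∈ B w x → Per w x → P x A := by
    intro w x A hA hx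
    simp only [B, if_pos hx] at hA
    exact (mem_filter.1 hA).2.2
  have hsub : (univ : Finset (∀ x, W x)).biUnion (fun w => Fintype.piFinset (B w))
      ⊆ univ.filter (fun A : (∀ x, M x) => ∃ w : (∀ x, W x),
        (∀ x, η x (A x) (w x)) ∧ ∀ x, Per w x → P x (A x)) := by
    intro A hA
    rw [mem_biUnion] at hA
    obtain ⟨w, _, hA⟩ := hA
    rw [Fintype.mem_piFinset] at hA
    rw [mem_filter]
    exact ⟨mem_univ _, w, fun x => hB1 w x _ (hA x), fun x hx => hB2 w x _ (hA x) hx⟩
  have hle := Finset.card_le_card hsub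
  rw [Finset.card_biUnion] at hle
  swap
  · intro w _ w' _ hne
    change Disjoint (Fintype.piFinset (B w)) (Fintype.piFinset (B w'))
    rw [Finset.disjoint_left]
    intro A hA hA'
    rw [Fintype.mem_piFinset] at hA hA'
    apply hne
    funext x
    exact hη x (A x) _ _ (hB1 w x _ (hA x)) (hB1 w' x _ (hA' x))
  have hle' : ∑ w : (∀ x, W x), ((Fintype.piFinset (B w)).card : ℝ)
      ≤ ((univ.filter (fun A : (∀ x, M x) => ∃ w : (∀ x, W x),
        (∀ x, η x (A x) (w x)) ∧ ∀ x, Per w x → P x (A x))).card : ℝ) := by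
    exact_mod_cast hle
  refine le_trans ?_ hle'
  have hterm : ∀ w : (∀ x, W x), (∏ x, α x)
      * Real.exp (-(∑ x ∈ univ.filter (fun x => Per w x), (-Real.log (s x))))
      ≤ ((Fintype.piFinset (B w)).card : ℝ) := by
    intro w
    rw [Fintype.card_piFinset]
    push_cast
    have h1 : Real.exp (-(∑ x ∈ univ.filter (fun x => Per w x), (-Real.log (s x))))
        = ∏ x, (if Per w x then s x else 1) := by
      rw [← Finset.sum_neg_distrib, Real.exp_sum, Finset.prod_ite]
      rw [Finset.prod_const_one, mul_one]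
      apply Finset.prod_congr rfl
      intro x _
      rw [neg_neg, Real.exp_log (hs x)]
    rw [h1, ← Finset.prod_mul_distrib]
    apply Finset.prod_le_prod
    · intro x _
      apply mul_nonneg (hα x)
      split_ifs
      · exact (hs x).le
      · exact zero_le_one
    · intro x _
      simp only [B]
      split_ifs with h
      · rw [mul_comm]
        exact hcardP x (w x)
      · rw [mul_one]
        exact (hcard x (w x)).le
  refine le_trans ?_ (Finset.sum_le_sum fun w _ => hterm w)
  rw [← Finset.mul_sum, Finset.prod_mul_distrib, mul_comm (Real.exp (-μ)), mul_assoc]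
  apply mul_le_mul_of_nonneg_left _ (Finset.prod_nonneg fun x _ => hα x)
  have hWcard : (Fintype.card (∀ x, W x) : ℝ) = ∏ x, (Fintype.card (W x) : ℝ) := by
    rw [Fintype.card_pi]; push_cast; rfl
  rw [← hWcard]
  have hj : ∀ w : (∀ x, W x), Real.exp (-μ)
      * (1 + (μ - ∑ x ∈ univ.filter (fun x => Per w x), (-Real.log (s x))))
      ≤ Real.exp (-(∑ x ∈ univ.filter (fun x => Per w x), (-Real.log (s x)))) := by
    intro w
    have h1 := Real.add_one_le_exp (μ - ∑ x ∈ univ.filter (fun x => Per w x), (-Real.log (s x)))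
    have h2 : Real.exp (-(∑ x ∈ univ.filter (fun x => Per w x), (-Real.log (s x))))
        = Real.exp (-μ) * Real.exp (μ - ∑ x ∈ univ.filter (fun x => Per w x), (-Real.log (s x))) := by
      rw [← Real.exp_add]
      congr 1
      ring
    rw [h2]
    apply mul_le_mul_of_nonneg_left _ (Real.exp_pos _).le
    linarith
  refine le_trans ?_ (Finset.sum_le_sum fun w _ => hj w)
  rw [← Finset.mul_sum, mul_comm (Fintype.card (∀ x, W x) : ℝ) (Real.exp (-μ))]
  apply mul_le_mul_of_nonneg_left _ (Real.exp_pos _).le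
  rw [Finset.sum_add_distrib, Finset.sum_sub_distrib, Finset.sum_const, Finset.sum_const,
    Finset.card_univ, nsmul_eq_mul, nsmul_eq_mul, mul_one]
  have : (Fintype.card (∀ x, W x) : ℝ) * μ = μ * (Fintype.card (∀ x, W x) : ℝ) := mul_comm _ _
  linarith

end productlemma

end Pool.Agent.Helper38.Dml
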