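import Mathlib
import Pool.Agent.Helper38.Dml.MatVec
import Pool.Agent.Helper38.Dml.Const
import Pool.Agent.Helper36.LevelMap
import Pool.Agent.Helper36.ClosedPoints

/-!
# Random families of matrices indexed by the closed points of the plane
-/

set_option autoImplicit false

open Finset Function
open Pool.Agent.Helper36.Closed

namespace Pool.Agent.Helper38.Dml

theorem filter_card_eq_natCard {X : Type*} [Fintype X] (P : X → Prop) [DecidablePred P] :
    (univ.filter (fun x => P x)).card = Nat.card {x // P x} := by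
  rw [Nat.card_eq_fintype_card, Fintype.card_subtype]

theorem exp_neg_two_le {u : ℝ} (h0 : 0 ≤ u) (h1 : u ≤ 1 / 2) : Real.exp (-(2 * u)) ≤ 1 - u := by
  have h2 := Real.add_one_le_exp (2 * u)
  have h3 : 1 ≤ (1 - u) * (2 * u + 1) := by nlinarith
  have h4 : 1 ≤ (1 - u) * Real.exp (2 * u) :=
    h3.trans (mul_le_mul_of_nonneg_left h2 (by linarith))
  rw [Real.exp_neg]
  rw [inv_le_iff_one_le_mul₀ (Real.exp_pos _)]
  exact h4

theorem neg_log_le {u : ℝ} (h0 : 0 ≤ u) (h1 : u ≤ 1 / 2) : -Real.log (1 - u) ≤ 2 * u := by
  have h2 := exp_neg_two_le h0 h1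
  have h3 := Real.log_le_log (Real.exp_pos _) h2
  rw [Real.log_exp] at h3
  linarith

theorem sProb_three_pos (q : ℕ) (hq : 2 ≤ q) : 0 < sProb q 3 := by
  rw [sProb_three q hq]
  have hq1 : (1 : ℝ) < q := by exact_mod_cast hq
  have hq0 : (0 : ℝ) < q := by linarith
  have h1 : 1 / (q : ℝ) < 1 := by rw [div_lt_one hq0]; exact hq1
  have h2 : 1 / (q : ℝ) ^ 2 < 1 := by
    rw [div_lt_one (by positivity)]
    exact one_lt_pow₀ hq1 (by norm_num)
  apply mul_pos <;> linarith

theorem neg_log_sProb_three (q : ℕ) (hq : 2 ≤ q) : -Real.log (sProb q 3) ≤ 3 / (q : ℝ) := by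
  rw [sProb_three q hq]
  have hq1 : (2 : ℝ) ≤ q := by exact_mod_cast hq
  have hq0 : (0 : ℝ) < q := by linarith
  have h1 : 1 / (q : ℝ) ≤ 1 / 2 := one_div_le_one_div_of_le (by norm_num) hq1
  have h3 : 1 / (q : ℝ) ^ 2 ≤ 1 / (q : ℝ) / 2 := by
    rw [div_div, one_div_le_one_div (by positivity) (by positivity)]
    nlinarith
  have h2 : 1 / (q : ℝ) ^ 2 ≤ 1 / 2 := by linarith
  have h4 := neg_log_le (by positivity) h1
  have h5 := neg_log_le (by positivity) h2
  rw [Real.log_mul (by linarith) (by linarith)]
  have h6 : 3 / (q : ℝ) = 3 * (1 / (q : ℝ)) := by ring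
  rw [h6]
  linarith

section event

variable {k E : Type*} [Field k] [Field E] [Algebra k E] {m : ℕ}

/-- the representative as a vector over the residue field -/
noncomputable def repF (t : CP k E m) : Fin m → fld t := fun i => ⟨rep t i, rep_mem_fld t i⟩

theorem repF_ne_zero (t : CP k E m) : repF t ≠ 0 := by
  intro h
  apply rep_ne_zero t
  funext i
  exact congrArg Subtype.val (congrFun h i)

open Classical in
/-- the self-map of the set of closed points defined by a family of matrices -/
noncomputable def phiC [Finite E] (A : ∀ t : CP k E m, Matrix (Fin m) (Fin m) (fld t))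
    (t : CP k E m) : CP k E m :=
  if h : (A t).mulVec (repF t) ≠ 0 then kap t ⟨(A t).mulVec (repF t), h⟩ else t

/-- the good event -/
def EvC [Finite E] (A : ∀ t : CP k E m, Matrix (Fin m) (Fin m) (fld t)) : Prop :=
  ∀ t, (A t).mulVec (repF t) ≠ 0 ∧ (t ∈ periodicPts (phiC A) → (A t).det ≠ 0)

theorem evC_one [Finite E] :
    EvC (fun t : CP k E m => (1 : Matrix (Fin m) (Fin m) (fld t))) := by
  intro t
  refine ⟨?_, fun _ => ?_⟩
  · rw [Matrix.one_mulVec]
    exact repF_ne_zero t
  · rw [Matrix.det_one]
    exact one_ne_zero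

variable [Finite E]

theorem card_W (t : CP k E m) [Fintype (W t)] :
    Fintype.card (W t) = Fintype.card (fld t) ^ m - 1 := by
  classical
  rw [← Nat.card_eq_fintype_card]
  have h2 : Nat.card (W t) = Fintype.card (Fin m → fld t) - 1 := by
    rw [Nat.card_eq_fintype_card, Fintype.card_subtype_compl]
    simp
  rw [h2, Fintype.card_fun, Fintype.card_fin]

theorem two_le_natCard (k E : Type*) [Field k] [Field E] [Algebra k E] [Finite E] :
    2 ≤ Nat.card k := by
  have hk : Finite k := Finite.of_injective _ (algebraMap k E).injective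
  have : Fintype k := Fintype.ofFinite k
  rw [Nat.card_eq_fintype_card]
  exact Fintype.one_lt_card

theorem lev_le (t : CP k E m) : lev t ≤ Module.finrank k E := by
  have hfd : FiniteDimensional k E := Module.Finite.of_finite
  exact Submodule.finrank_le (fld t).toSubmodule

/-- number of closed points of level `l` in the plane -/
theorem card_lev_three (l : ℕ) (hl : 0 < l) :
    Nat.card {t : CP k E 3 // lev t = l} ≤ 2 * (Nat.card k ^ l) ^ 2 := by
  have h1 := card_lev (k := k) (E := E) (m := 3) l
  have h2 := two_le_natCard k E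
  set Q := Nat.card k ^ l with hQ
  have hQ2 : 2 ≤ Q := by
    calc 2 ≤ Nat.card k := h2
      _ = Nat.card k ^ 1 := (pow_one _).symm
      _ ≤ Nat.card k ^ l := Nat.pow_le_pow_right (by omega) hl
  rw [pow_mul, ← hQ] at h1
  set n := Nat.card {t : CP k E 3 // lev t = l} with hn
  have h3 : n * (Q - 1) ≤ Q ^ 3 - 1 := by
    refine le_trans ?_ h1
    rw [mul_assoc]
    exact Nat.le_mul_of_pos_left _ hl
  clear_value Q n
  obtain ⟨R, rfl⟩ : ∃ R, Q = R + 1 := ⟨Q - 1, by omega⟩
  have hR : 1 ≤ R := by omega
  have h4 : (R + 1) ^ 3 - 1 = R * ((R + 1) ^ 2 + (R + 1) + 1) := by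
    have : (R + 1) ^ 3 = R * ((R + 1) ^ 2 + (R + 1) + 1) + 1 := by ring
    omega
  rw [Nat.add_sub_cancel, h4, mul_comm] at h3
  have h5 := Nat.le_of_mul_le_mul_left h3 (by omega)
  nlinarith

open Classical in
/-- **Lower bound for the probability of the good event.** -/
theorem prob_EvC :
    Real.exp (-(11 * (Module.finrank k E : ℝ)))
      * (Fintype.card (∀ t : CP k E 3, Matrix (Fin 3) (Fin 3) (fld t)) : ℝ)
      ≤ ((univ.filter (fun A : (∀ t : CP k E 3, Matrix (Fin 3) (Fin 3) (fld t)) => EvC A)).card : ℝ) := by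
  set f := Module.finrank k E with hf
  set p := Nat.card k with hp
  have hp2 : 2 ≤ p := two_le_natCard k E
  have hpR : (2 : ℝ) ≤ p := by exact_mod_cast hp2
  have hp0 : (0 : ℝ) < p := by linarith
  set q : CP k E 3 → ℕ := fun t => Fintype.card (fld t) with hq
  have hq2 : ∀ t, 2 ≤ q t := fun t => Fintype.one_lt_card
  have hqR : ∀ t, (2 : ℝ) ≤ q t := fun t => by exact_mod_cast hq2 t
  have hqp : ∀ t, (q t : ℝ) = (p : ℝ) ^ lev t := by
    intro t
    rw [hq, hp]
    simp only
    rw [card_fld]
    push_cast
    rfl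
  have hlev1 : ∀ t : CP k E 3, lev t ∈ Finset.Icc 1 f := fun t => by
    rw [Finset.mem_Icc]; exact ⟨lev_pos t, lev_le t⟩
  -- counts
  set n : ℕ → ℕ := fun l => (univ.filter (fun t : CP k E 3 => lev t = l)).card with hn
  have hncard : ∀ l, Nat.card {t : CP k E 3 // lev t = l} = n l := by
    intro l
    rw [Nat.card_eq_fintype_card, Fintype.card_subtype]
  have hn2 : ∀ l, 0 < l → (n l : ℝ) ≤ 2 * ((p : ℝ) ^ l) ^ 2 := by
    intro l hl
    have h1 := card_lev_three (k := k) (E := E) l hl
    rw [hncard] at h1
    exact_mod_cast h1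
  have hkey := product_bound (X := CP k E 3) (M := fun t => Matrix (Fin 3) (Fin 3) (fld t))
    (W := fun t => W t)
    (fun t A w => A.mulVec (repF t) = w.1)
    (fun t A w w' h h' => Subtype.ext (h.symm.trans h'))
    (fun t A => A.det ≠ 0)
    (fun t => (Fintype.card (Matrix (Fin 3) (Fin 3) (fld t)) : ℝ) / (q t : ℝ) ^ 3)
    (fun t => sProb (q t) 3) (fun t => by positivity) (fun t => sProb_three_pos _ (hq2 t))
    (fun t w => by
      have h1 := card_mulVec_eq (k := fld t) (repF_ne_zero t) w.1
      have h2 : Fintype.card (Matrix (Fin 3) (Fin 3) (fld t)) = Fintype.card (fld t) ^ (3 * 3) := by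
        rw [Fintype.card_congr (Matrix.of (m := Fin 3) (n := Fin 3) (α := fld t)).symm]
        simp
        ring
      rw [filter_card_eq_natCard] at h1 ⊢
      rw [h2, ← h1]
      push_cast
      rw [div_eq_iff (by have := hqR t; positivity)])
    (fun t w => by
      have h1 := card_mulVec_det_real (k := fld t) (by norm_num : 0 < 3) (repF_ne_zero t) w.2
      have h2 := card_mulVec_eq (k := fld t) (repF_ne_zero t) w.1
      have h3 : Fintype.card (Matrix (Fin 3) (Fin 3) (fld t)) = Fintype.card (fld t) ^ (3 * 3) := by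
        rw [Fintype.card_congr (Matrix.of (m := Fin 3) (n := Fin 3) (α := fld t)).symm]
        simp
        ring
      rw [filter_card_eq_natCard] at h2
      rw [filter_card_eq_natCard, filter_card_eq_natCard] at h1
      rw [filter_card_eq_natCard, h1]
      apply le_of_eq
      congr 1
      rw [h3, ← h2]
      push_cast
      rw [div_eq_iff (by have := hqR t; positivity)])
    (fun w t => t ∈ periodicPts (fun x => kap x (w x))) (9 * (f : ℝ)) ?_
  · refine le_trans ?_ (hkey.trans ?_)
    · -- the product
      have h1 : ∀ t : CP k E 3, Real.exp (-(2 * (1 / (q t : ℝ) ^ 3)))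
          * (Fintype.card (Matrix (Fin 3) (Fin 3) (fld t)) : ℝ)
          ≤ (Fintype.card (Matrix (Fin 3) (Fin 3) (fld t)) : ℝ) / (q t : ℝ) ^ 3
            * (Fintype.card (W t) : ℝ) := by
        intro t
        have h2 := hqR t
        have h3 : (1 : ℝ) ≤ (q t : ℝ) ^ 3 := one_le_pow₀ (by linarith)
        have h4 : (Fintype.card (W t) : ℝ) = (q t : ℝ) ^ 3 - 1 := by
          rw [card_W, Nat.cast_sub (Nat.one_le_pow _ _ Fintype.card_pos)]
          push_cast
          rfl
        rw [h4]
        have h5 : (Fintype.card (Matrix (Fin 3) (Fin 3) (fld t)) : ℝ) / (q t : ℝ) ^ 3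
            * ((q t : ℝ) ^ 3 - 1)
            = (1 - 1 / (q t : ℝ) ^ 3) * (Fintype.card (Matrix (Fin 3) (Fin 3) (fld t)) : ℝ) := by
          field_simp
        rw [h5]
        apply mul_le_mul_of_nonneg_right _ (by positivity)
        apply exp_neg_two_le (by positivity)
        have h6 : (2 : ℝ) ≤ (q t : ℝ) ^ 3 := by nlinarith [pow_nonneg (by linarith : (0 : ℝ) ≤ q t) 2]
        exact one_div_le_one_div_of_le (by norm_num) h6
      have h2 : Real.exp (-(2 * (f : ℝ)))
          * (Fintype.card (∀ t : CP k E 3, Matrix (Fin 3) (Fin 3) (fld t)) : ℝ)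
          ≤ ∏ t : CP k E 3, ((Fintype.card (Matrix (Fin 3) (Fin 3) (fld t)) : ℝ) / (q t : ℝ) ^ 3
            * (Fintype.card (W t) : ℝ)) := by
        refine le_trans ?_ (Finset.prod_le_prod (fun t _ => by positivity) (fun t _ => h1 t))
        rw [Finset.prod_mul_distrib, ← Real.exp_sum, Fintype.card_pi]
        push_cast
        apply mul_le_mul_of_nonneg_right _ (by positivity)
        rw [Real.exp_le_exp, Finset.sum_neg_distrib, neg_le_neg_iff, ← Finset.mul_sum]
        apply mul_le_mul_of_nonneg_left _ (by norm_num)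
        rw [← Finset.sum_fiberwise_of_maps_to (fun t _ => hlev1 t)]
        calc ∑ l ∈ Finset.Icc 1 f, ∑ t ∈ univ.filter (fun t : CP k E 3 => lev t = l),
              1 / (q t : ℝ) ^ 3
            ≤ ∑ l ∈ Finset.Icc 1 f, (1 : ℝ) := by
              apply Finset.sum_le_sum
              intro l hl
              rw [Finset.mem_Icc] at hl
              have h3 : ∑ t ∈ univ.filter (fun t : CP k E 3 => lev t = l), 1 / (q t : ℝ) ^ 3
                  = (n l : ℝ) * (1 / ((p : ℝ) ^ l) ^ 3) := by
                rw [Finset.sum_congr rfl (g := fun _ => 1 / ((p : ℝ) ^ l) ^ 3)]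
                · rw [Finset.sum_const, nsmul_eq_mul]
                · intro t ht
                  rw [mem_filter] at ht
                  rw [hqp t, ht.2]
              rw [h3]
              have h4 : (2 : ℝ) ≤ (p : ℝ) ^ l := by
                calc (2 : ℝ) ≤ p := hpR
                  _ = (p : ℝ) ^ 1 := (pow_one _).symm
                  _ ≤ (p : ℝ) ^ l := pow_le_pow_right₀ (by linarith) hl.1
              have h5 := hn2 l (by omega)
              rw [mul_one_div, div_le_one (by positivity)]
              refine h5.trans ?_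
              nlinarith [pow_nonneg (by linarith : (0 : ℝ) ≤ (p : ℝ) ^ l) 2]
          _ = (f : ℝ) := by simp
      calc Real.exp (-(11 * (f : ℝ)))
          * (Fintype.card (∀ t : CP k E 3, Matrix (Fin 3) (Fin 3) (fld t)) : ℝ)
          = Real.exp (-(9 * (f : ℝ))) * (Real.exp (-(2 * (f : ℝ)))
          * (Fintype.card (∀ t : CP k E 3, Matrix (Fin 3) (Fin 3) (fld t)) : ℝ)) := by
            rw [← mul_assoc, ← Real.exp_add]
            congr 2
            ring
        _ ≤ _ := mul_le_mul_of_nonneg_left h2 (Real.exp_pos _).le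
    · have : (univ.filter (fun A : (∀ t : CP k E 3, Matrix (Fin 3) (Fin 3) (fld t)) =>
          ∃ w : (∀ t, W t), (∀ t, (A t).mulVec (repF t) = (w t).1) ∧
            ∀ t, t ∈ periodicPts (fun x => kap x (w x)) → (A t).det ≠ 0))
          ⊆ univ.filter (fun A : (∀ t : CP k E 3, Matrix (Fin 3) (Fin 3) (fld t)) => EvC A) := by
        intro A hA
        rw [mem_filter] at hA ⊢
        obtain ⟨_, w, hw, hw2⟩ := hA
        refine ⟨mem_univ _, ?_⟩
        have hphi : phiC A = fun x => kap x (w x) := by
          funext x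
          have h1 : (A x).mulVec (repF x) ≠ 0 := by rw [hw x]; exact (w x).2
          rw [phiC, dif_pos h1]
          congr 1
          exact Subtype.ext (hw x)
        intro t
        refine ⟨by rw [hw t]; exact (w t).2, fun ht => ?_⟩
        rw [hphi] at ht
        exact hw2 t ht
      exact_mod_cast Finset.card_le_card this
  · -- the expectation
    have hW : ∀ t : CP k E 3, Nat.card (W t) = Fintype.card (W t) := fun t =>
      Nat.card_eq_fintype_card
    have h1 : ∀ l ∈ Finset.Icc 1 f,
        ∑ w : (∀ t : CP k E 3, W t), ((univ.filter (fun x => lev x = l ∧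
          x ∈ periodicPts (fun x => kap x (w x)))).card : ℝ)
        ≤ 3 * (p : ℝ) ^ l * (Fintype.card (∀ t : CP k E 3, W t) : ℝ) := by
      intro l hl
      rw [Finset.mem_Icc] at hl
      have hr : 0 < p ^ l := by positivity
      have h2 := Pool.Agent.Helper36.LevelMap.sum_cyc_le (X := CP k E 3) (W := fun t => W t)
        (fun t w => kap t w) lev l (n l)
        (by
          intro x y hx hy
          have h3 := card_unif (k := k) (E := E) (m := 3) l y x hx hy
          rw [hncard, hW, Nat.card_eq_fintype_card, Fintype.card_subtype] at h3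
          exact h3)
        (fun x w => lev_kap_le x w) rfl (p ^ l) hr
      refine h2.trans ?_
      apply mul_le_mul_of_nonneg_right _ (by positivity)
      have h4 := hn2 l (by omega)
      have h5 : (0 : ℝ) < (p : ℝ) ^ l := by positivity
      push_cast
      have h6 : (n l : ℝ) / (p : ℝ) ^ l ≤ 2 * (p : ℝ) ^ l := by
        rw [div_le_iff₀ h5]
        calc (n l : ℝ) ≤ 2 * ((p : ℝ) ^ l) ^ 2 := h4
          _ = _ := by ring
      linarith
    calc ∑ w : (∀ t : CP k E 3, W t), ∑ t ∈ univ.filter
          (fun t => t ∈ periodicPts (fun x => kap x (w x))), (-Real.log (sProb (q t) 3))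
        ≤ ∑ w : (∀ t : CP k E 3, W t), ∑ l ∈ Finset.Icc 1 f, 3 / (p : ℝ) ^ l
          * ((univ.filter (fun x => lev x = l ∧
            x ∈ periodicPts (fun x => kap x (w x)))).card : ℝ) := by
          apply Finset.sum_le_sum
          intro w _
          rw [← Finset.sum_fiberwise_of_maps_to (fun t _ => hlev1 t)]
          apply Finset.sum_le_sum
          intro l _
          have h2 : (univ.filter (fun t : CP k E 3 => t ∈ periodicPts (fun x => kap x (w x)))).filter
              (fun t => lev t = l) = univ.filter (fun x => lev x = l ∧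
            x ∈ periodicPts (fun x => kap x (w x))) := by
            ext t
            simp only [mem_filter, mem_univ, true_and]
            exact and_comm
          rw [h2]
          calc ∑ t ∈ univ.filter (fun x => lev x = l ∧
                x ∈ periodicPts (fun x => kap x (w x))), (-Real.log (sProb (q t) 3))
              ≤ ∑ t ∈ univ.filter (fun x => lev x = l ∧
                x ∈ periodicPts (fun x => kap x (w x))), 3 / (p : ℝ) ^ l := by
                apply Finset.sum_le_sum
                intro t ht
                rw [mem_filter] at ht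
                have h3 := neg_log_sProb_three (q t) (hq2 t)
                rw [hqp t, ht.2.1] at h3
                exact h3
            _ = _ := by rw [Finset.sum_const, nsmul_eq_mul, mul_comm]
      _ = ∑ l ∈ Finset.Icc 1 f, 3 / (p : ℝ) ^ l * ∑ w : (∀ t : CP k E 3, W t),
          ((univ.filter (fun x => lev x = l ∧
            x ∈ periodicPts (fun x => kap x (w x)))).card : ℝ) := by
          rw [Finset.sum_comm]
          apply Finset.sum_congr rfl
          intro l _
          rw [Finset.mul_sum]
      _ ≤ ∑ l ∈ Finset.Icc 1 f, 9 * (Fintype.card (∀ t : CP k E 3, W t) : ℝ) := by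
          apply Finset.sum_le_sum
          intro l hl
          have h5 : (0 : ℝ) < (p : ℝ) ^ l := by positivity
          calc 3 / (p : ℝ) ^ l * ∑ w : (∀ t : CP k E 3, W t),
                ((univ.filter (fun x => lev x = l ∧
                  x ∈ periodicPts (fun x => kap x (w x)))).card : ℝ)
              ≤ 3 / (p : ℝ) ^ l * (3 * (p : ℝ) ^ l * (Fintype.card (∀ t : CP k E 3, W t) : ℝ)) :=
                mul_le_mul_of_nonneg_left (h1 l hl) (by positivity)
            _ = _ := by field_simp; ring
      _ = 9 * (f : ℝ) * (Fintype.card (∀ t : CP k E 3, W t) : ℝ) := by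
          rw [Finset.sum_const, Nat.card_Icc, nsmul_eq_mul]
          push_cast
          ring

end event

end Pool.Agent.Helper38.Dml
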