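import Mathlib
import Pool.Agent.Helper38.Dml.CPEvent
import Pool.Agent.Helper38.Dml.Transfer
import Pool.Agent.Helper36.JetsDescent

/-!
# Transfer of events on closed points to forms over the base field
-/

set_option autoImplicit false

open Finset Function MvPolynomial
open Pool.Agent.Helper36.Closed
open scoped LinearAlgebra.Projectivization

namespace Pool.Agent.Helper38.Dml

section field

variable {k E : Type*} [Field k] [Field E] [Algebra k E] {m : ℕ}

/-- the Jacobian matrices at the representatives of the closed points -/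
noncomputable def jfamC (G : Fin m → MvPolynomial (Fin m) k) (t : CP k E m) :
    Matrix (Fin m) (Fin m) (fld t) := Matrix.of fun i j => aeval (repF t) (pderiv j (G i))

theorem coe_aeval (t : CP k E m) (P : MvPolynomial (Fin m) k) :
    ((aeval (repF t) P : fld t) : E) = eval (rep t) (MvPolynomial.map (algebraMap k E) P) := by
  have h1 := MvPolynomial.comp_aeval_apply (repF t) (fld t).val P
  rw [eval_map, ← aeval_def]
  exact h1

theorem eval_gal (s : E ≃ₐ[k] E) (y : Fin m → E) (P : MvPolynomial (Fin m) k) :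
    eval (s • y) (MvPolynomial.map (algebraMap k E) P)
      = s (eval y (MvPolynomial.map (algebraMap k E) P)) := by
  rw [eval_map, eval_map, ← aeval_def, ← aeval_def]
  exact (MvPolynomial.comp_aeval_apply y (s : E →ₐ[k] E) P).symm

variable (E) in
/-- the base change -/
noncomputable def bc (G : Fin m → MvPolynomial (Fin m) k) : Fin m → MvPolynomial (Fin m) E :=
  fun i => MvPolynomial.map (algebraMap k E) (G i)

theorem coe_jfamC (G : Fin m → MvPolynomial (Fin m) k) (t : CP k E m) (i j : Fin m) :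
    ((jfamC G t i j : fld t) : E) = pjac (bc E G) (rep t) i j := by
  have h := coe_aeval t (pderiv j (G i))
  rw [jfamC, Matrix.of_apply, h, pjac, Matrix.of_apply, bc, pderiv_map]

theorem pmap_gal (G : Fin m → MvPolynomial (Fin m) k) (s : E ≃ₐ[k] E) (y : Fin m → E) :
    pmap (bc E G) (s • y) = s • pmap (bc E G) y := by
  funext i
  simp only [pmap, bc]
  rw [eval_gal]
  rfl

theorem pjac_gal (G : Fin m → MvPolynomial (Fin m) k) (s : E ≃ₐ[k] E) (y : Fin m → E) :
    pjac (bc E G) (s • y) = (pjac (bc E G) y).map s := by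
  ext i j
  simp only [pjac, bc, Matrix.of_apply, Matrix.map_apply]
  rw [pderiv_map, eval_gal]

theorem det_coe (G : Fin m → MvPolynomial (Fin m) k) (t : CP k E m)
    (h : (jfamC G t).det ≠ 0) : (pjac (bc E G) (rep t)).det ≠ 0 := by
  have h1 : pjac (bc E G) (rep t) = (jfamC G t).map (algebraMap (fld t) E) := by
    ext i j
    rw [Matrix.map_apply, ← coe_jfamC]
    rfl
  rw [h1, ← RingHom.mapMatrix_apply, ← RingHom.map_det]
  intro h2
  exact h ((map_eq_zero _).1 h2)

theorem mulVec_coe (G : Fin m → MvPolynomial (Fin m) k) (t : CP k E m) (i : Fin m) :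
    (((jfamC G t).mulVec (repF t) i : fld t) : E) = (pjac (bc E G) (rep t)).mulVec (rep t) i := by
  rw [Matrix.mulVec, Matrix.mulVec, dotProduct, dotProduct]
  have h1 : ((∑ j, jfamC G t i j * repF t j : fld t) : E)
      = ∑ j, ((jfamC G t i j : fld t) : E) * ((repF t j : fld t) : E) := by
    rw [AddSubmonoidClass.coe_finsetSum]
    rfl
  rw [h1]
  apply Finset.sum_congr rfl
  intro j _
  rw [coe_jfamC]
  rfl

variable [Finite E]

theorem goodAt_of_EvC {G : Fin m → MvPolynomial (Fin m) k} {d : ℕ}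
    (hG : ∀ i, (G i).IsHomogeneous d) (y₀ : Fin m → E) (hy₀ : y₀ ≠ 0)
    (h : EvC (E := E) (jfamC G)) : GoodAt (bc E G) y₀ := by
  have hf : ∀ i, (bc E G i).IsHomogeneous d := fun i => (hG i).map _
  -- one step
  have hstep : ∀ x, ∀ hx : x ≠ 0, ∃ hy : pmap (bc E G) x ≠ 0,
      phiC (jfamC G) (cls k x hx) = cls k (pmap (bc E G) x) hy := by
    intro x hx
    obtain ⟨c, s, hc, hcx⟩ := cls_spec (k := k) hx
    have h1 := (h (cls k x hx)).1
    rw [phiC, dif_pos h1]
    generalize cls k x hx = t at *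
    have hv : (fun i => (((jfamC G t).mulVec (repF t) i : fld t) : E))
        = (d : E) • pmap (bc E G) (rep t) := by
      funext i
      rw [mulVec_coe, pjac_mulVec hf]
    have hv0 : (fun i => (((jfamC G t).mulVec (repF t) i : fld t) : E)) ≠ 0 :=
      coe_ne_zero ⟨(jfamC G t).mulVec (repF t), h1⟩
    have hd : (d : E) ≠ 0 := by
      intro h0
      apply hv0
      rw [hv, h0, zero_smul]
    have hp : pmap (bc E G) (rep t) ≠ 0 := by
      intro h0
      apply hv0
      rw [hv, h0, smul_zero]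
    have h2 : pmap (bc E G) x = c ^ d • (s • pmap (bc E G) (rep t)) := by
      rw [hcx, pmap_smul hf, pmap_gal]
    have hsp : s • pmap (bc E G) (rep t) ≠ 0 := by
      intro h0
      apply hp
      rw [← inv_smul_smul s (pmap (bc E G) (rep t)), h0, smul_zero]
    have hy : pmap (bc E G) x ≠ 0 := by
      rw [h2]
      exact smul_ne_zero (pow_ne_zero _ hc) hsp
    refine ⟨hy, ?_⟩
    have h3 : cls k (pmap (bc E G) x) hy = cls k (pmap (bc E G) (rep t)) hp := by
      have h4 : c ^ d • (s • pmap (bc E G) (rep t)) ≠ 0 := by rw [← h2]; exact hy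
      have h5 : cls k (pmap (bc E G) x) hy = cls k (c ^ d • (s • pmap (bc E G) (rep t))) h4 := by
        congr 1
      rw [h5, cls_smul hsp, cls_gal hp]
    have h6 : kap t ⟨(jfamC G t).mulVec (repF t), h1⟩ = cls k (pmap (bc E G) (rep t)) hp := by
      have h7 : (d : E) • pmap (bc E G) (rep t) ≠ 0 := by rw [← hv]; exact hv0
      have h8 : kap t ⟨(jfamC G t).mulVec (repF t), h1⟩
          = cls k ((d : E) • pmap (bc E G) (rep t)) h7 := by
        rw [kap]
        congr 1
      rw [h8, cls_smul hp]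
    rw [h3, h6]
  have hit : ∀ n, ∃ hy : (pmap (bc E G))^[n] y₀ ≠ 0,
      (phiC (jfamC G))^[n] (cls k y₀ hy₀) = cls k ((pmap (bc E G))^[n] y₀) hy := by
    intro n
    induction n with
    | zero => exact ⟨hy₀, rfl⟩
    | succ n ih =>
      obtain ⟨hy, ih⟩ := ih
      obtain ⟨hy', h2⟩ := hstep _ hy
      refine ⟨?_, ?_⟩
      · rw [iterate_succ_apply']
        exact hy'
      · rw [iterate_succ_apply', ih, h2]
        congr 1
        rw [iterate_succ_apply']
  intro n
  obtain ⟨hy, h1⟩ := hit n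
  refine ⟨hy, ?_⟩
  rintro ⟨r, hr, hper⟩
  have hper2 : (phiC (jfamC G))^[n] (cls k y₀ hy₀) ∈ periodicPts (phiC (jfamC (E := E) G)) := by
    refine ⟨r, hr, ?_⟩
    obtain ⟨hy2, h2⟩ := hit (r + n)
    change (phiC (jfamC G))^[r] _ = _
    rw [← iterate_add_apply, h2, h1]
    congr 1
    rw [iterate_add_apply]
    exact hper
  have hdet := (h _).2 hper2
  rw [h1] at hdet
  obtain ⟨c, s, hc, hcx⟩ := cls_spec (k := k) hy
  have hdet2 := det_coe G _ hdet
  rw [hcx, pjac_smul hf, Matrix.det_smul, pjac_gal]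
  apply mul_ne_zero (pow_ne_zero _ (pow_ne_zero _ hc))
  have h5 : (pjac (bc E G) (rep (cls k ((pmap (bc E G))^[n] y₀) hy))).map s
      = (s : E →+* E).mapMatrix (pjac (bc E G) (rep (cls k ((pmap (bc E G))^[n] y₀) hy))) := rfl
  rw [h5, ← RingHom.map_det]
  intro h6
  exact hdet2 ((map_eq_zero _).1 h6)

theorem jets_surj_C {d e : ℕ} [Fintype (ℙ E (Fin m → E))]
    (A : MvPolynomial (Fin m) k) (hA : A.IsHomogeneous e)
    (hA1 : ∀ x : Fin m → E, x ≠ 0 → eval x (MvPolynomial.map (algebraMap k E) A) ≠ 0)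
    (hde : ((d + e : ℕ) : k) ≠ 0)
    (hd : 2 * Fintype.card (ℙ E (Fin m → E)) ≤ d)
    (lam : ∀ t : CP k E m, Fin m → fld t) :
    ∃ c : Mon m d → k, ∀ t : CP k E m, ∀ j,
      aeval (repF t) (pderiv j (A * frm c)) = lam t j := by
  obtain ⟨c, hc⟩ := Pool.Agent.Helper36.Jets.jets_descent A hA hA1 hde hd
    (fun x => ext (d + e - 1) lam x)
    (fun c x hc hx => ext_smul (d + e - 1) lam c x hc hx)
    (fun s x hx => ext_gal (d + e - 1) lam s x hx)
  refine ⟨c, fun t j => ?_⟩
  apply Subtype.ext
  rw [coe_aeval, hc (rep t) (rep_ne_zero t) j, ext_rep]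

end field

section count

variable {k E : Type*} [Field k] [Fintype k] [Field E] [Algebra k E] [Finite E] {m : ℕ}

open Classical in
theorem card_transferC {d : ℕ} (A : MvPolynomial (Fin m) k)
    (hsurj : ∀ lam : (∀ t : CP k E m, Fin m → fld t), ∃ c : Mon m d → k,
      ∀ t : CP k E m, ∀ j, aeval (repF t) (pderiv j (A * frm c)) = lam t j)
    (Q : (∀ t : CP k E m, Matrix (Fin m) (Fin m) (fld t)) → Prop) (κ : ℝ)
    (hκ : κ * (Fintype.card (∀ t : CP k E m, Matrix (Fin m) (Fin m) (fld t)) : ℝ)
      ≤ ((univ.filter (fun M : (∀ t : CP k E m, Matrix (Fin m) (Fin m) (fld t)) => Q M)).card : ℝ)) :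
    κ * (Fintype.card (Fin m → Mon m d → k) : ℝ)
      ≤ ((univ.filter (fun c : Fin m → Mon m d → k =>
        Q (jfamC (fun i => A * frm (c i))))).card : ℝ) := by
  let J : (Fin m → Mon m d → k) →+ (∀ t : CP k E m, Matrix (Fin m) (Fin m) (fld t)) :=
    { toFun := fun c => jfamC (fun i => A * frm (c i))
      map_zero' := by
        funext x
        ext i j
        simp [jfamC, frm]
      map_add' := fun c c' => by
        funext x
        ext i j
        simp only [jfamC, Pi.add_apply, Matrix.add_apply, Matrix.of_apply, frm_add, mul_add,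
          map_add] }
  have hJ : Surjective J := by
    intro M
    choose c hc using fun i => hsurj (fun x j => M x i j)
    refine ⟨c, ?_⟩
    funext x
    ext i j
    exact congrArg Subtype.val (hc i x j)
  have h1 := card_filter_comp J hJ Q
  have hpos : (0 : ℝ) < (Fintype.card (∀ t : CP k E m, Matrix (Fin m) (Fin m) (fld t)) : ℝ) := by
    exact_mod_cast Fintype.card_pos
  have h4 : ((univ.filter (fun c => Q (J c))).card : ℝ)
      * (Fintype.card (∀ t : CP k E m, Matrix (Fin m) (Fin m) (fld t)) : ℝ)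
      = ((univ.filter (fun M : (∀ t : CP k E m, Matrix (Fin m) (Fin m) (fld t)) => Q M)).card : ℝ)
        * (Fintype.card (Fin m → Mon m d → k) : ℝ) := by
    exact_mod_cast h1
  have h5 : κ * (Fintype.card (Fin m → Mon m d → k) : ℝ)
      * (Fintype.card (∀ t : CP k E m, Matrix (Fin m) (Fin m) (fld t)) : ℝ)
      ≤ ((univ.filter (fun c => Q (J c))).card : ℝ)
      * (Fintype.card (∀ t : CP k E m, Matrix (Fin m) (Fin m) (fld t)) : ℝ) := by
    rw [h4]
    calc _ = κ * (Fintype.card (∀ t : CP k E m, Matrix (Fin m) (Fin m) (fld t)) : ℝ)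
          * (Fintype.card (Fin m → Mon m d → k) : ℝ) := by ring
      _ ≤ _ := mul_le_mul_of_nonneg_right hκ (by positivity)
  exact le_of_mul_le_mul_right h5 hpos

end count

end Pool.Agent.Helper38.Dml
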