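import Mathlib
import Pool.Agent.Helper38.Dml.CPTransfer
import Pool.Agent.Helper38.Dml.AssemblyGen
import Pool.Agent.Helper38.Dml.DvrLe
import Pool.Agent.Helper38.Dml.PadicExt

/-!
# All points of bounded degree at once
-/

set_option autoImplicit false

open Finset Function MvPolynomial
open Pool.Agent.Helper36.Closed
open scoped LinearAlgebra.Projectivization

namespace Pool.Agent.Helper38.Dml

/-- the coordinates of `a` lie in a field of degree at most `B` over a purely transcendental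
extension of `K` -/
def DegLe (K : IntermediateField ℚ ℂ) (B : ℕ) {m : ℕ} (a : Fin m → ℂ) : Prop :=
  ∃ (r : ℕ) (t : Fin r → ℂ), AlgebraicIndependent K t ∧
    ∃ L : IntermediateField (IntermediateField.adjoin K (Set.range t)) ℂ,
      FiniteDimensional (IntermediateField.adjoin K (Set.range t)) L ∧
      Module.finrank (IntermediateField.adjoin K (Set.range t)) L ≤ B ∧ ∀ i, a i ∈ L

/-- the property for all points of degree at most `B` -/
def AllDeg (K : IntermediateField ℚ ℂ) (B : ℕ) {m : ℕ} (F : Fin m → MvPolynomial (Fin m) ℤ) :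
    Prop :=
  ∀ a : Fin m → ℂ, DegLe K B a → a ≠ 0 → DMLat F a

theorem allDeg_of_EvC (K : IntermediateField ℚ ℂ) (hK : K.FG) (B M d e p : ℕ) [Fact p.Prime]
    (ι : K →+* ℚ_[p]) {E : Type} [Field E] [Finite E]
    [Algebra (ZMod p) E] (hE : ∀ e : ℕ, 0 < e → e ≤ B → e ∣ Module.finrank (ZMod p) E)
    (A : MvPolynomial (Fin (M + 1)) ℤ) (hA : A.IsHomogeneous e)
    (c : Fin (M + 1) → Mon (M + 1) d → ℤ)
    (h : EvC (E := E)
      (jfamC (fun j => MvPolynomial.map (Int.castRingHom (ZMod p)) (A * frm (c j))))) :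
    AllDeg K B (toFormsG c) := by
  rintro a ⟨r, t, ht, L, hL, hLB, haL⟩ ha
  obtain ⟨ι'⟩ := exists_embedding_adjoin K hK p ι r t ht
  have ha' : (fun i => (⟨a i, haL i⟩ : L)) ≠ 0 := by
    intro h
    apply ha
    funext i
    exact congrArg Subtype.val (congrFun h i)
  obtain ⟨y₀, hy₀, h1⟩ := exists_reduction_ext (L := ℂ) (E := E) p ι'
    (fun e he0 he => hE e he0 (he.trans hLB)) (fun i => (⟨a i, haL i⟩ : L)) ha'
  apply h1 d (toFormsG c) (fun i => frm_isHomogeneous _) A
  have h2 := goodAt_of_EvC (E := E) (G := fun j => MvPolynomial.map (Int.castRingHom (ZMod p))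
    (A * frm (c j))) (d := e + d) (fun i => (hA.mul (frm_isHomogeneous (c i))).map _) y₀ hy₀ h
  have h3 : bc E (fun j => MvPolynomial.map (Int.castRingHom (ZMod p)) (A * frm (c j)))
      = fun i => MvPolynomial.map (Int.castRingHom E) (A * toFormsG c i) := by
    funext i
    have h4 : (algebraMap (ZMod p) E).comp (Int.castRingHom (ZMod p)) = Int.castRingHom E :=
      RingHom.ext_int _ _
    rw [bc, MvPolynomial.map_map, h4]
    rfl
  rw [h3] at h2
  exact h2

theorem allDeg_one_of_Ev (K : IntermediateField ℚ ℂ) (hK : K.FG) (M d e p : ℕ) [Fact p.Prime]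
    (ι : K →+* ℚ_[p]) (A : MvPolynomial (Fin (M + 1)) ℤ) (hA : A.IsHomogeneous e)
    (c : Fin (M + 1) → Mon (M + 1) d → ℤ)
    (h : Ev (jfam (fun j => MvPolynomial.map (Int.castRingHom (ZMod p)) (A * frm (c j))))) :
    AllDeg K 1 (toFormsG c) := by
  rintro a ⟨r, t, ht, L, hL, hLB, haL⟩ ha
  obtain ⟨ι'⟩ := exists_embedding_adjoin K hK p ι r t ht
  have hL1 : L = ⊥ := by
    rw [← IntermediateField.finrank_eq_one_iff]
    have : 0 < Module.finrank (IntermediateField.adjoin K (Set.range t)) L := Module.finrank_pos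
    omega
  have haK : ∀ i, a i ∈ IntermediateField.adjoin K (Set.range t) := by
    intro i
    have h1 := haL i
    rw [hL1, IntermediateField.mem_bot] at h1
    obtain ⟨x, hx⟩ := h1
    rw [← hx]
    exact x.2
  have ha' : (fun i => (⟨a i, haK i⟩ : IntermediateField.adjoin K (Set.range t))) ≠ 0 := by
    intro h
    apply ha
    funext i
    exact congrArg Subtype.val (congrFun h i)
  obtain ⟨y₀, hy₀, h1⟩ := exists_reduction (L := ℂ) p ι'
    (fun i => (⟨a i, haK i⟩ : IntermediateField.adjoin K (Set.range t))) ha'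
  apply h1 d (toFormsG c) (fun i => frm_isHomogeneous _) A
  have hev : EvAt (jfam (fun j => MvPolynomial.map (Int.castRingHom (ZMod p)) (A * frm (c j))))
      (Projectivization.mk (ZMod p) y₀ hy₀) := fun n => h _
  exact goodAt_of_EvAt (d := e + d)
    (fun i => (hA.mul (frm_isHomogeneous (c i))).map _) y₀ hy₀ hev

open Classical in
/-- the local bad set -/
theorem exists_local_badC (M p f : ℕ) [Fact p.Prime] (hp2 : p ≠ 2) (hf : f ≠ 0) (d : ℕ)
    {E : Type} [Field E] [Fintype E] [Algebra (ZMod p) E] (hE : Fintype.card E = p ^ f)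
    [Fintype (ℙ E (Fin (M + 1) → E))]
    (hd : 2 * Fintype.card (ℙ E (Fin (M + 1) → E)) ≤ d)
    (κ : ℝ)
    (hκ : κ * (Fintype.card (∀ t : CP (ZMod p) E (M + 1),
        Matrix (Fin (M + 1)) (Fin (M + 1)) (fld t)) : ℝ)
      ≤ ((univ.filter (fun A : (∀ t : CP (ZMod p) E (M + 1),
        Matrix (Fin (M + 1)) (Fin (M + 1)) (fld t)) => EvC A)).card : ℝ)) :
    ∃ (A : MvPolynomial (Fin (M + 1)) ℤ) (e : ℕ)
      (B : Finset (Fin (M + 1) → Mon (M + 1) d → ZMod p)),
      A.IsHomogeneous e ∧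
      ((B.card : ℝ) ≤ (1 - κ)
        * (p : ℝ) ^ (Fintype.card (Fin (M + 1)) * Fintype.card (Mon (M + 1) d))) ∧
      ∀ c, c ∉ B →
        EvC (E := E) (jfamC (fun i => MvPolynomial.map (Int.castRingHom (ZMod p)) A * frm (c i))) := by
  obtain ⟨e, A, hA, hde, hA1⟩ := exists_twist M p f Fact.out hp2 hf d
  have hval : ∀ x : Fin (M + 1) → E, x ≠ 0 →
      MvPolynomial.eval x (MvPolynomial.map (algebraMap (ZMod p) E)
        (MvPolynomial.map (Int.castRingHom (ZMod p)) A)) = 1 := by
    intro x hx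
    have h1 := hA1 E hE x hx
    rw [MvPolynomial.map_map]
    have h2 : (algebraMap (ZMod p) E).comp (Int.castRingHom (ZMod p)) = Int.castRingHom E :=
      RingHom.ext_int _ _
    rw [h2]
    exact h1
  have hsurj := fun lam => jets_surj_C (E := E) (d := d)
    (MvPolynomial.map (Int.castRingHom (ZMod p)) A) (hA.map _)
    (fun x hx => by rw [hval x hx]; exact one_ne_zero)
    (by
      intro h
      rw [ZMod.natCast_eq_zero_iff] at h
      exact hde h) hd lam
  have h1 := card_transferC (MvPolynomial.map (Int.castRingHom (ZMod p)) A) hsurj EvC κ hκ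
  refine ⟨A, e, univ.filter (fun c : Fin (M + 1) → Mon (M + 1) d → ZMod p =>
    ¬ EvC (E := E) (jfamC (fun i => MvPolynomial.map (Int.castRingHom (ZMod p)) A * frm (c i)))),
    hA, ?_, ?_⟩
  · have h2 : (Fintype.card (Fin (M + 1) → Mon (M + 1) d → ZMod p) : ℝ)
        = (p : ℝ) ^ (Fintype.card (Fin (M + 1)) * Fintype.card (Mon (M + 1) d)) := by
      rw [Fintype.card_fun, Fintype.card_fun, ZMod.card, ← pow_mul,
        mul_comm (Fintype.card (Fin (M + 1)))]
      push_cast
      rfl
    have h3 : (univ.filter (fun c : Fin (M + 1) → Mon (M + 1) d → ZMod p =>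
        EvC (E := E)
          (jfamC (fun i => MvPolynomial.map (Int.castRingHom (ZMod p)) A * frm (c i))))).card
        + (univ.filter (fun c : Fin (M + 1) → Mon (M + 1) d → ZMod p =>
        ¬ EvC (E := E)
          (jfamC (fun i => MvPolynomial.map (Int.castRingHom (ZMod p)) A * frm (c i))))).card
        = Fintype.card (Fin (M + 1) → Mon (M + 1) d → ZMod p) := by
      rw [Finset.card_filter_add_card_filter_not, Finset.card_univ]
    have h4 : ((univ.filter (fun c : Fin (M + 1) → Mon (M + 1) d → ZMod p =>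
        EvC (E := E)
          (jfamC (fun i => MvPolynomial.map (Int.castRingHom (ZMod p)) A * frm (c i))))).card : ℝ)
        + ((univ.filter (fun c : Fin (M + 1) → Mon (M + 1) d → ZMod p =>
        ¬ EvC (E := E)
          (jfamC (fun i => MvPolynomial.map (Int.castRingHom (ZMod p)) A * frm (c i))))).card : ℝ)
        = (Fintype.card (Fin (M + 1) → Mon (M + 1) d → ZMod p) : ℝ) := by
      exact_mod_cast h3
    rw [← h2]
    linarith
  · intro c hc
    by_contra h
    exact hc (by rw [mem_filter]; exact ⟨mem_univ _, h⟩)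

open Classical in
/-- **Density theorem** for points of bounded degree. -/
theorem density_C (K : IntermediateField ℚ ℂ) (hK : K.FG) (M B f : ℕ) (hf0 : f ≠ 0) (hfB : ∀ e : ℕ, 0 < e → e ≤ B → e ∣ f)
    {ι : Type} [Fintype ι] (p : ι → ℕ) [hf : ∀ i, Fact (p i).Prime]
    (hinj : Injective p) (hp2 : ∀ i, p i ≠ 2) (hemb : ∀ i, Nonempty (K →+* ℚ_[p i]))
    (κ : ι → ℝ) (hκ1 : ∀ i, κ i ≤ 1)
    (hκ : ∀ i, κ i * (Fintype.card (∀ t : CP (ZMod (p i)) (GaloisField (p i) f) (M + 1),
        Matrix (Fin (M + 1)) (Fin (M + 1)) (fld t)) : ℝ)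
      ≤ ((univ.filter (fun A : (∀ t : CP (ZMod (p i)) (GaloisField (p i) f) (M + 1),
        Matrix (Fin (M + 1)) (Fin (M + 1)) (fld t)) => EvC A)).card : ℝ)) :
    ∃ D : ℕ, ∀ d : ℕ, D ≤ d → ∀ η : ℝ, 0 < η → ∃ H₀ : ℕ, ∀ H : ℕ, H₀ ≤ H →
      (({F | F ∈ BoxG (M + 1) d H ∧ ¬ (NoZeroG F ∧ AllDeg K B F)}.ncard : ℕ) : ℝ)
        ≤ ((∏ i, (1 - κ i)) + η) * ((BoxG (M + 1) d H).ncard : ℝ) := by
  have hfE : ∀ i, Fintype (GaloisField (p i) f) := fun i => Fintype.ofFinite _
  have hfP : ∀ i, Fintype (ℙ (GaloisField (p i) f) (Fin (M + 1) → GaloisField (p i) f)) :=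
    fun i => Fintype.ofFinite _
  have hcE : ∀ i, Fintype.card (GaloisField (p i) f) = p i ^ f := by
    intro i
    rw [← Nat.card_eq_fintype_card]
    exact GaloisField.card (p i) f hf0
  refine ⟨1 + ∑ i, 2 * Fintype.card (ℙ (GaloisField (p i) f) (Fin (M + 1) → GaloisField (p i) f)),
    fun d hd η hη => ?_⟩
  have hdi : ∀ i, 2 * Fintype.card (ℙ (GaloisField (p i) f) (Fin (M + 1) → GaloisField (p i) f))
      ≤ d := by
    intro i
    have h1 := Finset.single_le_sum
      (f := fun i => 2 * Fintype.card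
        (ℙ (GaloisField (p i) f) (Fin (M + 1) → GaloisField (p i) f)))
      (fun _ _ => Nat.zero_le _) (mem_univ i)
    omega
  choose A e Bd hA hB hQ using fun i => exists_local_badC M (p i) f (hp2 i) hf0 d (hcE i) (hdi i)
    (κ i) (hκ i)
  refine assembly_gen (M + 1) d (by omega) (AllDeg K B) p (fun i => (hf i).out) hinj Bd
    (fun i => 1 - κ i) (fun i => by have := hκ1 i; linarith) hB ?_ η hη
  intro c i hc
  have h1 := hQ i _ hc
  obtain ⟨ι'⟩ := hemb i
  apply allDeg_of_EvC K hK B M d (e i) (p i) ι' (E := GaloisField (p i) f)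
    (fun e he0 he => by rw [GaloisField.finrank (p i) hf0]; exact hfB e he0 he) (A i) (hA i) c
  convert h1 using 1
  congr 1
  funext j
  rw [map_mul, map_frm]
  rfl

end Pool.Agent.Helper38.Dml
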