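import Mathlib
import Pool.Agent.Helper38.Dml.Uniform
import Pool.Agent.Helper38.Dml.High

/-!
# All points of bounded degree at once: main theorems
-/

set_option autoImplicit false

open Finset Function MvPolynomial
open Pool.Agent.Helper36.Closed
open scoped LinearAlgebra.Projectivization

namespace Pool.Agent.Helper38.Dml

/-- arbitrarily many odd primes with an embedding -/
theorem exists_many_primes (K : IntermediateField ℚ ℂ) (hK : K.FG) (n : ℕ) :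
    ∃ t : Finset ℕ, t.card = n ∧ ∀ p ∈ t, 2 < p ∧ ∃ hp : p.Prime, haveI := Fact.mk hp;
      Nonempty (K →+* ℚ_[p]) := by
  have hfg := IntermediateField.fg_top_iff.2 (IntermediateField.essFiniteType_iff.2 hK)
  have hinf : {p : ℕ | 2 < p ∧ ∃ hp : p.Prime, haveI := Fact.mk hp;
      Nonempty (K →+* ℚ_[p])}.Infinite := by
    apply Set.infinite_of_forall_exists_gt
    intro N
    obtain ⟨p, hpN, hp, hι⟩ := exists_embedding hfg (max N 2)
    exact ⟨p, ⟨lt_of_le_of_lt (le_max_right _ _) hpN, hp, hι⟩,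
      lt_of_le_of_lt (le_max_left _ _) hpN⟩
  obtain ⟨t, ht, hcard⟩ := hinf.exists_subset_card_eq n
  exact ⟨t, hcard, fun p hp => ht hp⟩

/-- **Dimension two**, almost all maps, all points of bounded degree. -/
theorem uniform_two (K : IntermediateField ℚ ℂ) (hK : K.FG) (B : ℕ) (ε : ℝ) (hε : 0 < ε) :
    ∃ D : ℕ, ∀ d : ℕ, D ≤ d → ∃ H₀ : ℕ, ∀ H : ℕ, H₀ ≤ H →
      (({F | F ∈ BoxG 3 d H ∧ ¬ (NoZeroG F ∧ AllDeg K B F)}.ncard : ℕ) : ℝ)
        ≤ ε * ((BoxG 3 d H).ncard : ℝ) := by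
  classical
  set f := B.factorial with hf
  have hf0 : f ≠ 0 := Nat.factorial_ne_zero B
  set c : ℝ := Real.exp (-(11 * (f : ℝ))) with hc
  have hc0 : 0 < c := Real.exp_pos _
  have hc1 : c ≤ 1 := by
    rw [hc, Real.exp_le_one_iff]
    have : (0 : ℝ) ≤ f := by positivity
    linarith
  obtain ⟨n, hn⟩ := exists_pow_lt_of_lt_one (half_pos hε) (by linarith : 1 - c < 1)
  obtain ⟨t, hcard, ht⟩ := exists_many_primes K hK n
  have hprime : ∀ i : t, Fact (i : ℕ).Prime := fun i => ⟨(ht i.1 i.2).2.1⟩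
  obtain ⟨D, hD⟩ := density_C K hK 2 B f hf0 (fun e he0 he => Nat.dvd_factorial he0 he)
    (fun i : t => (i : ℕ)) Subtype.val_injective
    (fun i => by have := (ht i.1 i.2).1; omega) (fun i => (ht i.1 i.2).2.2)
    (fun _ => c) (fun _ => hc1) (fun i => by
      have h1 := prob_EvC (k := ZMod (i : ℕ)) (E := GaloisField (i : ℕ) f)
      rw [GaloisField.finrank _ hf0] at h1
      exact h1)
  refine ⟨D, fun d hd => ?_⟩
  obtain ⟨H₀, hH₀⟩ := hD d hd (ε / 2) (by positivity)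
  refine ⟨H₀, fun H hH => (hH₀ H hH).trans ?_⟩
  apply mul_le_mul_of_nonneg_right _ (by positivity)
  rw [Finset.prod_const, Finset.card_univ, Fintype.card_coe, hcard]
  linarith

/-- **Dimension three**, almost all maps, all points over purely transcendental extensions
of `K`. -/
theorem uniform_three (K : IntermediateField ℚ ℂ) (hK : K.FG) (ε : ℝ) (hε : 0 < ε) :
    ∃ D : ℕ, ∀ d : ℕ, D ≤ d → ∃ H₀ : ℕ, ∀ H : ℕ, H₀ ≤ H →
      (({F | F ∈ BoxG 4 d H ∧ ¬ (NoZeroG F ∧ AllDeg K 1 F)}.ncard : ℕ) : ℝ)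
        ≤ ε * ((BoxG 4 d H).ncard : ℝ) := by
  classical
  set c : ℝ := Real.exp (-8) / 8 with hc
  have hc0 : 0 < c := by rw [hc]; positivity
  obtain ⟨t, ht, hprod⟩ := exists_finset_primes K hK c hc0 (ε / 2) (by positivity)
  have hfact : ∀ i : t, Fact (i : ℕ).Prime := fun i => ⟨(ht i.1 i.2).2.2.1⟩
  have hfin : ∀ i : t, Fintype (ℙ (ZMod (i : ℕ)) (Fin (3 + 1) → ZMod (i : ℕ))) :=
    fun i => Fintype.ofFinite _
  obtain ⟨D, hD⟩ := density_gen 3 (fun i : t => (i : ℕ)) Subtype.val_injective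
    (fun i => by have := (ht i.1 i.2).1; omega) (AllDeg K 1) (fun i => Ev)
    (fun i => c / (i : ℕ)) (fun i => by
      have h1 : (0 : ℝ) < ((i : ℕ) : ℝ) := by exact_mod_cast (hfact i).out.pos
      rw [div_le_one h1]
      exact (ht i.1 i.2).2.1) (fun i => prob_four_zmod (i : ℕ)) (fun i d e A hA c' h => by
      obtain ⟨ι⟩ := (ht i.1 i.2).2.2.2
      exact allDeg_one_of_Ev K hK 3 d e (i : ℕ) ι A hA c' h)
  refine ⟨D, fun d hd => ?_⟩
  obtain ⟨H₀, hH₀⟩ := hD d hd (ε / 2) (by positivity)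
  refine ⟨H₀, fun H hH => (hH₀ H hH).trans ?_⟩
  apply mul_le_mul_of_nonneg_right _ (by positivity)
  have h2 : ∏ i : t, (1 - c / ((i : ℕ) : ℝ)) = ∏ p ∈ t, (1 - c / (p : ℝ)) :=
    Finset.prod_coe_sort t (fun p => 1 - c / (p : ℝ))
  rw [h2]
  linarith

/-- complementary counts -/
theorem ncard_compl_box (M d H : ℕ) (P : (Fin (M + 1) → MvPolynomial (Fin (M + 1)) ℤ) → Prop) :
    ({F | F ∈ BoxG (M + 1) d H ∧ P F}.ncard : ℝ) + ({F | F ∈ BoxG (M + 1) d H ∧ ¬ P F}.ncard : ℝ)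
      = ((BoxG (M + 1) d H).ncard : ℝ) := by
  have hd1 : Disjoint {F | F ∈ BoxG (M + 1) d H ∧ P F} {F | F ∈ BoxG (M + 1) d H ∧ ¬ P F} := by
    rw [Set.disjoint_left]
    rintro F ⟨_, h3⟩ ⟨_, h4⟩
    exact h4 h3
  have h2 : {F | F ∈ BoxG (M + 1) d H ∧ P F}.ncard + {F | F ∈ BoxG (M + 1) d H ∧ ¬ P F}.ncard
      = (BoxG (M + 1) d H).ncard := by
    rw [← Set.ncard_union_eq hd1 ((BoxG_finite _ _ _).subset fun F hF => hF.1)
      ((BoxG_finite _ _ _).subset fun F hF => hF.1)]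
    congr 1
    ext F
    simp only [Set.mem_union, Set.mem_ofPred_eq]
    constructor
    · rintro (h | h)
      · exact h.1
      · exact h.1
    · intro h
      by_cases h5 : P F
      · exact Or.inl ⟨h, h5⟩
      · exact Or.inr ⟨h, h5⟩
  exact_mod_cast h2

/-- **All dimensions**, positive proportion, all points of bounded degree. -/
theorem uniform_pos (K : IntermediateField ℚ ℂ) (hK : K.FG) (M B : ℕ) :
    ∃ κ : ℝ, 0 < κ ∧ ∃ D : ℕ, ∀ d : ℕ, D ≤ d → ∃ H₀ : ℕ, ∀ H : ℕ, H₀ ≤ H →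
      κ * ((BoxG (M + 1) d H).ncard : ℝ)
        ≤ (({F | F ∈ BoxG (M + 1) d H ∧ (NoZeroG F ∧ AllDeg K B F)}.ncard : ℕ) : ℝ) := by
  classical
  have hfg := IntermediateField.fg_top_iff.2 (IntermediateField.essFiniteType_iff.2 hK)
  obtain ⟨p, hp2, hp, hι⟩ := exists_embedding hfg 2
  have hfact : Fact p.Prime := ⟨hp⟩
  set f := B.factorial with hf
  have hf0 : f ≠ 0 := Nat.factorial_ne_zero B
  set κ : ℝ := 1 / (Fintype.card (∀ t : CP (ZMod p) (GaloisField p f) (M + 1),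
        Matrix (Fin (M + 1)) (Fin (M + 1)) (fld t)) : ℝ) with hκ
  have hcard : (0 : ℝ) < (Fintype.card (∀ t : CP (ZMod p) (GaloisField p f) (M + 1),
        Matrix (Fin (M + 1)) (Fin (M + 1)) (fld t)) : ℝ) := by
    exact_mod_cast Fintype.card_pos
  have hκ0 : 0 < κ := by rw [hκ]; positivity
  have hκ1 : κ ≤ 1 := by
    rw [hκ, div_le_one hcard]
    exact_mod_cast Fintype.card_pos
  obtain ⟨D, hD⟩ := density_C K hK M B f hf0 (fun e he0 he => Nat.dvd_factorial he0 he)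
    (fun _ : Fin 1 => p) (Function.injective_of_subsingleton _)
    (fun _ => by omega) (fun _ => hι) (fun _ => κ) (fun _ => hκ1) (fun _ => by
      rw [hκ, one_div, inv_mul_cancel₀ hcard.ne']
      have h1 : 1 ≤ (univ.filter (fun A : (∀ t : CP (ZMod p) (GaloisField p f) (M + 1),
        Matrix (Fin (M + 1)) (Fin (M + 1)) (fld t)) => EvC A)).card := by
        rw [Nat.one_le_iff_ne_zero, Finset.card_ne_zero]
        exact ⟨_, by rw [mem_filter]; exact ⟨mem_univ _, evC_one⟩⟩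
      exact_mod_cast h1)
  refine ⟨κ / 2, by positivity, D, fun d hd => ?_⟩
  obtain ⟨H₀, hH₀⟩ := hD d hd (κ / 2) (by positivity)
  refine ⟨H₀, fun H hH => ?_⟩
  have h1 := hH₀ H hH
  rw [Finset.prod_const, Finset.card_univ, Fintype.card_fin, pow_one] at h1
  have h3 := ncard_compl_box M d H (fun F => NoZeroG F ∧ AllDeg K B F)
  nlinarith

/-- **Main theorem**: lower bounds for the proportion. -/
theorem uniform_main (K : IntermediateField ℚ ℂ) (hK : K.FG) (N B : ℕ) :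
    ∃ κ₀ : ℝ, 0 < κ₀ ∧ ∀ κ : ℝ, κ < 1 → (κ ≤ κ₀ ∨ N = 2 ∨ (N = 3 ∧ B = 1)) →
      ∃ D : ℕ, ∀ d : ℕ, D ≤ d → ∃ H₀ : ℕ, ∀ H : ℕ, H₀ ≤ H →
        κ * ((BoxG (N + 1) d H).ncard : ℝ)
          ≤ (({F | F ∈ BoxG (N + 1) d H ∧ (NoZeroG F ∧ AllDeg K B F)}.ncard : ℕ) : ℝ) := by
  obtain ⟨κ₀, hκ₀, D, hD⟩ := uniform_pos K hK N B
  refine ⟨κ₀, hκ₀, fun κ hκ hcase => ?_⟩
  have key : (∃ D : ℕ, ∀ d : ℕ, D ≤ d → ∃ H₀ : ℕ, ∀ H : ℕ, H₀ ≤ H →
      (({F | F ∈ BoxG (N + 1) d H ∧ ¬ (NoZeroG F ∧ AllDeg K B F)}.ncard : ℕ) : ℝ)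
        ≤ (1 - κ) * ((BoxG (N + 1) d H).ncard : ℝ)) →
      ∃ D : ℕ, ∀ d : ℕ, D ≤ d → ∃ H₀ : ℕ, ∀ H : ℕ, H₀ ≤ H →
        κ * ((BoxG (N + 1) d H).ncard : ℝ)
          ≤ (({F | F ∈ BoxG (N + 1) d H ∧ (NoZeroG F ∧ AllDeg K B F)}.ncard : ℕ) : ℝ) := by
    rintro ⟨D, hD⟩
    refine ⟨D, fun d hd => ?_⟩
    obtain ⟨H₀, hH₀⟩ := hD d hd
    refine ⟨H₀, fun H hH => ?_⟩
    have h1 := hH₀ H hH
    have h3 := ncard_compl_box N d H (fun F => NoZeroG F ∧ AllDeg K B F)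
    linarith
  rcases hcase with h | rfl | ⟨rfl, rfl⟩
  · refine ⟨D, fun d hd => ?_⟩
    obtain ⟨H₀, hH₀⟩ := hD d hd
    exact ⟨H₀, fun H hH => (mul_le_mul_of_nonneg_right h (by positivity)).trans (hH₀ H hH)⟩
  · exact key (uniform_two K hK B (1 - κ) (by linarith))
  · exact key (uniform_three K hK (1 - κ) (by linarith))

end Pool.Agent.Helper38.Dml
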