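import Mathlib

/-!
# An integral form without zeros modulo `p`
-/

set_option autoImplicit false

open Finset MvPolynomial

namespace Pool.Agent.Helper38.Dml

/-- a ternary form of degree `3 (p - 1)` with value `1` at all nonzero points modulo `p` -/
noncomputable def fermat (p : ℕ) : MvPolynomial (Fin 3) ℤ :=
  (X 0 ^ (p - 1)) ^ 3 + (X 1 ^ (p - 1)) ^ 3 + (X 2 ^ (p - 1)) ^ 3
    - (X 0 ^ (p - 1)) ^ 2 * X 1 ^ (p - 1) - (X 1 ^ (p - 1)) ^ 2 * X 2 ^ (p - 1)
    - (X 2 ^ (p - 1)) ^ 2 * X 0 ^ (p - 1)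
    + X 0 ^ (p - 1) * X 1 ^ (p - 1) * X 2 ^ (p - 1)

theorem fermat_isHomogeneous (p : ℕ) : (fermat p).IsHomogeneous (3 * (p - 1)) := by
  have hX : ∀ i : Fin 3, (X i ^ (p - 1) : MvPolynomial (Fin 3) ℤ).IsHomogeneous (p - 1) := by
    intro i
    have := (isHomogeneous_X ℤ i).pow (p - 1)
    rwa [one_mul] at this
  have h3 : ∀ i : Fin 3, ((X i ^ (p - 1)) ^ 3 : MvPolynomial (Fin 3) ℤ).IsHomogeneous
      (3 * (p - 1)) := by
    intro i
    have := (hX i).pow 3
    rwa [mul_comm] at this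
  have h2 : ∀ i j : Fin 3, ((X i ^ (p - 1)) ^ 2 * X j ^ (p - 1) :
      MvPolynomial (Fin 3) ℤ).IsHomogeneous (3 * (p - 1)) := by
    intro i j
    have := ((hX i).pow 2).mul (hX j)
    convert this using 1
    ring
  have h1 : (X 0 ^ (p - 1) * X 1 ^ (p - 1) * X 2 ^ (p - 1) :
      MvPolynomial (Fin 3) ℤ).IsHomogeneous (3 * (p - 1)) := by
    have := ((hX 0).mul (hX 1)).mul (hX 2)
    convert this using 1
    ring
  exact ((((((h3 0).add (h3 1)).add (h3 2)).sub (h2 0 1)).sub (h2 1 2)).sub (h2 2 0)).add h1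

theorem eval_fermat (p : ℕ) [Fact p.Prime] (x : Fin 3 → ZMod p) (hx : x ≠ 0) :
    eval x (MvPolynomial.map (Int.castRingHom (ZMod p)) (fermat p)) = 1 := by
  have hp : p.Prime := Fact.out
  have hp1 : p - 1 ≠ 0 := by
    have := hp.two_le
    omega
  have h01 : ∀ i, x i ^ (p - 1) = 0 ∨ x i ^ (p - 1) = 1 := by
    intro i
    by_cases h : x i = 0
    · left; rw [h, zero_pow hp1]
    · right; exact ZMod.pow_card_sub_one_eq_one h
  have hne : ¬ (x 0 ^ (p - 1) = 0 ∧ x 1 ^ (p - 1) = 0 ∧ x 2 ^ (p - 1) = 0) := by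
    rintro ⟨h0, h1, h2⟩
    apply hx
    funext i
    fin_cases i
    · exact pow_eq_zero_iff hp1 |>.1 h0
    · exact pow_eq_zero_iff hp1 |>.1 h1
    · exact pow_eq_zero_iff hp1 |>.1 h2
  simp only [fermat, map_add, map_sub, map_mul, map_pow, map_X, eval_X]
  rcases h01 0 with h0 | h0 <;> rcases h01 1 with h1 | h1 <;> rcases h01 2 with h2 | h2 <;>
    first
    | (simp only [h0, h1, h2]; ring1)
    | exact absurd ⟨h0, h1, h2⟩ hne

/-- the auxiliary form: `1` if `p` does not divide `d` -/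
noncomputable def auxForm (p d : ℕ) : MvPolynomial (Fin 3) ℤ := if p ∣ d then fermat p else 1

/-- its degree -/
def auxDeg (p d : ℕ) : ℕ := if p ∣ d then 3 * (p - 1) else 0

theorem auxForm_isHomogeneous (p d : ℕ) : (auxForm p d).IsHomogeneous (auxDeg p d) := by
  rw [auxForm, auxDeg]
  split_ifs
  · exact fermat_isHomogeneous p
  · exact isHomogeneous_one _ _

theorem eval_auxForm (p d : ℕ) [Fact p.Prime] (x : Fin 3 → ZMod p) (hx : x ≠ 0) :
    eval x (MvPolynomial.map (Int.castRingHom (ZMod p)) (auxForm p d)) = 1 := by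
  rw [auxForm]
  split_ifs
  · exact eval_fermat p x hx
  · simp

theorem deg_ne_zero (p d : ℕ) [Fact p.Prime] (h3 : p ≠ 3) : ((d + auxDeg p d : ℕ) : ZMod p) ≠ 0 := by
  have hp : p.Prime := Fact.out
  intro h
  rw [ZMod.natCast_eq_zero_iff] at h
  rw [auxDeg] at h
  split_ifs at h with hd
  · have h1 : p ∣ 3 * (p - 1) := (Nat.dvd_add_right hd).1 h
    rcases (Nat.Prime.dvd_mul hp).1 h1 with h2 | h2
    · exact h3 ((Nat.prime_dvd_prime_iff_eq hp Nat.prime_three).1 h2)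
    · have := Nat.le_of_dvd (by have := hp.two_le; omega) h2
      have := hp.two_le
      omega
  · exact hd (by simpa using h)

end Pool.Agent.Helper38.Dml
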