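import Mathlib
import Pool.Agent.Helper38.Dml.Good
import Pool.Agent.Helper38.Dml.Auxiliary
import Pool.Agent.Helper38.Dml.Box
import Pool.Agent.Helper38.Dml.Embed
import Pool.Agent.Helper38.Dml.Arith

/-!
# Counting triples of forms which are good modulo a prime
-/

set_option autoImplicit false

open Finset Function MvPolynomial
open scoped LinearAlgebra.Projectivization

namespace Pool.Agent.Helper38.Dml

theorem card_plane (p : ℕ) [Fact p.Prime] [Fintype (ℙ (ZMod p) (Fin 3 → ZMod p))] :
    Fintype.card (ℙ (ZMod p) (Fin 3 → ZMod p)) = p ^ 2 + p + 1 := by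
  have h := Projectivization.card_of_finrank (ZMod p) (Fin 3 → ZMod p) (n := 3) (by simp)
  rw [Nat.card_eq_fintype_card, Nat.card_eq_fintype_card, ZMod.card] at h
  rw [h]
  simp [Finset.sum_range_succ]
  ring

/-- the forms over `ZMod p` to be tested -/
noncomputable def twist (p d : ℕ) (c : Fin 3 → Mon 3 d → ZMod p) (i : Fin 3) :
    MvPolynomial (Fin 3) (ZMod p) :=
  MvPolynomial.map (Int.castRingHom (ZMod p)) (auxForm p d) * frm (c i)

/-- the surjectivity of the map to jets -/
def JetsSurj (p d : ℕ) : Prop :=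
  ∀ _ : Fact p.Prime, ∀ lam : ℙ (ZMod p) (Fin 3 → ZMod p) → Fin 3 → ZMod p,
    ∃ c : Mon 3 d → ZMod p, ∀ x j, MvPolynomial.eval x.rep (pderiv j
      (MvPolynomial.map (Int.castRingHom (ZMod p)) (auxForm p d) * frm c)) = lam x j

open Classical in
/-- the triples which are not good -/
noncomputable def badSet (p d : ℕ) [Fact p.Prime] : Finset (Fin 3 → Mon 3 d → ZMod p) :=
  univ.filter (fun c => ¬ Good (twist p d c))

theorem card_badSet_le (p d : ℕ) [Fact p.Prime] (h : JetsSurj p d) :
    ((badSet p d).card : ℝ) ≤ (1 - Real.exp (-24) / 16)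
      * (p : ℝ) ^ (Fintype.card (Fin 3) * Fintype.card (Mon 3 d)) := by
  classical
  have : Fintype (ℙ (ZMod p) (Fin 3 → ZMod p)) := Fintype.ofFinite _
  have h1 := card_good_ge (k := ZMod p) (d := d) (e := auxDeg p d)
    (MvPolynomial.map (Int.castRingHom (ZMod p)) (auxForm p d))
    ((auxForm_isHomogeneous p d).map _) (h inferInstance)
  have h2 : (Fintype.card (Fin 3 → Mon 3 d → ZMod p) : ℝ)
      = (p : ℝ) ^ (Fintype.card (Fin 3) * Fintype.card (Mon 3 d)) := by
    rw [Fintype.card_fun, Fintype.card_fun, ZMod.card, ← pow_mul, mul_comm (Fintype.card (Fin 3))]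
    push_cast
    rfl
  have h3 : (univ.filter (fun c : Fin 3 → Mon 3 d → ZMod p => Good (twist p d c))).card
      + (badSet p d).card = Fintype.card (Fin 3 → Mon 3 d → ZMod p) := by
    rw [badSet, Finset.card_filter_add_card_filter_not, Finset.card_univ]
  have h4 : ((univ.filter (fun c : Fin 3 → Mon 3 d → ZMod p => Good (twist p d c))).card : ℝ)
      + ((badSet p d).card : ℝ) = (Fintype.card (Fin 3 → Mon 3 d → ZMod p) : ℝ) := by
    exact_mod_cast h3
  rw [← h2]
  have h5 : Real.exp (-24) / 16 * (Fintype.card (Fin 3 → Mon 3 d → ZMod p) : ℝ)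
      ≤ ((univ.filter (fun c : Fin 3 → Mon 3 d → ZMod p => Good (twist p d c))).card : ℝ) := by
    refine h1.trans (le_of_eq ?_)
    rfl
  linarith

end Pool.Agent.Helper38.Dml
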