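import Mathlib
import Pool.Agent.Helper38.Dml.Count

/-!
# Almost all triples satisfy dynamical Mordell-Lang: assembly
-/

set_option autoImplicit false

open Finset Function MvPolynomial
open scoped LinearAlgebra.Projectivization

namespace Pool.Agent.Helper38.Dml

/-- Dynamical Mordell-Lang for the orbits of the points over `K` under `F`, all subvarieties. -/
def DML (K : IntermediateField ℚ ℂ) (F : Fin 3 → MvPolynomial (Fin 3) ℤ) : Prop :=
  ∀ a : Fin 3 → ℂ, (∀ i, a i ∈ K) → a ≠ 0 →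
    ∀ S : Set (MvPolynomial (Fin 3) ℂ), (∀ g ∈ S, ∃ e : ℕ, g.IsHomogeneous e) →
    ∃ T : Finset (ℕ × ℕ),
      {n : ℕ | ∀ g ∈ S, MvPolynomial.eval ((fun (x : Fin 3 → ℂ) (i : Fin 3) =>
          MvPolynomial.eval x (MvPolynomial.map (Int.castRingHom ℂ) (F i)))^[n] a) g = 0}
        = {n : ℕ | ∃ q ∈ T, ∃ m : ℕ, n = q.1 * m + q.2}

theorem dml_of_not_mem_badSet (K : IntermediateField ℚ ℂ) (p : ℕ) [Fact p.Prime] (d : ℕ)
    (ι : K →+* ℚ_[p]) (c : Fin 3 → Mon 3 d → ℤ)
    (hc : (fun i e => (c i e : ZMod p)) ∉ badSet p d) : DML K (fun i => frm (c i)) := by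
  classical
  intro a haK ha S hS
  have hG : Good (fun i => MvPolynomial.map (Int.castRingHom (ZMod p))
      (auxForm p d * frm (c i))) := by
    have h1 : Good (twist p d (fun i e => (c i e : ZMod p))) := by
      by_contra h
      apply hc
      rw [badSet, Finset.mem_filter]
      exact ⟨mem_univ _, h⟩
    convert h1 using 1
    funext i
    rw [map_mul, map_frm]
    rfl
  have ha' : (fun i => (⟨a i, haK i⟩ : K)) ≠ 0 := by
    intro h
    apply ha
    funext i
    exact congrArg Subtype.val (congrFun h i)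
  exact dml_of_good p ι (fun i => frm (c i)) (fun i => frm_isHomogeneous _) (auxForm p d) hG
    (fun i => (⟨a i, haK i⟩ : K)) ha' S hS

/-- choice of the primes -/
theorem exists_primes (K : IntermediateField ℚ ℂ) (hK : K.FG) (k : ℕ) :
    ∃ t : Finset ℕ, t.card = k ∧ ∀ p ∈ t, 3 < p ∧ ∃ hp : p.Prime, haveI := Fact.mk hp;
      Nonempty (K →+* ℚ_[p]) := by
  have hinf : {p : ℕ | 3 < p ∧ ∃ hp : p.Prime, haveI := Fact.mk hp;
      Nonempty (K →+* ℚ_[p])}.Infinite := by
    apply Set.infinite_of_forall_exists_gt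
    intro N
    have hfg := IntermediateField.fg_top_iff.2 (IntermediateField.essFiniteType_iff.2 hK)
    obtain ⟨p, hpN, hp, h⟩ := exists_embedding hfg (N + 3)
    exact ⟨p, ⟨by omega, hp, h⟩, by omega⟩
  obtain ⟨t, ht, htk⟩ := hinf.exists_subset_card_eq k
  exact ⟨t, htk, fun p hp => ht hp⟩

/-- the box of integral triples of forms of degree `d` with coefficients bounded by `H` -/
def Box (d H : ℕ) : Set (Fin 3 → MvPolynomial (Fin 3) ℤ) :=
  {F | ∀ i, (F i).IsHomogeneous d ∧ ∀ e, |(F i).coeff e| ≤ (H : ℤ)}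

/-- the triple of forms with given coefficients -/
noncomputable def toForms {d : ℕ} (c : Fin 3 → Mon 3 d → ℤ) : Fin 3 → MvPolynomial (Fin 3) ℤ :=
  fun i => frm (c i)

theorem toForms_injective {d : ℕ} : Injective (toForms (d := d)) := by
  intro c c' h
  funext i
  exact frm_injective (congrFun h i)

theorem Box_eq_image (d H : ℕ) :
    Box d H = toForms '' (box (Fin 3) (Mon 3 d) H : Set (Fin 3 → Mon 3 d → ℤ)) := by
  ext F
  constructor
  · intro hF
    refine ⟨fun i e => (F i).coeff e.1, ?_, ?_⟩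
    · rw [Finset.mem_coe, box, Fintype.mem_piFinset]
      intro i
      rw [Fintype.mem_piFinset]
      intro e
      rw [Finset.mem_Icc]
      exact abs_le.1 ((hF i).2 e.1)
    · funext i
      exact frm_coeff (hF i).1
  · rintro ⟨c, hc, rfl⟩
    rw [Finset.mem_coe, box, Fintype.mem_piFinset] at hc
    intro i
    refine ⟨frm_isHomogeneous _, fun e => ?_⟩
    by_cases he : e ∈ Finset.finsuppAntidiag (Finset.univ : Finset (Fin 3)) d
    · have h1 := coeff_frm (c i) ⟨e, he⟩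
      simp only at h1
      change |coeff e (frm (c i))| ≤ _
      rw [h1]
      have h2 := hc i
      rw [Fintype.mem_piFinset] at h2
      exact abs_le.2 (Finset.mem_Icc.1 (h2 ⟨e, he⟩))
    · change |coeff e (frm (c i))| ≤ _
      rw [coeff_frm_of_not_mem _ _ he, abs_zero]
      positivity

theorem Box_finite (d H : ℕ) : (Box d H).Finite := by
  rw [Box_eq_image]
  exact (Finset.finite_toSet _).image _

theorem ncard_Box (d H : ℕ) : (Box d H).ncard = (box (Fin 3) (Mon 3 d) H).card := by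
  rw [Box_eq_image, Set.ncard_image_of_injective _ toForms_injective, Set.ncard_coe_finset]

/-- no nontrivial common zero -/
def NoZero (F : Fin 3 → MvPolynomial (Fin 3) ℤ) : Prop :=
  ∀ x : Fin 3 → ℂ, (∀ i, MvPolynomial.eval x (MvPolynomial.map (Int.castRingHom ℂ) (F i)) = 0) →
    x = 0

open Classical in
theorem almost_all (hJ : ∀ p d, p.Prime → p ≠ 3 → 2 * (p ^ 2 + p + 1) ≤ d → JetsSurj p d)
    (hZ : ∀ d, 0 < d → ∃ C : ℕ, ∀ H : ℕ, ((box (Fin 3) (Mon 3 d) H).filter
      (fun c => ¬ NoZero (toForms c))).card * (2 * H + 1)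
        ≤ C * (2 * H + 1) ^ (3 * Fintype.card (Mon 3 d)))
    (K : IntermediateField ℚ ℂ) (hK : K.FG) (ε : ℝ) (hε : 0 < ε) :
    ∃ D : ℕ, ∀ d : ℕ, D ≤ d → ∃ H₀ : ℕ, ∀ H : ℕ, H₀ ≤ H →
      (({F | F ∈ Box d H ∧ ¬ (NoZero F ∧ DML K F)}.ncard : ℕ) : ℝ) ≤ ε * ((Box d H).ncard : ℝ) := by
  set δ : ℝ := 1 - Real.exp (-24) / 16 with hδ
  have hδ1 : δ < 1 := by
    have := Real.exp_pos (-24)
    linarith
  have hδ0 : 0 ≤ δ := by
    have : Real.exp (-24) ≤ 1 := Real.exp_le_one_iff.2 (by norm_num)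
    linarith
  obtain ⟨k, hk⟩ := exists_pow_lt_of_lt_one (show (0 : ℝ) < ε / 4 by positivity) hδ1
  obtain ⟨t, htk, ht⟩ := exists_primes K hK k
  set M := ∑ p ∈ t, p with hM
  refine ⟨2 * (M ^ 2 + M + 1), fun d hd => ?_⟩
  have hd0 : 0 < d := by
    have : 0 < 2 * (M ^ 2 + M + 1) := by positivity
    omega
  obtain ⟨C, hC⟩ := hZ d hd0
  set n := Fintype.card (Fin 3) * Fintype.card (Mon 3 d) with hn
  obtain ⟨H₁, hH₁⟩ := exists_nat_ge (2 * C / ε)
  refine ⟨H₁ + 2 * n * ∏ p ∈ t, p, fun H hH => ?_⟩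
  have hpp : ∀ i : t, (i : ℕ).Prime := fun i => (ht i.1 i.2).2.1
  have hfact : ∀ i : t, Fact (i : ℕ).Prime := fun i => ⟨hpp i⟩
  have hbad : ∀ i : t, ((badSet (i : ℕ) d).card : ℝ) ≤ δ * ((i : ℕ) : ℝ) ^ n := by
    intro i
    apply card_badSet_le
    apply hJ _ _ (hpp i)
    · have := (ht i.1 i.2).1
      omega
    · have h1 : (i : ℕ) ≤ M := Finset.single_le_sum (f := fun p => p) (fun _ _ => Nat.zero_le _) i.2
      have h2 : (i : ℕ) ^ 2 ≤ M ^ 2 := Nat.pow_le_pow_left h1 2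
      omega
  have h1 := card_box_filter_le_real (fun i : t => (i : ℕ)) hpp Subtype.val_injective
    (fun i => badSet (i : ℕ) d) δ hδ0 hbad H (by
      have h2 : ∏ i : t, (i : ℕ) = ∏ p ∈ t, p := Finset.prod_coe_sort t (fun p => p)
      rw [h2]
      rw [← hn]
      omega)
  rw [Fintype.card_coe, htk] at h1
  have hbox : (box (Fin 3) (Mon 3 d) H).card = (2 * H + 1) ^ n := by rw [card_box]
  have h2 := hC H
  -- the bad triples
  have hsub : {F | F ∈ Box d H ∧ ¬ (NoZero F ∧ DML K F)} ⊆ toForms ''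
      (((box (Fin 3) (Mon 3 d) H).filter (fun c => ¬ NoZero (toForms c)) ∪
        (box (Fin 3) (Mon 3 d) H).filter (fun c => ∀ i : t,
          (fun a b => (c a b : ZMod (i : ℕ))) ∈ badSet (i : ℕ) d) :
            Finset (Fin 3 → Mon 3 d → ℤ)) : Set (Fin 3 → Mon 3 d → ℤ)) := by
    rintro F ⟨hF, hF2⟩
    rw [Box_eq_image] at hF
    obtain ⟨c, hc, rfl⟩ := hF
    refine ⟨c, ?_, rfl⟩
    rw [Finset.mem_coe, Finset.mem_union, Finset.mem_filter, Finset.mem_filter]
    by_cases hz : NoZero (toForms c)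
    · right
      refine ⟨hc, fun i => ?_⟩
      by_contra hi
      apply hF2
      refine ⟨hz, ?_⟩
      obtain ⟨ι⟩ := (ht i.1 i.2).2.2
      exact dml_of_not_mem_badSet K (i : ℕ) d ι c hi
    · left
      exact ⟨hc, hz⟩
  have h3 : ({F | F ∈ Box d H ∧ ¬ (NoZero F ∧ DML K F)}.ncard : ℝ)
      ≤ (((box (Fin 3) (Mon 3 d) H).filter (fun c => ¬ NoZero (toForms c))).card : ℝ)
        + (((box (Fin 3) (Mon 3 d) H).filter (fun c => ∀ i : t,
          (fun a b => (c a b : ZMod (i : ℕ))) ∈ badSet (i : ℕ) d)).card : ℝ) := by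
    have h4 := Set.ncard_le_ncard hsub ((Finset.finite_toSet _).image _)
    rw [Set.ncard_image_of_injective _ toForms_injective, Set.ncard_coe_finset] at h4
    have h5 := h4.trans (Finset.card_union_le _ _)
    exact_mod_cast h5
  rw [ncard_Box]
  refine h3.trans ?_
  have hpos : (0 : ℝ) < 2 * H + 1 := by positivity
  have h6 : (((box (Fin 3) (Mon 3 d) H).filter (fun c => ¬ NoZero (toForms c))).card : ℝ)
      ≤ ε / 2 * ((box (Fin 3) (Mon 3 d) H).card : ℝ) := by
    have h7 : (((box (Fin 3) (Mon 3 d) H).filter (fun c => ¬ NoZero (toForms c))).card : ℝ)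
        * (2 * H + 1) ≤ C * (2 * H + 1) ^ n := by
      have : n = 3 * Fintype.card (Mon 3 d) := by rw [hn, Fintype.card_fin]
      rw [this]
      exact_mod_cast h2
    have h8 : 2 * (C : ℝ) / ε ≤ 2 * H + 1 := by
      have : (H₁ : ℝ) ≤ H := by exact_mod_cast (by omega : H₁ ≤ H)
      linarith
    have h9 : (C : ℝ) ≤ ε / 2 * (2 * H + 1) := by
      rw [div_le_iff₀ hε] at h8
      linarith
    rw [hbox]
    push_cast
    have h10 : (((box (Fin 3) (Mon 3 d) H).filter (fun c => ¬ NoZero (toForms c))).card : ℝ)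
        * (2 * H + 1) ≤ (ε / 2 * (2 * H + 1) ^ n) * (2 * H + 1) := by
      refine h7.trans ?_
      have h11 : (0 : ℝ) ≤ (2 * H + 1) ^ n := by positivity
      calc (C : ℝ) * (2 * H + 1) ^ n ≤ (ε / 2 * (2 * H + 1)) * (2 * H + 1) ^ n :=
            mul_le_mul_of_nonneg_right h9 h11
        _ = _ := by ring
    exact le_of_mul_le_mul_right h10 hpos
  have h12 : 2 * δ ^ k * ((box (Fin 3) (Mon 3 d) H).card : ℝ)
      ≤ ε / 2 * ((box (Fin 3) (Mon 3 d) H).card : ℝ) := by
    apply mul_le_mul_of_nonneg_right _ (by positivity)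
    linarith
  linarith [h1, h6, h12]

end Pool.Agent.Helper38.Dml
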