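import Mathlib
import Pool.Agent.Helper38.Dml.Assembly
import Pool.Agent.Helper38.Dml.High
import Pool.Agent.Helper36.Jets
import Pool.Agent.Helper36.Macaulay

/-!
# Dynamical Mordell-Lang for almost all endomorphisms of the plane of large degree
-/

set_option autoImplicit false

namespace Pool.Agent.Helper38.Dml

open MvPolynomial

theorem dim_two_raw (K : IntermediateField ℚ ℂ) (hK : K.FG) (ε : ℝ) (hε : 0 < ε) :
    ∃ D : ℕ, ∀ d : ℕ, D ≤ d → ∃ H₀ : ℕ, ∀ H : ℕ, H₀ ≤ H →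
      {F : Fin 3 → MvPolynomial (Fin 3) ℤ |
        ∀ i, (F i).IsHomogeneous d ∧ ∀ e, |(F i).coeff e| ≤ (H : ℤ)}.Finite ∧
      ({F : Fin 3 → MvPolynomial (Fin 3) ℤ |
        (∀ i, (F i).IsHomogeneous d ∧ ∀ e, |(F i).coeff e| ≤ (H : ℤ)) ∧
        ¬ ((∀ x : Fin 3 → ℂ,
              (∀ i, eval x (MvPolynomial.map (Int.castRingHom ℂ) (F i)) = 0) → x = 0) ∧
            ∀ a : Fin 3 → ℂ, (∀ i, a i ∈ K) → a ≠ 0 →
            ∀ S : Set (MvPolynomial (Fin 3) ℂ), (∀ g ∈ S, ∃ e : ℕ, g.IsHomogeneous e) →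
            ∃ T : Finset (ℕ × ℕ),
              {n : ℕ | ∀ g ∈ S, eval ((fun (x : Fin 3 → ℂ) (i : Fin 3) =>
                  eval x (MvPolynomial.map (Int.castRingHom ℂ) (F i)))^[n] a) g = 0}
                = {n : ℕ | ∃ q ∈ T, ∃ m : ℕ, n = q.1 * m + q.2})}.ncard : ℝ)
        ≤ ε * ({F : Fin 3 → MvPolynomial (Fin 3) ℤ |
            ∀ i, (F i).IsHomogeneous d ∧ ∀ e, |(F i).coeff e| ≤ (H : ℤ)}.ncard : ℝ) := by
  classical
  have hJ : ∀ p d, p.Prime → p ≠ 3 → 2 * (p ^ 2 + p + 1) ≤ d → JetsSurj p d := by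
    intro p d hp hp3 hd hfact lam
    have : Fintype (Projectivization (ZMod p) (Fin 3 → ZMod p)) := Fintype.ofFinite _
    have hcard := card_plane p
    apply Pool.Agent.Helper36.Jets.jets_surjective _ ((auxForm_isHomogeneous p d).map _)
    · intro x hx
      rw [eval_auxForm p d x hx]
      exact one_ne_zero
    · exact deg_ne_zero p d hp3
    · rw [hcard]
      exact hd
  have hZ : ∀ d, 0 < d → ∃ C : ℕ, ∀ H : ℕ, ((box (Fin 3) (Mon 3 d) H).filter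
      (fun c => ¬ NoZero (toForms c))).card * (2 * H + 1)
        ≤ C * (2 * H + 1) ^ (3 * Fintype.card (Mon 3 d)) := by
    intro d hd
    obtain ⟨C, hC⟩ := Pool.Agent.Helper36.Macaulay.card_common_zero_le 3 d hd
    refine ⟨C, fun H => le_trans (Nat.mul_le_mul_right _ (Finset.card_le_card ?_)) (hC H)⟩
    intro c hc
    rw [Finset.mem_filter] at hc ⊢
    refine ⟨hc.1, ?_⟩
    by_contra hcon
    push Not at hcon
    apply hc.2
    intro x hx
    by_contra hx0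
    obtain ⟨i, hi⟩ := hcon x hx0
    apply hi
    have h1 := hx i
    rw [toForms, map_frm] at h1
    exact h1
  obtain ⟨D, hD⟩ := almost_all hJ hZ K hK ε hε
  refine ⟨D, fun d hd => ?_⟩
  obtain ⟨H₀, hH₀⟩ := hD d hd
  exact ⟨H₀, fun H hH => ⟨Box_finite d H, hH₀ H hH⟩⟩


/-- **Dimension two**, almost all maps, all points over `K`. -/
theorem dim_two (K : IntermediateField ℚ ℂ) (hK : K.FG) (ε : ℝ) (hε : 0 < ε) :
    ∃ D : ℕ, ∀ d : ℕ, D ≤ d → ∃ H₀ : ℕ, ∀ H : ℕ, H₀ ≤ H →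
      (({F | F ∈ BoxG 3 d H ∧ ¬ (NoZeroG F ∧ AllPts K F)}.ncard : ℕ) : ℝ)
        ≤ ε * ((BoxG 3 d H).ncard : ℝ) := by
  obtain ⟨D, hD⟩ := dim_two_raw K hK ε hε
  refine ⟨D, fun d hd => ?_⟩
  obtain ⟨H₀, hH₀⟩ := hD d hd
  exact ⟨H₀, fun H hH => (hH₀ H hH).2⟩

end Pool.Agent.Helper38.Dml
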